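import Pool.Agent.U874.RG.Gain

/-!
# Strong log-convexity of the moments at temperature zero (finite product space)
-/

set_option autoImplicit false
set_option linter.unusedSectionVars false

open MeasureTheory ProbabilityTheory

namespace U874.FL

open TH967.DP (score measurable_score integrable_bdd abs_score_le integral_score
  integral_score_sq mp_update)
open U874.RG (resample dens measurable_dens abs_dens_le dens_nonneg dens_update_erase dens_erase
  one_site_w hasDerivAt_tilt integral_dens_sq)

variable {ι W : Type} [Fintype ι] [DecidableEq ι] [Fintype W] [Nonempty W]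

/-- the last passage value -/
noncomputable def Mx (vis : W → Finset ι) (η : ι → ℝ) : ℝ :=
  Finset.univ.sup' Finset.univ_nonempty (fun w => ∑ i ∈ vis w, η i)

lemma le_Mx (vis : W → Finset ι) (η : ι → ℝ) (w : W) : ∑ i ∈ vis w, η i ≤ Mx vis η :=
  Finset.le_sup' (fun w => ∑ i ∈ vis w, η i) (Finset.mem_univ w)

lemma exists_Mx (vis : W → Finset ι) (η : ι → ℝ) : ∃ w, ∑ i ∈ vis w, η i = Mx vis η := by
  obtain ⟨w, -, hw⟩ := Finset.exists_mem_eq_sup' (s := Finset.univ) Finset.univ_nonempty
    (fun w => ∑ i ∈ vis w, η i)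
  exact ⟨w, hw.symm⟩

lemma Mx_le {vis : W → Finset ι} {η : ι → ℝ} {c : ℝ} (h : ∀ w, ∑ i ∈ vis w, η i ≤ c) :
    Mx vis η ≤ c := Finset.sup'_le _ _ fun w _ => h w

lemma Mx_mono (vis : W → Finset ι) {η ξ : ι → ℝ} (h : ∀ i, η i ≤ ξ i) : Mx vis η ≤ Mx vis ξ :=
  Mx_le fun w => (Finset.sum_le_sum fun i _ => h i).trans (le_Mx vis ξ w)

lemma measurable_Mx (vis : W → Finset ι) : Measurable (Mx vis) := by
  have h : Measurable (Finset.univ.sup' Finset.univ_nonempty
      (fun (w : W) (η : ι → ℝ) => ∑ i ∈ vis w, η i)) :=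
    Finset.measurable_sup' _ fun w _ => Finset.measurable_fun_sum _ fun i _ => measurable_pi_apply i
  have e : Mx vis = Finset.univ.sup' Finset.univ_nonempty
      (fun (w : W) (η : ι → ℝ) => ∑ i ∈ vis w, η i) := by
    funext η
    unfold Mx
    rw [Finset.sup'_apply]
  rw [e]
  exact h

/-- the site `s` is on an optimal path, and its weight is at most `a` -/
noncomputable def hv (vis : W → Finset ι) (a : ℝ) (s : ι) (η : ι → ℝ) : ℝ :=
  Set.indicator {η : ι → ℝ | η s ≤ a ∧ ∃ w, s ∈ vis w ∧ ∑ i ∈ vis w, η i = Mx vis η}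
    (fun _ => (1 : ℝ)) η

lemma hv_nonneg (vis : W → Finset ι) (a : ℝ) (s : ι) (η : ι → ℝ) : 0 ≤ hv vis a s η :=
  Set.indicator_nonneg (fun _ _ => zero_le_one) _

lemma hv_le_one (vis : W → Finset ι) (a : ℝ) (s : ι) (η : ι → ℝ) : hv vis a s η ≤ 1 := by
  unfold hv
  exact Set.indicator_le_self' (fun _ _ => zero_le_one) _

lemma measurable_hv (vis : W → Finset ι) (a : ℝ) (s : ι) : Measurable (hv vis a s) := by
  unfold hv
  refine measurable_const.indicator ?_
  have e : {η : ι → ℝ | η s ≤ a ∧ ∃ w, s ∈ vis w ∧ ∑ i ∈ vis w, η i = Mx vis η} =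
      {η : ι → ℝ | η s ≤ a} ∩ ⋃ w ∈ {w : W | s ∈ vis w},
        {η : ι → ℝ | ∑ i ∈ vis w, η i = Mx vis η} := by
    ext η
    simp only [Set.mem_ofPred_eq, Set.mem_inter_iff, Set.mem_iUnion, exists_prop]
  rw [e]
  refine (measurableSet_le (measurable_pi_apply s) measurable_const).inter ?_
  refine (Set.toFinite _).measurableSet_biUnion fun w _ => ?_
  exact measurableSet_eq_fun (Finset.measurable_fun_sum _ fun i _ => measurable_pi_apply i)
    (measurable_Mx vis)

/-- `exp (λ max)` -/
noncomputable def Fx (lam : ℝ) (vis : W → Finset ι) (η : ι → ℝ) : ℝ := Real.exp (lam * Mx vis η)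

lemma measurable_Fx (lam : ℝ) (vis : W → Finset ι) : Measurable (Fx lam vis) :=
  Real.measurable_exp.comp ((measurable_Mx vis).const_mul lam)

lemma Fx_pos (lam : ℝ) (vis : W → Finset ι) (η : ι → ℝ) : 0 < Fx lam vis η := Real.exp_pos _

lemma norm_Fx (lam : ℝ) (vis : W → Finset ι) (η : ι → ℝ) : ‖Fx lam vis η‖ = Fx lam vis η :=
  Real.norm_of_nonneg (Fx_pos lam vis η).le

lemma upd_le {η : ι → ℝ} {s : ι} {v u : ℝ} (h : v ≤ u) (i : ι) :
    Function.update η s v i ≤ Function.update η s u i := by
  by_cases hi : i = s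
  · subst hi; simpa using h
  · simp [Function.update_of_ne hi]

/-- the key inequality -/
lemma key0 {lam : ℝ} (hl : 0 ≤ lam) (vis : W → Finset ι) {a b : ℝ} (η : ι → ℝ)
    (s : ι) {v w u : ℝ} (hbu : b ≤ u) (hvw : v ≤ w) (hwu : w ≤ u) :
    lam * (b - a) * (hv vis a s (Function.update η s w) * Fx lam vis (Function.update η s w)) ≤
      Fx lam vis (Function.update η s u) - Fx lam vis (Function.update η s v) := by
  have m1 : Mx vis (Function.update η s v) ≤ Mx vis (Function.update η s w) :=
    Mx_mono vis (upd_le hvw)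
  have m2 : Mx vis (Function.update η s w) ≤ Mx vis (Function.update η s u) :=
    Mx_mono vis (upd_le hwu)
  have f1 : Fx lam vis (Function.update η s v) ≤ Fx lam vis (Function.update η s w) :=
    Real.exp_le_exp.2 (mul_le_mul_of_nonneg_left m1 hl)
  have f2 : Fx lam vis (Function.update η s w) ≤ Fx lam vis (Function.update η s u) :=
    Real.exp_le_exp.2 (mul_le_mul_of_nonneg_left m2 hl)
  by_cases h : Function.update η s w ∈
      {η : ι → ℝ | η s ≤ a ∧ ∃ w, s ∈ vis w ∧ ∑ i ∈ vis w, η i = Mx vis η}
  · unfold hv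
    rw [Set.indicator_of_mem h, one_mul]
    obtain ⟨h1, p, hp, hopt⟩ := h
    rw [Function.update_self] at h1
    have m3 : Mx vis (Function.update η s w) + (b - a) ≤ Mx vis (Function.update η s u) := by
      have e1 : ∑ i ∈ vis p, Function.update η s u i =
          ∑ i ∈ vis p, Function.update η s w i + (u - w) := by
        rw [← Finset.add_sum_erase _ _ hp, ← Finset.add_sum_erase (vis p) _ hp,
          Function.update_self, Function.update_self]
        have : ∑ i ∈ (vis p).erase s, Function.update η s u i =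
            ∑ i ∈ (vis p).erase s, Function.update η s w i := by
          apply Finset.sum_congr rfl
          intro i hi
          rw [Function.update_of_ne (Finset.ne_of_mem_erase hi),
            Function.update_of_ne (Finset.ne_of_mem_erase hi)]
        rw [this]
        ring
      have e2 := le_Mx vis (Function.update η s u) p
      rw [e1, hopt] at e2
      linarith
    have f3 : Fx lam vis (Function.update η s w) * (1 + lam * (b - a)) ≤
        Fx lam vis (Function.update η s u) := by
      have g1 := Real.add_one_le_exp (lam * (b - a))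
      calc Fx lam vis (Function.update η s w) * (1 + lam * (b - a)) ≤
          Fx lam vis (Function.update η s w) * Real.exp (lam * (b - a)) :=
            mul_le_mul_of_nonneg_left (by linarith) (Real.exp_pos _).le
        _ = Real.exp (lam * (Mx vis (Function.update η s w) + (b - a))) := by
            unfold Fx
            rw [← Real.exp_add]
            congr 1
            ring
        _ ≤ _ := Real.exp_le_exp.2 (mul_le_mul_of_nonneg_left m3 hl)
    linarith
  · unfold hv
    rw [Set.indicator_of_notMem h, zero_mul, mul_zero]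
    linarith

section site

variable (μ : Measure ℝ) [IsProbabilityMeasure μ] (hneg : ∀ᵐ u ∂μ, u ≤ 0) {a b : ℝ} (hab : a < b)
  (hp : 0 < μ.real (Set.Ici b)) (hm : 0 < μ.real (Set.Iic a)) {lam : ℝ} (hlam : 0 ≤ lam)
  (vis : W → Finset ι) (T : Finset ι)

include hneg in
lemma ae_neg : ∀ᵐ η ∂(Measure.pi fun _ : ι => μ), ∀ i, η i ≤ 0 := by
  rw [ae_all_iff]
  intro i
  exact (measurePreserving_eval (fun _ : ι => μ) i).quasiMeasurePreserving.ae hneg

include hneg hlam in
lemma ae_le_one : ∀ᵐ η ∂(Measure.pi fun _ : ι => μ), Fx lam vis η ≤ 1 := by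
  filter_upwards [ae_neg (ι := ι) μ hneg] with η hη
  unfold Fx
  rw [Real.exp_le_one_iff]
  exact mul_nonpos_of_nonneg_of_nonpos hlam (Mx_le fun w => Finset.sum_nonpos fun i _ => hη i)

include hneg hlam in
lemma int_Fx : Integrable (Fx lam vis) (Measure.pi fun _ : ι => μ) := by
  refine Integrable.mono' (integrable_const (1 : ℝ)) (measurable_Fx lam vis).aestronglyMeasurable ?_
  filter_upwards [ae_le_one μ hneg hlam vis] with η hη
  rw [norm_Fx]
  exact hη

include hneg hlam in
lemma int_Fx_upd (η : ι → ℝ) (s : ι) :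
    Integrable (fun u => Fx lam vis (Function.update η s u)) μ := by
  refine Integrable.mono' (integrable_const (Fx lam vis (Function.update η s 0)))
    ((measurable_Fx lam vis).comp (measurable_update η)).aestronglyMeasurable ?_
  filter_upwards [hneg] with u hu
  rw [norm_Fx]
  exact Real.exp_le_exp.2 (mul_le_mul_of_nonneg_left (Mx_mono vis (upd_le hu)) hlam)

include hneg hab hp hm hlam in
/-- the integrated one-site inequality -/
lemma site0 {l : ℝ} (hl0 : 0 ≤ l) (hl : l ≤ μ.real (Set.Iic a)) {s : ι} (hs : s ∈ T) :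
    ∫ η, lam * (b - a) * (hv vis a s η * dens μ a b l T η * Fx lam vis η)
        ∂(Measure.pi fun _ : ι => μ) ≤
      ∫ η, (score μ a b (η s) * dens μ a b l (T.erase s) η) * Fx lam vis η
        ∂(Measure.pi fun _ : ι => μ) := by
  set K := 1 / μ.real (Set.Ici b) + 1 / μ.real (Set.Iic a) with hK
  have hF := int_Fx μ hneg hlam vis
  have hmd : ∀ T' : Finset ι, Measurable (dens μ a b l T') := fun T' => measurable_dens μ a b l T'
  have hms : Measurable (fun η : ι → ℝ => score μ a b (η s)) :=
    (measurable_score μ a b).comp (measurable_pi_apply s)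
  have hG1 : Integrable (fun η => lam * (b - a) * (hv vis a s η * dens μ a b l T η *
        Fx lam vis η)) (Measure.pi fun _ : ι => μ) := by
    apply Integrable.const_mul
    refine hF.bdd_mul (c := 1 * (1 + |l| * K) ^ T.card)
      ((measurable_hv vis a s).mul (hmd T)).aestronglyMeasurable ?_
    refine Filter.Eventually.of_forall fun η => ?_
    rw [norm_mul, Real.norm_of_nonneg (hv_nonneg vis a s η)]
    exact mul_le_mul (hv_le_one vis a s η) (abs_dens_le μ a b l T η le_rfl) (abs_nonneg _)
      zero_le_one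
  have hG2 : Integrable (fun η : ι → ℝ => (score μ a b (η s) * dens μ a b l (T.erase s) η) *
      Fx lam vis η) (Measure.pi fun _ : ι => μ) := by
    refine hF.bdd_mul (c := K * (1 + |l| * K) ^ (T.erase s).card)
      (hms.mul (hmd _)).aestronglyMeasurable ?_
    refine Filter.Eventually.of_forall fun η => ?_
    rw [norm_mul]
    exact mul_le_mul (abs_score_le μ a b _) (abs_dens_le μ a b l _ η le_rfl) (abs_nonneg _)
      (by positivity)
  obtain ⟨i1, e1⟩ := resample μ s hG1
  obtain ⟨i2, e2⟩ := resample μ s hG2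
  rw [e1, e2]
  apply integral_mono i1.integral_prod_left i2.integral_prod_left
  intro η
  show ∫ u, lam * (b - a) * (hv vis a s (Function.update η s u) *
      dens μ a b l T (Function.update η s u) * Fx lam vis (Function.update η s u)) ∂μ ≤
    ∫ u, (score μ a b (Function.update η s u s) *
      dens μ a b l (T.erase s) (Function.update η s u)) * Fx lam vis (Function.update η s u) ∂μ
  set De := dens μ a b l (T.erase s) η with hDe
  have hDe0 : 0 ≤ De := dens_nonneg μ hm hl0 hl _ _
  set Fu : ℝ → ℝ := fun u => Fx lam vis (Function.update η s u) with hFu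
  set hu : ℝ → ℝ := fun u => lam * (b - a) * (hv vis a s (Function.update η s u) *
    Fx lam vis (Function.update η s u)) with hhu
  have r1 : ∀ u, lam * (b - a) * (hv vis a s (Function.update η s u) *
      dens μ a b l T (Function.update η s u) * Fx lam vis (Function.update η s u)) =
      De * (hu u * (1 + l * score μ a b u)) := by
    intro u
    rw [dens_erase μ a b l hs, dens_update_erase, Function.update_self]
    simp only [hhu]
    ring
  have r2 : ∀ u, (score μ a b (Function.update η s u s) *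
      dens μ a b l (T.erase s) (Function.update η s u)) *
      Fx lam vis (Function.update η s u) = De * (Fu u * score μ a b u) := by
    intro u
    rw [dens_update_erase, Function.update_self]
    simp only [hFu]
    ring
  simp_rw [r1, r2]
  rw [integral_const_mul, integral_const_mul]
  apply mul_le_mul_of_nonneg_left _ hDe0
  have iF : Integrable Fu μ := int_Fx_upd μ hneg hlam vis η s
  have ih : Integrable hu μ := by
    apply Integrable.const_mul
    refine iF.bdd_mul (c := 1) ((measurable_hv vis a s).comp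
      (measurable_update η)).aestronglyMeasurable ?_
    refine Filter.Eventually.of_forall fun u => ?_
    rw [Real.norm_of_nonneg (hv_nonneg vis a s _)]
    exact hv_le_one vis a s _
  apply one_site_w μ hab hp hm iF ih hl0 hl
  intro v w u _ hbu hvw hwu
  exact key0 hlam vis η s hbu hvw hwu

variable {m : ℝ} (hm0 : 0 ≤ m) {G : Set (ι → ℝ)} (hGm : MeasurableSet G)
  (hG : ∀ η ∈ G, m ≤ ∑ s ∈ T, hv vis a s η)

include hneg hab hp hm hlam hm0 hGm hG in
lemma growth0 {l0 E : ℝ} (h0 : 0 ≤ l0) (hl0 : l0 ≤ μ.real (Set.Iic a))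
    (hE : ∀ l, 0 ≤ l → l ≤ l0 →
      ∫ η in Gᶜ, dens μ a b l T η * Fx lam vis η ∂(Measure.pi fun _ : ι => μ) ≤ E) :
    Real.exp (lam * (b - a) * m * l0) * (∫ η, Fx lam vis η ∂(Measure.pi fun _ : ι => μ) - E) ≤
      ∫ η, dens μ a b l0 T η * Fx lam vis η ∂(Measure.pi fun _ : ι => μ) - E := by
  set κ := lam * (b - a) with hκ
  have hκ0 : 0 ≤ κ := mul_nonneg hlam (by linarith)
  set π := Measure.pi fun _ : ι => μ with hπ
  set A : ℝ → ℝ := fun l => ∫ η, dens μ a b l T η * Fx lam vis η ∂π with hA
  have hF : Integrable (Fx lam vis) π := int_Fx μ hneg hlam vis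
  have hdF : ∀ l, Integrable (fun η => dens μ a b l T η * Fx lam vis η) π := by
    intro l
    refine hF.bdd_mul (c := (1 + |l| * (1 / μ.real (Set.Ici b) + 1 / μ.real (Set.Iic a))) ^ T.card)
      (measurable_dens μ a b l T).aestronglyMeasurable ?_
    exact Filter.Eventually.of_forall fun η => abs_dens_le μ a b l T η le_rfl
  have hder : ∀ l, HasDerivAt A (∑ s ∈ T, ∫ η, (score μ a b (η s) * dens μ a b l (T.erase s) η) *
      Fx lam vis η ∂π) l := fun l => hasDerivAt_tilt μ a b T hF l
  have hineq : ∀ l, 0 ≤ l → l ≤ l0 → κ * m * (A l - E) ≤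
      ∑ s ∈ T, ∫ η, (score μ a b (η s) * dens μ a b l (T.erase s) η) * Fx lam vis η ∂π := by
    intro l h1 h2
    have h2' : l ≤ μ.real (Set.Iic a) := h2.trans hl0
    have hint : ∀ s ∈ T, Integrable (fun η => κ * (hv vis a s η * dens μ a b l T η *
        Fx lam vis η)) π := by
      intro s _
      apply Integrable.const_mul
      refine hF.bdd_mul (c := 1 * (1 + |l| * (1 / μ.real (Set.Ici b) + 1 / μ.real (Set.Iic a))) ^
        T.card) ((measurable_hv vis a s).mul (measurable_dens μ a b l T)).aestronglyMeasurable ?_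
      refine Filter.Eventually.of_forall fun η => ?_
      rw [norm_mul, Real.norm_of_nonneg (hv_nonneg vis a s η)]
      exact mul_le_mul (hv_le_one vis a s η) (abs_dens_le μ a b l T η le_rfl) (abs_nonneg _)
        zero_le_one
    refine le_trans ?_ (Finset.sum_le_sum fun s hs =>
      site0 μ hneg hab hp hm hlam vis T h1 h2' hs)
    rw [← integral_finsetSum _ hint]
    have hsum : ∀ η, ∑ s ∈ T, κ * (hv vis a s η * dens μ a b l T η * Fx lam vis η) =
        κ * ((∑ s ∈ T, hv vis a s η) * (dens μ a b l T η * Fx lam vis η)) := by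
      intro η
      rw [← Finset.mul_sum, Finset.sum_mul]
      congr 1
      exact Finset.sum_congr rfl fun s _ => by ring
    simp_rw [hsum]
    rw [integral_const_mul, mul_assoc]
    apply mul_le_mul_of_nonneg_left _ hκ0
    have hd0 : ∀ η, 0 ≤ dens μ a b l T η * Fx lam vis η := fun η =>
      mul_nonneg (dens_nonneg μ hm h1 h2' T η) (Real.exp_pos _).le
    have hi3 : Integrable (fun η => (∑ s ∈ T, hv vis a s η) *
        (dens μ a b l T η * Fx lam vis η)) π := by
      refine (hdF l).bdd_mul (c := (T.card : ℝ)) (Finset.measurable_fun_sum _ fun s _ =>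
        measurable_hv vis a s).aestronglyMeasurable ?_
      refine Filter.Eventually.of_forall fun η => ?_
      rw [Real.norm_of_nonneg (Finset.sum_nonneg fun s _ => hv_nonneg vis a s η)]
      calc ∑ s ∈ T, hv vis a s η ≤ ∑ _s ∈ T, (1 : ℝ) :=
            Finset.sum_le_sum fun s _ => hv_le_one vis a s η
        _ = T.card := by simp
    have e1 : A l = ∫ η in G, dens μ a b l T η * Fx lam vis η ∂π +
        ∫ η in Gᶜ, dens μ a b l T η * Fx lam vis η ∂π := (integral_add_compl hGm (hdF l)).symm
    have e2 : ∫ η in G, m * (dens μ a b l T η * Fx lam vis η) ∂π ≤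
        ∫ η in G, (∑ s ∈ T, hv vis a s η) * (dens μ a b l T η * Fx lam vis η) ∂π := by
      refine setIntegral_mono_on ((hdF l).const_mul m).integrableOn hi3.integrableOn hGm ?_
      intro η hη
      exact mul_le_mul_of_nonneg_right (hG η hη) (hd0 η)
    have e3 : ∫ η in G, (∑ s ∈ T, hv vis a s η) * (dens μ a b l T η * Fx lam vis η) ∂π ≤
        ∫ η, (∑ s ∈ T, hv vis a s η) * (dens μ a b l T η * Fx lam vis η) ∂π := by
      refine setIntegral_le_integral hi3 (Filter.Eventually.of_forall fun η => ?_)
      exact mul_nonneg (Finset.sum_nonneg fun s _ => hv_nonneg vis a s η) (hd0 η)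
    rw [integral_const_mul] at e2
    refine le_trans ?_ (e2.trans e3)
    apply mul_le_mul_of_nonneg_left _ hm0
    have := hE l h1 h2
    linarith
  have hd2 : ∀ l, HasDerivAt (fun l => Real.exp (-(κ * m * l)) * (A l - E))
      (Real.exp (-(κ * m * l)) * (-(κ * m)) * (A l - E) + Real.exp (-(κ * m * l)) *
        (∑ s ∈ T, ∫ η, (score μ a b (η s) * dens μ a b l (T.erase s) η) *
      Fx lam vis η ∂π)) l := by
    intro l
    have h1 : HasDerivAt (fun l => -(κ * m * l)) (-(κ * m)) l := by
      have := (hasDerivAt_id l).const_mul (-(κ * m))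
      simpa [neg_mul] using this
    exact h1.exp.mul ((hder l).sub_const E)
  have hmono : MonotoneOn (fun l => Real.exp (-(κ * m * l)) * (A l - E)) (Set.Icc 0 l0) := by
    apply monotoneOn_of_deriv_nonneg (convex_Icc 0 l0)
    · exact fun x _ => (hd2 x).continuousAt.continuousWithinAt
    · exact fun x _ => (hd2 x).differentiableAt.differentiableWithinAt
    · intro x hx
      rw [interior_Icc] at hx
      rw [(hd2 x).deriv]
      have h1 := hineq x hx.1.le hx.2.le
      have h2 := Real.exp_pos (-(κ * m * x))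
      nlinarith
  have h1 := hmono (Set.left_mem_Icc.2 h0) (Set.right_mem_Icc.2 h0) h0
  simp only [mul_zero, neg_zero, Real.exp_zero, one_mul] at h1
  have e0 : A 0 = ∫ η, Fx lam vis η ∂π := by
    simp only [hA]
    congr 1
    funext η
    unfold dens
    simp
  rw [e0] at h1
  calc Real.exp (κ * m * l0) * (∫ η, Fx lam vis η ∂π - E) ≤
      Real.exp (κ * m * l0) * (Real.exp (-(κ * m * l0)) * (A l0 - E)) :=
        mul_le_mul_of_nonneg_left h1 (Real.exp_pos _).le
    _ = A l0 - E := by
        rw [← mul_assoc, ← Real.exp_add, add_neg_cancel, Real.exp_zero, one_mul]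

include hneg hab hp hm hlam hGm in
/-- the exceptional set -/
lemma exc0 {l : ℝ} (h0 : 0 ≤ l) (hl : l ≤ μ.real (Set.Iic a)) :
    ∫ η in Gᶜ, dens μ a b l T η * Fx lam vis η ∂(Measure.pi fun _ : ι => μ) ≤
      Real.sqrt ((Measure.pi fun _ : ι => μ).real Gᶜ *
        Real.exp (l ^ 2 * (1 / μ.real (Set.Ici b) + 1 / μ.real (Set.Iic a)) * T.card)) := by
  set π := Measure.pi fun _ : ι => μ with hπ
  set K := 1 / μ.real (Set.Ici b) + 1 / μ.real (Set.Iic a) with hK
  have hF : Integrable (Fx lam vis) π := int_Fx μ hneg hlam vis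
  have hd0 : ∀ η, 0 ≤ dens μ a b l T η := fun η => dens_nonneg μ hm h0 hl T η
  have hdi : Integrable (dens μ a b l T) π := by
    refine Integrable.mono' (integrable_const ((1 + |l| * K) ^ T.card))
      (measurable_dens μ a b l T).aestronglyMeasurable ?_
    exact Filter.Eventually.of_forall fun η => abs_dens_le μ a b l T η le_rfl
  have hdF : Integrable (fun η => dens μ a b l T η * Fx lam vis η) π := by
    refine hF.bdd_mul (c := (1 + |l| * K) ^ T.card)
      (measurable_dens μ a b l T).aestronglyMeasurable ?_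
    exact Filter.Eventually.of_forall fun η => abs_dens_le μ a b l T η le_rfl
  have s1 : ∫ η in Gᶜ, dens μ a b l T η * Fx lam vis η ∂π ≤ ∫ η in Gᶜ, dens μ a b l T η ∂π := by
    refine setIntegral_mono_ae hdF.integrableOn hdi.integrableOn ?_
    filter_upwards [ae_le_one μ hneg hlam vis] with η hη
    calc dens μ a b l T η * Fx lam vis η ≤ dens μ a b l T η * 1 :=
          mul_le_mul_of_nonneg_left hη (hd0 η)
      _ = _ := mul_one _
  refine s1.trans ?_
  rw [← integral_indicator hGm.compl]
  have e1 : ∀ η, Gᶜ.indicator (dens μ a b l T) η =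
      Gᶜ.indicator (fun _ => (1 : ℝ)) η * dens μ a b l T η := by
    intro η
    by_cases h : η ∈ Gᶜ
    · rw [Set.indicator_of_mem h, Set.indicator_of_mem h, one_mul]
    · rw [Set.indicator_of_notMem h, Set.indicator_of_notMem h, zero_mul]
  simp_rw [e1]
  have hd2 : MemLp (dens μ a b l T) 2 π :=
    MemLp.of_bound (measurable_dens μ a b l T).aestronglyMeasurable _
      (Filter.Eventually.of_forall fun η => abs_dens_le μ a b l T η le_rfl)
  have hi2 : MemLp (Gᶜ.indicator (fun _ => (1 : ℝ))) 2 π :=
    MemLp.of_bound (measurable_const.indicator hGm.compl).aestronglyMeasurable 1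
      (Filter.Eventually.of_forall fun η => by
        rw [Real.norm_of_nonneg (Set.indicator_nonneg (fun _ _ => zero_le_one) _)]
        exact Set.indicator_le_self' (fun _ _ => zero_le_one) _)
  have hcs := integral_mul_le_Lp_mul_Lq_of_nonneg (μ := π) (p := 2) (q := 2)
    Real.HolderConjugate.two_two (f := Gᶜ.indicator (fun _ => (1 : ℝ))) (g := dens μ a b l T)
    (Filter.Eventually.of_forall fun η => Set.indicator_nonneg (fun _ _ => zero_le_one) _)
    (Filter.Eventually.of_forall hd0) (by simpa using hi2) (by simpa using hd2)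
  refine hcs.trans ?_
  have e2 : ∫ η, Gᶜ.indicator (fun _ => (1 : ℝ)) η ^ (2 : ℝ) ∂π = π.real Gᶜ := by
    have : ∀ η, Gᶜ.indicator (fun _ => (1 : ℝ)) η ^ (2 : ℝ) = Gᶜ.indicator (fun _ => (1 : ℝ)) η := by
      intro η
      by_cases h : η ∈ Gᶜ
      · rw [Set.indicator_of_mem h]; simp
      · rw [Set.indicator_of_notMem h]; simp
    simp_rw [this]
    rw [integral_indicator hGm.compl]
    simp
  rw [e2]
  simp only [Real.rpow_two]
  rw [← Real.sqrt_eq_rpow, ← Real.sqrt_eq_rpow, ← Real.sqrt_mul measureReal_nonneg]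
  apply Real.sqrt_le_sqrt
  exact mul_le_mul_of_nonneg_left (integral_dens_sq μ hab hp hm T l) measureReal_nonneg

include hneg hab hp hm hlam hm0 hGm hG in
/-- strong log-convexity at temperature zero -/
theorem gain0 (hκ : lam * (b - a) ≤ 1) (hmT : m ≤ T.card)
    (hq : Real.sqrt ((Measure.pi fun _ : ι => μ).real Gᶜ *
        Real.exp ((lam * (b - a)) ^ 2 * m ^ 2 /
          ((1 / μ.real (Set.Ici b) + 1 / μ.real (Set.Iic a)) * T.card))) ≤
      (∫ η, Fx lam vis η ∂(Measure.pi fun _ : ι => μ)) / 2) :
    Real.exp ((lam * (b - a)) ^ 2 * m ^ 2 /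
      ((1 / μ.real (Set.Ici b) + 1 / μ.real (Set.Iic a)) * T.card)) *
      ((∫ η, Fx lam vis η ∂(Measure.pi fun _ : ι => μ)) / 2) ^ 2 ≤
      ∫ η, Fx lam vis η ^ 2 ∂(Measure.pi fun _ : ι => μ) := by
  set π := Measure.pi fun _ : ι => μ with hπ
  set κ := lam * (b - a) with hκd
  have hκ0 : 0 ≤ κ := mul_nonneg hlam (by linarith)
  set K := 1 / μ.real (Set.Ici b) + 1 / μ.real (Set.Iic a) with hK
  have hKpos : 0 < K := by positivity
  set l0 := κ * m / (K * T.card) with hl0
  have hl00 : 0 ≤ l0 := by positivity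
  have hl01 : l0 ≤ μ.real (Set.Iic a) := by
    rcases Nat.eq_zero_or_pos T.card with h | h
    · rw [hl0, h]; simp
    · have hT : (0 : ℝ) < T.card := by exact_mod_cast h
      rw [hl0, div_le_iff₀ (by positivity)]
      have h1 : 1 ≤ μ.real (Set.Iic a) * K := by
        rw [hK, mul_add, mul_one_div, mul_one_div, div_self hm.ne']
        have : 0 ≤ μ.real (Set.Iic a) / μ.real (Set.Ici b) := by positivity
        linarith
      calc κ * m ≤ 1 * T.card := mul_le_mul hκ hmT hm0 (by norm_num)
        _ ≤ (μ.real (Set.Iic a) * K) * T.card := mul_le_mul_of_nonneg_right h1 hT.le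
        _ = _ := by ring
  have e3 : l0 ^ 2 * K * T.card = κ ^ 2 * m ^ 2 / (K * T.card) := by
    rcases Nat.eq_zero_or_pos T.card with h | h
    · rw [hl0, h]; simp
    · have hT : (0 : ℝ) < T.card := by exact_mod_cast h
      rw [hl0]
      field_simp
  have e4 : κ * m * l0 = κ ^ 2 * m ^ 2 / (K * T.card) := by
    rw [hl0]
    ring
  set g := κ ^ 2 * m ^ 2 / (K * T.card) with hg
  have hgr := growth0 μ hneg hab hp hm hlam vis T hm0 hGm hG (l0 := l0)
    (E := Real.sqrt (π.real Gᶜ * Real.exp g)) hl00 hl01 (by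
      intro l h1 h2
      refine (exc0 μ hneg hab hp hm hlam vis T hGm h1 (h2.trans hl01)).trans ?_
      apply Real.sqrt_le_sqrt
      apply mul_le_mul_of_nonneg_left _ measureReal_nonneg
      apply Real.exp_le_exp.2
      rw [← e3, ← hK]
      have : l ^ 2 ≤ l0 ^ 2 := pow_le_pow_left₀ h1 h2 2
      gcongr)
  rw [← hπ, ← hκd, e4] at hgr
  set I := ∫ η, Fx lam vis η ∂π with hI
  set E := Real.sqrt (π.real Gᶜ * Real.exp g) with hEd
  have hE0 : 0 ≤ E := Real.sqrt_nonneg _
  have hI0 : 0 ≤ I := integral_nonneg fun η => (Real.exp_pos _).le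
  have h1 : Real.exp g * (I / 2) ≤ ∫ η, dens μ a b l0 T η * Fx lam vis η ∂π := by
    have : Real.exp g * (I / 2) ≤ Real.exp g * (I - E) :=
      mul_le_mul_of_nonneg_left (by linarith) (Real.exp_pos _).le
    linarith
  have hd2 : MemLp (dens μ a b l0 T) 2 π :=
    MemLp.of_bound (measurable_dens μ a b l0 T).aestronglyMeasurable _
      (Filter.Eventually.of_forall fun η => abs_dens_le μ a b l0 T η le_rfl)
  have hz2 : MemLp (Fx lam vis) 2 π := by
    refine MemLp.of_bound (measurable_Fx lam vis).aestronglyMeasurable 1 ?_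
    filter_upwards [ae_le_one μ hneg hlam vis] with η hη
    rw [norm_Fx]
    exact hη
  have hcs := integral_mul_le_Lp_mul_Lq_of_nonneg (μ := π) (p := 2) (q := 2)
    Real.HolderConjugate.two_two (f := dens μ a b l0 T) (g := Fx lam vis)
    (Filter.Eventually.of_forall fun η => dens_nonneg μ hm hl00 hl01 T η)
    (Filter.Eventually.of_forall fun η => (Real.exp_pos _).le)
    (by simpa using hd2) (by simpa using hz2)
  simp only [Real.rpow_two] at hcs
  have hA0 : 0 ≤ ∫ η, dens μ a b l0 T η ^ 2 ∂π := integral_nonneg fun η => sq_nonneg _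
  have hB0 : 0 ≤ ∫ η, Fx lam vis η ^ 2 ∂π := integral_nonneg fun η => sq_nonneg _
  have h2 : (Real.exp g * (I / 2)) ^ 2 ≤
      (∫ η, dens μ a b l0 T η ^ 2 ∂π) * ∫ η, Fx lam vis η ^ 2 ∂π := by
    have h3 := pow_le_pow_left₀ (by positivity) (h1.trans hcs) 2
    refine h3.trans (le_of_eq ?_)
    rw [mul_pow, ← Real.rpow_natCast, ← Real.rpow_natCast, ← Real.rpow_mul hA0,
      ← Real.rpow_mul hB0]
    norm_num
  have h4 := integral_dens_sq μ hab hp hm T l0
  rw [← hπ, ← hK, e3] at h4
  have h5 : Real.exp g * (Real.exp g * (I / 2) ^ 2) ≤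
      Real.exp g * ∫ η, Fx lam vis η ^ 2 ∂π := by
    calc Real.exp g * (Real.exp g * (I / 2) ^ 2) = (Real.exp g * (I / 2)) ^ 2 := by ring
      _ ≤ _ := h2
      _ ≤ _ := mul_le_mul_of_nonneg_right h4 hB0
  exact le_of_mul_le_mul_left h5 (Real.exp_pos _)

end site

end U874.FL
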