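import Pool.Agent.U874.FL.Pei
import Pool.Agent.U874.FL.Gain0

/-!
# Strong log-convexity of the restricted Laplace transforms
-/

set_option autoImplicit false
set_option linter.unusedSectionVars false
open MeasureTheory ProbabilityTheory Filter Set
open scoped ENNReal Topology

namespace U874.FL

open Pool.Agent.N662.FP
open Pool.Agent.U874.FP
open Pool.Agent.N896.FM (stp exists_stp)

/-- the law of the opposite of an exponential variable -/
noncomputable def nexp : Measure ℝ := (expMeasure 1).map (fun x => -x)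

instance nexp_prob : IsProbabilityMeasure nexp := by
  have := haspos
  exact Measure.isProbabilityMeasure_map measurable_neg.aemeasurable

theorem exp_Iic {x : ℝ} (hx : 0 ≤ x) : (expMeasure 1).real (Set.Iic x) = 1 - Real.exp (-x) := by
  have := haspos
  rw [← cdf_eq_real, cdf_expMeasure_eq one_pos, if_pos hx, one_mul]

theorem nexp_real {s : Set ℝ} (hs : MeasurableSet s) :
    nexp.real s = (expMeasure 1).real ((fun x : ℝ => -x) ⁻¹' s) := by
  unfold nexp Measure.real
  rw [Measure.map_apply measurable_neg hs]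

theorem nexp_Ici {x : ℝ} (hx : 0 < x) : 0 < nexp.real (Set.Ici (-x)) := by
  rw [nexp_real measurableSet_Ici]
  have e : (fun y : ℝ => -y) ⁻¹' Set.Ici (-x) = Set.Iic x := by
    ext y
    simp
  rw [e, exp_Iic hx.le]
  have : Real.exp (-x) < 1 := by
    rw [← Real.exp_zero]
    exact Real.exp_lt_exp.2 (by linarith)
  linarith

theorem nexp_Iic {x : ℝ} (hx : 0 ≤ x) : 0 < nexp.real (Set.Iic (-x)) := by
  have := haspos
  rw [nexp_real measurableSet_Iic]
  have e : (Set.Iic x)ᶜ ⊆ (fun y : ℝ => -y) ⁻¹' Set.Iic (-x) := by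
    intro y hy
    have : x < y := not_le.1 hy
    show -y ≤ -x
    linarith
  refine lt_of_lt_of_le ?_ (measureReal_mono e)
  rw [probReal_compl_eq_one_sub measurableSet_Iic, exp_Iic hx]
  have := Real.exp_pos (-x)
  linarith

theorem nexp_Ioi {x : ℝ} (hx : 0 ≤ x) : nexp.real (Set.Ioi (-x)) ≤ x := by
  have := haspos
  rw [nexp_real measurableSet_Ioi]
  have e : (fun y : ℝ => -y) ⁻¹' Set.Ioi (-x) ⊆ Set.Iic x := by
    intro y hy
    have : -x < -y := hy
    show y ≤ x
    linarith
  refine (measureReal_mono e).trans ?_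
  rw [exp_Iic hx]
  have := Real.one_sub_le_exp_neg x
  linarith

theorem nexp_neg : ∀ᵐ u ∂nexp, u ≤ 0 := by
  have h := nexp_Ioi (x := 0) le_rfl
  rw [neg_zero] at h
  have h1 : nexp (Set.Ioi 0) = 0 := by
    have h2 : nexp.real (Set.Ioi 0) = 0 := le_antisymm h measureReal_nonneg
    exact (measureReal_eq_zero_iff (measure_ne_top _ _)).1 h2
  rw [ae_iff]
  have e : {a : ℝ | ¬a ≤ 0} = Set.Ioi 0 := by
    ext a
    simp
  rw [e]
  exact h1

/-- the edges at the points of `S` -/
def Fd (S : Finset V) : Finset (Sym2 V) :=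
  (S ×ˢ (Finset.univ : Finset (Fin 4))).image fun p => s(p.1, p.1 + stp p.2)

theorem Fd_card (S : Finset V) : (Fd S).card ≤ 4 * S.card := by
  refine Finset.card_image_le.trans ?_
  rw [Finset.card_product, Finset.card_univ, Fintype.card_fin, mul_comm]

theorem mem_Fd {S : Finset V} {v : V} : ∀ {l : List V}, Pa v l → (∀ y ∈ l, y ∈ S) →
    ∀ e ∈ edg l, e ∈ Fd S
  | [], _, _, e, h => by simp [edg] at h
  | [_], _, _, e, h => by simp [edg] at h
  | a :: b :: l, h, hS, e, he => by
    simp only [edg, List.mem_cons] at he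
    rcases he with he | he
    · obtain ⟨k, hk⟩ := exists_stp (b.1 - a.1) (b.2 - a.2) h.1
      have hb : a + stp k = b := by
        rw [hk]
        ext <;> simp
      rw [he, ← hb]
      exact Finset.mem_image.2 ⟨(a, k), Finset.mem_product.2
        ⟨hS a List.mem_cons_self, Finset.mem_univ _⟩, rfl⟩
    · exact mem_Fd h.2 (fun y hy => hS y (List.mem_cons_of_mem _ hy)) e he

theorem len_ge {v : V} : ∀ (l : List V) (a : V), Pa v (a :: l) →
    max |v.1 - a.1| |v.2 - a.2| ≤ l.length
  | [], a, h => by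
    have h' : a = v := h
    simp [h']
  | b :: l, a, h => by
    have h1 := len_ge l b h.2
    have h2 : |b.1 - a.1| + |b.2 - a.2| = 1 := h.1
    have h3 := abs_nonneg (b.1 - a.1)
    have h4 := abs_nonneg (b.2 - a.2)
    have h5 : |v.1 - a.1| ≤ |v.1 - b.1| + |b.1 - a.1| := by
      have := abs_add_le (v.1 - b.1) (b.1 - a.1)
      rwa [sub_add_sub_cancel] at this
    have h6 : |v.2 - a.2| ≤ |v.2 - b.2| + |b.2 - a.2| := by
      have := abs_add_le (v.2 - b.2) (b.2 - a.2)
      rwa [sub_add_sub_cancel] at this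
    have h7 := (le_max_left _ _).trans h1
    have h8 := (le_max_right _ _).trans h1
    rw [List.length_cons]
    push_cast
    refine max_le ?_ ?_ <;> omega

/-- the simple paths from `0` to `z` inside of `S` -/
abbrev Tp (S : Finset V) (z : V) : Type :=
  {l : List V // Pa z (0 :: l) ∧ ((0 : V) :: l).Nodup ∧ ∀ y ∈ (0 : V) :: l, y ∈ S}

theorem Tp_fin (S : Finset V) (z : V) : Finite (Tp S z) := by
  have h : {l : List V | Pa z (0 :: l) ∧ ((0 : V) :: l).Nodup ∧
      ∀ y ∈ (0 : V) :: l, y ∈ S}.Finite := by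
    have h1 : {l : List S | l.length ≤ S.card}.Finite := List.finite_length_le S S.card
    refine (h1.image (List.map Subtype.val)).subset ?_
    rintro l ⟨_, h2, h3⟩
    have h4 : ∀ y ∈ l, y ∈ S := fun y hy => h3 y (List.mem_cons_of_mem _ hy)
    refine ⟨l.attach.map fun y => ⟨y.1, h4 y.1 y.2⟩, ?_, ?_⟩
    · rw [Set.mem_ofPred_eq, List.length_map, List.length_attach]
      have h5 : l.Nodup := (List.nodup_cons.1 h2).2
      rw [← List.toFinset_card_of_nodup h5]
      exact Finset.card_le_card fun y hy => h4 y (List.mem_toFinset.1 hy)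
    · rw [List.map_map]
      exact List.attach_map_subtype_val l
  exact h.to_subtype

theorem cost_ixs (F : Finset (Sym2 V)) {l : List V} (h : ∀ e ∈ edg l, e ∈ F)
    (hn : (edg l).Nodup) (x : Sym2 V → ℝ) : cost x l = ∑ e ∈ ixs F l, x e.1 := by
  have h1 : cost x l = ∑ e ∈ (edg l).toFinset, x e := by
    unfold cost
    rw [List.sum_toFinset _ hn]
  rw [h1]
  symm
  refine Finset.sum_bij (fun e _ => e.1) ?_ ?_ ?_ ?_
  · intro e he
    exact List.mem_toFinset.2 (Finset.mem_filter.1 he).2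
  · intro e _ e' _ h3
    exact Subtype.ext h3
  · intro e he
    have h3 := List.mem_toFinset.1 he
    exact ⟨⟨e, h e h3⟩, Finset.mem_filter.2 ⟨Finset.mem_univ _, h3⟩, rfl⟩
  · intro e _
    rfl

/-- the edges of the paths -/
def vs (S : Finset V) (z : V) (w : Tp S z) : Finset (Fd S) := ixs (Fd S) (0 :: w.1)

theorem Wt_eq {lam : ℝ} (hl : 0 ≤ lam) (S : Finset V) (z : V) [Fintype (Tp S z)]
    [Nonempty (Tp S z)] (x : Sym2 V → ℝ) :
    Wt lam S z 0 x = ENNReal.ofReal (Fx lam (vs S z) fun e => -(x e.1)) := by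
  have key : ∀ w : Tp S z, ex lam (cost x (0 :: w.1)) =
      ENNReal.ofReal (Real.exp (lam * ∑ e ∈ vs S z w, -(x e.1))) := by
    intro w
    rw [cost_ixs (Fd S) (mem_Fd w.2.1 w.2.2.2) (edg_nodup w.2.2.1)]
    unfold ex vs
    congr 2
    rw [Finset.sum_neg_distrib]
    ring
  refine le_antisymm (iSup₂_le fun l hl' => ?_) ?_
  · rw [key ⟨l, hl'⟩]
    refine ENNReal.ofReal_le_ofReal (Real.exp_le_exp.2 ?_)
    exact mul_le_mul_of_nonneg_left (le_Mx (vs S z) (fun e => -(x e.1)) ⟨l, hl'⟩) hl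
  · obtain ⟨w, hw⟩ := exists_Mx (vs S z) (fun e => -(x e.1))
    unfold Fx
    rw [← hw, ← key w]
    exact le_iSup₂_of_le (f := fun (l : List V) (_ : Pa z (0 :: l) ∧ ((0 : V) :: l).Nodup ∧
      ∀ y ∈ (0 : V) :: l, y ∈ (S : Set V)) => ex lam (cost x (0 :: l))) w.1 w.2 le_rfl

variable {Ω : Type} [MeasureSpace Ω] [IsProbabilityMeasure (volume : Measure Ω)]
  {X : Sym2 (ℤ × ℤ) → Ω → ℝ}

theorem law_neg (hX : Iid X) (F : Finset (Sym2 V)) :
    Measure.map (fun ω (e : F) => -(X e.1 ω)) (volume : Measure Ω) =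
      Measure.pi fun _ : F => nexp := by
  have := haspos
  have h1 := law_fin hX F
  have h2 : Measurable fun ω (e : F) => X e.1 ω := measurable_pi_lambda _ fun e => hX.meas _
  have h3 : (fun ω (e : F) => -(X e.1 ω)) =
    (fun (x : F → ℝ) e => -(x e)) ∘ (fun ω (e : F) => X e.1 ω) := rfl
  have h4 : Measurable fun (x : F → ℝ) e => -(x e) :=
    measurable_pi_lambda _ fun e => (measurable_pi_apply e).neg
  rw [h3, ← Measure.map_map h4 h2, h1]
  have h5 : IsProbabilityMeasure ((expMeasure 1).map fun x : ℝ => -x) := nexp_prob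
  exact Measure.pi_map_pi (μ := fun _ : F => expMeasure 1) (f := fun _ x => -x)
    (fun _ => measurable_neg.aemeasurable)

theorem int_Wt (hX : Iid X) {lam : ℝ} (hl : 0 ≤ lam) (S : Finset V) (z : V)
    [Fintype (Tp S z)] [Nonempty (Tp S z)] :
    ∫⁻ ω, Wt lam S z 0 (env X ω) ∂(volume : Measure Ω) =
      ENNReal.ofReal (∫ η, Fx lam (vs S z) η ∂(Measure.pi fun _ : Fd S => nexp)) := by
  have hm : Measurable fun ω (e : Fd S) => -(X e.1 ω) :=
    measurable_pi_lambda _ fun e => (hX.meas e.1).neg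
  rw [ofReal_integral_eq_lintegral_ofReal (int_Fx nexp nexp_neg hl (vs S z))
    (Eventually.of_forall fun η => (Fx_pos _ _ _).le), ← law_neg hX (Fd S),
    lintegral_map (measurable_Fx lam _).ennreal_ofReal hm]
  exact lintegral_congr fun ω => Wt_eq hl S z (env X ω)

theorem meas_card {ι : Type} (s : Finset ι) (a : ℝ) :
    Measurable fun η : ι → ℝ => (s.filter fun i => η i ≤ a).card := by
  simp_rw [Finset.card_filter]
  refine Finset.measurable_fun_sum _ fun i _ => ?_
  exact Measurable.ite (measurableSet_le (measurable_pi_apply i) measurable_const)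
    measurable_const measurable_const

/-- strong log-convexity of the restricted transforms -/
theorem gain (hX : Iid X) : ∃ c : ℝ, 0 < c ∧ ∀ (lam : ℝ) (S : Finset V) (z : V) (n : ℕ)
    (E0 N0 : ℝ), 0 ≤ lam → lam ≤ 1 → (n : ℤ) ≤ max |z.1| |z.2| → 0 < E0 → (S.card : ℝ) ≤ N0 →
    ENNReal.ofReal E0 ≤ ∫⁻ ω, Wt lam S z 0 (env X ω) ∂(volume : Measure Ω) →
    Real.sqrt ((1 / 2 : ℝ) ^ n * Real.exp (lam ^ 2 * n)) ≤ E0 / 2 →
    ENNReal.ofReal (Real.exp (c * lam ^ 2 * n ^ 2 / N0) * (E0 / 2) ^ 2) ≤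
      ∫⁻ ω, Wt (2 * lam) S z 0 (env X ω) ∂(volume : Measure Ω) := by
  classical
  set b : ℝ := -(1 / 512) with hb
  set a : ℝ := -(1 / 256) with ha
  have hp : 0 < nexp.real (Set.Ici b) := nexp_Ici (by norm_num)
  have hm : 0 < nexp.real (Set.Iic a) := nexp_Iic (by norm_num)
  set K := 1 / nexp.real (Set.Ici b) + 1 / nexp.real (Set.Iic a) with hK
  have hK2 : 1 ≤ K := by
    have h1 : 1 ≤ 1 / nexp.real (Set.Ici b) := by
      rw [le_div_iff₀ hp, one_mul]
      exact measureReal_le_one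
    have h2 : 0 < 1 / nexp.real (Set.Iic a) := by positivity
    linarith
  refine ⟨(1 / 512) ^ 2 / (16 * K), by positivity, ?_⟩
  intro lam S z n E0 N0 hl hl1 hn hE0 hSN hE hq
  by_cases hne : Nonempty (Tp S z)
  swap
  · exfalso
    have h0 : ∫⁻ ω, Wt lam S z 0 (env X ω) ∂(volume : Measure Ω) = 0 := by
      have h1 : ∀ ω, Wt lam S z 0 (env X ω) = 0 := by
        intro ω
        refine le_antisymm (iSup₂_le fun l hl' => ?_) zero_le
        exact absurd ⟨⟨l, hl'⟩⟩ hne
      simp_rw [h1]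
      simp
    rw [h0] at hE
    have := ENNReal.ofReal_pos.2 hE0
    exact absurd hE (not_le.2 this)
  have hfin := Tp_fin S z
  have hft : Fintype (Tp S z) := Fintype.ofFinite _
  set F := Fd S with hF
  set π := Measure.pi fun _ : F => nexp with hπ
  set Bd : Set (F → ℝ) := {η | ∃ l ∈ WL n 0, ((edg ((0 : V) :: l)).Nodup ∧
      ∀ e ∈ edg ((0 : V) :: l), e ∈ F) ∧
      2 * ((ixs F ((0 : V) :: l)).filter fun i => η i ≤ a).card < n} with hBd
  have hBm : MeasurableSet Bd := by
    have e : Bd = ⋃ l ∈ {l : List V | l ∈ WL n 0 ∧ (edg ((0 : V) :: l)).Nodup ∧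
      ∀ e ∈ edg ((0 : V) :: l), e ∈ F},
        {η : F → ℝ | 2 * ((ixs F ((0 : V) :: l)).filter fun i => η i ≤ a).card < n} := by
      ext η
      simp only [hBd, Set.mem_ofPred_eq, Set.mem_iUnion, exists_prop, and_assoc]
    rw [e]
    refine Set.Finite.measurableSet_biUnion ?_ fun l _ => ?_
    · exact (WL n 0).finite_toSet.subset fun l hl => hl.1
    · exact measurableSet_lt ((meas_card _ a).const_mul 2) measurable_const
  have hBle : π.real Bd ≤ (1 / 2 : ℝ) ^ n := by
    refine bad_le nexp ?_ F n 0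
    have := nexp_Ioi (x := 1 / 256) (by norm_num)
    exact this
  set G := Bdᶜ with hG
  have hlen : ∀ w : Tp S z, n ≤ w.1.length := by
    intro w
    have h1 := len_ge w.1 0 w.2.1
    simp only [Prod.fst_zero, Prod.snd_zero, sub_zero] at h1
    have := hn.trans h1
    exact_mod_cast this
  have hGs : ∀ η ∈ G, (n : ℝ) / 2 ≤ ∑ s ∈ (Finset.univ : Finset F), hv (vs S z) a s η := by
    intro η hη
    obtain ⟨w, hw⟩ := exists_Mx (vs S z) η
    set l' := w.1.take n with hl'
    have h1 : l' ∈ WL n 0 := take_mem n w.1 0 w.2.1 (hlen w)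
    have h2 : ((0 : V) :: l').Nodup := by
      refine List.Nodup.sublist ?_ w.2.2.1
      exact (List.take_sublist n w.1).cons_cons 0
    have h3 : ∀ e ∈ edg ((0 : V) :: l'), e ∈ F := fun e he =>
      mem_Fd w.2.1 w.2.2.2 e (edg_take n w.1 0 e he)
    have h4 : n ≤ 2 * ((ixs F ((0 : V) :: l')).filter fun i => η i ≤ a).card := by
      by_contra h5
      exact hη ⟨l', h1, ⟨edg_nodup h2, h3⟩, not_le.1 h5⟩
    have h5 : ((ixs F ((0 : V) :: l')).filter fun i => η i ≤ a) ⊆
        (vs S z w).filter fun i => η i ≤ a := by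
      intro i hi
      obtain ⟨h6, h7⟩ := Finset.mem_filter.1 hi
      refine Finset.mem_filter.2 ⟨?_, h7⟩
      exact Finset.mem_filter.2 ⟨Finset.mem_univ _,
        edg_take n w.1 0 _ (Finset.mem_filter.1 h6).2⟩
    have h6 := Finset.card_le_card h5
    have h7 : (((vs S z w).filter fun i => η i ≤ a).card : ℝ) ≤
        ∑ s ∈ (Finset.univ : Finset F), hv (vs S z) a s η := by
      calc (((vs S z w).filter fun i => η i ≤ a).card : ℝ)
          = ∑ s ∈ (vs S z w).filter fun i => η i ≤ a, (1 : ℝ) := by simp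
        _ ≤ ∑ s ∈ (vs S z w).filter fun i => η i ≤ a, hv (vs S z) a s η := by
            refine Finset.sum_le_sum fun s hs => ?_
            obtain ⟨h8, h9⟩ := Finset.mem_filter.1 hs
            unfold hv
            rw [Set.indicator_of_mem]
            exact ⟨h9, w, h8, hw⟩
        _ ≤ _ := Finset.sum_le_sum_of_subset_of_nonneg (Finset.subset_univ _)
            fun s _ _ => hv_nonneg _ _ _ _
    have h8 : (n : ℝ) ≤ 2 * (((vs S z w).filter fun i => η i ≤ a).card : ℝ) := by
      have : n ≤ 2 * ((vs S z w).filter fun i => η i ≤ a).card := by omega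
      exact_mod_cast this
    linarith
  have hFn : (n : ℝ) ≤ ((Finset.univ : Finset F).card : ℝ) := by
    obtain ⟨w⟩ := hne
    have h1 := ixs_card F (mem_Fd w.2.1 w.2.2.2) (edg_nodup w.2.2.1)
    rw [edg_len] at h1
    have h2 : (ixs F (0 :: w.1)).card ≤ (Finset.univ : Finset F).card :=
      Finset.card_le_card (Finset.subset_univ _)
    have h3 := hlen w
    exact_mod_cast (by omega : n ≤ (Finset.univ : Finset F).card)
  have hFS : ((Finset.univ : Finset F).card : ℝ) ≤ 4 * N0 := by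
    have h1 : ((Finset.univ : Finset F).card : ℝ) ≤ 4 * S.card := by
      rw [Finset.card_univ, Fintype.card_coe]
      exact_mod_cast Fd_card S
    linarith
  have hFpos : 0 < ((Finset.univ : Finset F).card : ℝ) := by
    obtain ⟨w⟩ := hne
    rcases Nat.eq_zero_or_pos n with h | h
    · -- then `E0 / 2 ≥ 1`, impossible, unless there is an edge
      by_contra hc
      have h0 : (Finset.univ : Finset F).card = 0 := by
        have := (Nat.cast_nonneg (α := ℝ) (Finset.univ : Finset F).card)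
        have h2 : ((Finset.univ : Finset F).card : ℝ) = 0 := le_antisymm (not_lt.1 hc) this
        exact_mod_cast h2
      rw [h] at hq
      simp only [pow_zero, Nat.cast_zero, mul_zero, Real.exp_zero, mul_one, Real.sqrt_one] at hq
      have h1 : ∫⁻ ω, Wt lam S z 0 (env X ω) ∂(volume : Measure Ω) ≤ 1 := by
        calc _ ≤ ∫⁻ _ω, 1 ∂(volume : Measure Ω) := by
              refine lintegral_mono_ae ?_
              filter_upwards [cAE Ω X hX] with ω hω
              exact iSup₂_le fun l _ => ex_le_one hl (cost_nonneg hω _)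
          _ = 1 := by simp
      have h2 := hE.trans h1
      rw [ENNReal.ofReal_le_one] at h2
      linarith
    · have : (0 : ℝ) < n := by exact_mod_cast h
      linarith
  obtain ⟨N, hN⟩ : ∃ N : ℝ, N = ((Finset.univ : Finset F).card : ℝ) := ⟨_, rfl⟩
  rw [← hN] at hFn hFS hFpos
  have hn0 : (0 : ℝ) ≤ n := Nat.cast_nonneg n
  have hba : b - a = 1 / 512 := by rw [hb, ha]; norm_num
  set g := (lam * (b - a)) ^ 2 * ((n : ℝ) / 2) ^ 2 / (K * N) with hg
  have hg1 : g ≤ lam ^ 2 * n := by
    rw [hg, hba, div_le_iff₀ (by positivity)]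
    have h1 : (n : ℝ) * n ≤ n * (K * N) := by
      refine mul_le_mul_of_nonneg_left ?_ hn0
      nlinarith
    have h2 : (lam * (1 / 512)) ^ 2 * ((n : ℝ) / 2) ^ 2 =
      lam ^ 2 * (1 / 512) ^ 2 / 4 * (n * n) := by ring
    rw [h2]
    have h3 : 0 ≤ lam ^ 2 := sq_nonneg _
    have h4 : lam ^ 2 * (1 / 512) ^ 2 / 4 * ((n : ℝ) * n) ≤ lam ^ 2 * (n * (K * N)) := by
      have h5 : 0 ≤ (n : ℝ) * n := by positivity
      nlinarith
    calc _ ≤ lam ^ 2 * (n * (K * N)) := h4
      _ = _ := by ring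
  have hg2 : (1 / 512) ^ 2 / (16 * K) * lam ^ 2 * n ^ 2 / N0 ≤ g := by
    have hS : (0 : ℝ) < N0 := by linarith
    rw [hg, hba, div_le_div_iff₀ hS (by positivity)]
    have h1 : (1 / 512 : ℝ) ^ 2 / (16 * K) * lam ^ 2 * n ^ 2 * (K * N) =
        (1 / 512) ^ 2 / 16 * (lam ^ 2 * n ^ 2) * N := by
      field_simp
    rw [h1]
    have h2 : (lam * (1 / 512 : ℝ)) ^ 2 * ((n : ℝ) / 2) ^ 2 * N0 =
        (1 / 512) ^ 2 / 16 * (lam ^ 2 * n ^ 2) * (4 * N0) := by ring
    rw [h2]
    exact mul_le_mul_of_nonneg_left hFS (by positivity)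
  have hI := int_Wt hX hl S z
  have hI2 := int_Wt hX (mul_nonneg zero_le_two hl) S z
  set I := ∫ η, Fx lam (vs S z) η ∂π with hId
  have hEI : E0 ≤ I := by
    rw [hI] at hE
    by_contra hc
    have hc' := not_le.1 hc
    exact absurd hE (not_le.2 ((ENNReal.ofReal_lt_ofReal_iff hE0).2 hc'))
  have hsq : ∀ η : F → ℝ, Fx (2 * lam) (vs S z) η = Fx lam (vs S z) η ^ 2 := by
    intro η
    unfold Fx
    rw [← Real.exp_nat_mul]
    congr 1
    push_cast
    ring
  rw [hI2]
  simp_rw [hsq]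
  refine ENNReal.ofReal_le_ofReal ?_
  have hgain := gain0 nexp nexp_neg (a := a) (b := b) (by rw [ha, hb]; norm_num) hp hm hl (vs S z)
    (Finset.univ : Finset F) (m := (n : ℝ) / 2) (by positivity) (G := G) hBm.compl hGs
    (by rw [hba]; linarith) (by rw [← hN]; linarith) (by
      rw [← hN, ← hK, ← hg]
      refine (Real.sqrt_le_sqrt ?_).trans (hq.trans (by linarith))
      rw [hG, compl_compl]
      exact mul_le_mul hBle (Real.exp_le_exp.2 hg1) (Real.exp_pos _).le (by positivity))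
  rw [← hN, ← hK, ← hg] at hgain
  refine le_trans ?_ hgain
  exact mul_le_mul (Real.exp_le_exp.2 hg2) (pow_le_pow_left₀ (by positivity) (by linarith) 2)
    (by positivity) (Real.exp_pos _).le

end U874.FL
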