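import Mathlib

/-!
# An inequality of van den Berg-Kesten type for pairs of disjoint paths (finite product space)
-/

set_option autoImplicit false
set_option linter.unusedSectionVars false

open MeasureTheory ProbabilityTheory
open scoped ENNReal

namespace U874.FL

variable {ι E : Type} [Fintype ι] [DecidableEq ι] [MeasurableSpace E]

lemma meas_upd (s : ι) : Measurable (fun p : (ι → E) × E => Function.update p.1 s p.2) := by
  rw [measurable_pi_iff]
  intro i
  by_cases h : i = s
  · subst h
    simpa using measurable_snd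
  · simp only [Function.update_of_ne h]
    exact (measurable_pi_apply i).comp measurable_fst

/-- resampling one coordinate -/
lemma mp_upd (μ : Measure E) [IsProbabilityMeasure μ] (s : ι) :
    MeasurePreserving (fun p : (ι → E) × E => Function.update p.1 s p.2)
      ((Measure.pi fun _ : ι => μ).prod μ) (Measure.pi fun _ : ι => μ) where
  measurable := meas_upd s
  map_eq := by
    have hmeas : Measurable (fun p : (ι → E) × E => Function.update p.1 s p.2) := meas_upd s
    refine (Measure.pi_eq fun S hS => ?_).symm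
    rw [Measure.map_apply hmeas (MeasurableSet.univ_pi hS)]
    have e : (fun p : (ι → E) × E => Function.update p.1 s p.2) ⁻¹' (Set.univ.pi S) =
        (Set.univ.pi (Function.update S s Set.univ)) ×ˢ (S s) := by
      ext p
      simp only [Set.mem_preimage, Set.mem_pi, Set.mem_univ, true_implies, Set.mem_prod]
      constructor
      · intro h
        refine ⟨fun i => ?_, by simpa using h s⟩
        by_cases hi : i = s
        · subst hi; simp
        · have := h i
          rw [Function.update_of_ne hi] at this ⊢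
          exact this
      · rintro ⟨h1, h2⟩ i
        by_cases hi : i = s
        · subst hi; simpa using h2
        · have := h1 i
          rw [Function.update_of_ne hi] at this ⊢
          exact this
    rw [e, Measure.prod_prod, Measure.pi_pi, ← Finset.mul_prod_erase _ _ (Finset.mem_univ s),
      ← Finset.mul_prod_erase (Finset.univ : Finset ι) (fun i => μ (S i)) (Finset.mem_univ s)]
    rw [Function.update_self, measure_univ, one_mul, mul_comm]
    congr 1
    apply Finset.prod_congr rfl
    intro i hi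
    rw [Function.update_of_ne (Finset.ne_of_mem_erase hi)]

lemma lresample (μ : Measure E) [IsProbabilityMeasure μ] (s : ι) {H : (ι → E) → ℝ≥0∞}
    (hH : Measurable H) : ∫⁻ z, H z ∂(Measure.pi fun _ : ι => μ) =
      ∫⁻ z, ∫⁻ t, H (Function.update z s t) ∂μ ∂(Measure.pi fun _ : ι => μ) := by
  have h1 := mp_upd (ι := ι) μ s
  rw [← h1.lintegral_comp hH]
  exact lintegral_prod _ (hH.comp h1.measurable).aemeasurable

/-- the functional with the coordinates in `S` split -/
noncomputable def MS {κ : Type} (u : ℝ → ℝ≥0∞) (A B : κ → Finset ι) (S : Finset ι)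
    (z : ι → ℝ × ℝ) : ℝ≥0∞ :=
  ⨆ j : κ, (∏ e ∈ A j, u (z e).1) * ∏ e ∈ B j, u (if e ∈ S then (z e).2 else (z e).1)

variable {κ : Type} [Countable κ]

lemma meas_MS {u : ℝ → ℝ≥0∞} (hu : Measurable u) (A B : κ → Finset ι) (S : Finset ι) :
    Measurable (MS u A B S) := by
  unfold MS
  refine Measurable.iSup fun j => ?_
  refine (Finset.measurable_fun_prod _ fun e _ => ?_).mul (Finset.measurable_fun_prod _ fun e _ => ?_)
  · exact hu.comp (measurable_fst.comp (measurable_pi_apply e))
  · by_cases h : e ∈ S
    · simp only [h, if_true]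
      exact hu.comp (measurable_snd.comp (measurable_pi_apply e))
    · simp only [h, if_false]
      exact hu.comp (measurable_fst.comp (measurable_pi_apply e))

omit [Countable κ] in
/-- the dependence on one coordinate -/
lemma MS_upd (u : ℝ → ℝ≥0∞) {A B : κ → Finset ι} (hd : ∀ j, Disjoint (A j) (B j)) {S : Finset ι}
    {s : ι} (hs : s ∉ S) (z : ι → ℝ × ℝ) : ∃ α β γ : ℝ≥0∞, ∀ t : ℝ × ℝ,
      MS u A B S (Function.update z s t) = max (max (u t.1 * α) (u t.1 * β)) γ ∧
      MS u A B (insert s S) (Function.update z s t) = max (max (u t.1 * α) (u t.2 * β)) γ := by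
  classical
  obtain ⟨c, hc⟩ : ∃ c : κ → ℝ≥0∞, c = fun j => (∏ e ∈ (A j).erase s, u (z e).1) *
      ∏ e ∈ (B j).erase s, u (if e ∈ S then (z e).2 else (z e).1) := ⟨_, rfl⟩
  refine ⟨⨆ j : κ, if s ∈ A j then c j else 0, ⨆ j : κ, if s ∈ B j then c j else 0,
    ⨆ j : κ, if s ∉ A j ∧ s ∉ B j then c j else 0, fun t => ?_⟩
  have hA : ∀ j, ∏ e ∈ (A j).erase s, u (Function.update z s t e).1 =
      ∏ e ∈ (A j).erase s, u (z e).1 := fun j => Finset.prod_congr rfl fun e he => by
    rw [Function.update_of_ne (Finset.ne_of_mem_erase he)]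
  have hB : ∀ j (S' : Finset ι), (∀ e, e ≠ s → (e ∈ S' ↔ e ∈ S)) → ∏ e ∈ (B j).erase s,
      u (if e ∈ S' then (Function.update z s t e).2 else (Function.update z s t e).1) =
      ∏ e ∈ (B j).erase s, u (if e ∈ S then (z e).2 else (z e).1) := fun j S' hS' =>
    Finset.prod_congr rfl fun e he => by
      rw [Function.update_of_ne (Finset.ne_of_mem_erase he)]
      simp only [hS' e (Finset.ne_of_mem_erase he)]
  have key : ∀ (S' : Finset ι) (r : ℝ), (∀ e, e ≠ s → (e ∈ S' ↔ e ∈ S)) →
      (if s ∈ S' then t.2 else t.1) = r →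
      MS u A B S' (Function.update z s t) =
      max (max (u t.1 * ⨆ j : κ, if s ∈ A j then c j else 0)
        (u r * ⨆ j : κ, if s ∈ B j then c j else 0))
        (⨆ j : κ, if s ∉ A j ∧ s ∉ B j then c j else 0) := by
    intro S' r hS' hr
    rw [ENNReal.mul_iSup, ENNReal.mul_iSup]
    have e1 : ∀ j : κ, (∏ e ∈ A j, u (Function.update z s t e).1) * ∏ e ∈ B j,
        u (if e ∈ S' then (Function.update z s t e).2 else (Function.update z s t e).1) =
        max (max (u t.1 * if s ∈ A j then c j else 0) (u r * if s ∈ B j then c j else 0))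
          (if s ∉ A j ∧ s ∉ B j then c j else 0) := by
      intro j
      by_cases h1 : s ∈ A j
      · have h2 : s ∉ B j := Finset.disjoint_left.1 (hd j) h1
        have h3 := hB j S' hS'
        rw [Finset.erase_eq_of_notMem h2] at h3
        rw [← Finset.mul_prod_erase _ _ h1, hA, h3, Function.update_self]
        simp only [h1, h2, if_true, if_false, not_true, not_false_eq_true, false_and, mul_zero,
          hc, Finset.erase_eq_of_notMem h2, mul_assoc]
        simp
      · by_cases h2 : s ∈ B j
        · have h3 := hA j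
          rw [Finset.erase_eq_of_notMem h1] at h3
          rw [← Finset.mul_prod_erase (B j) _ h2, h3, hB j S' hS', Function.update_self, hr]
          simp only [h1, h2, if_true, if_false, not_true, not_false_eq_true, and_false, mul_zero,
            hc, Finset.erase_eq_of_notMem h1]
          have : (∏ e ∈ A j, u (z e).1) * (u r * ∏ e ∈ (B j).erase s,
              u (if e ∈ S then (z e).2 else (z e).1)) = u r * ((∏ e ∈ A j, u (z e).1) *
              ∏ e ∈ (B j).erase s, u (if e ∈ S then (z e).2 else (z e).1)) := by ring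
          rw [this]
          simp
        · have h3 := hA j
          rw [Finset.erase_eq_of_notMem h1] at h3
          have h4 := hB j S' hS'
          rw [Finset.erase_eq_of_notMem h2] at h4
          rw [h3, h4]
          simp only [h1, h2, if_true, if_false, not_false_eq_true, and_self, mul_zero,
            hc, Finset.erase_eq_of_notMem h1, Finset.erase_eq_of_notMem h2]
          simp
    unfold MS
    simp_rw [e1]
    rw [iSup_sup_eq, iSup_sup_eq]
  refine ⟨key S t.1 (fun _ _ => Iff.rfl) (by simp [hs]), key (insert s S) t.2 ?_ (by simp)⟩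
  intro e he
  simp [he]

/-- splitting one coordinate increases the mean -/
lemma step (μ : Measure ℝ) [IsProbabilityMeasure μ] {u : ℝ → ℝ≥0∞} (hu : Measurable u)
    {A B : κ → Finset ι} (hd : ∀ j, Disjoint (A j) (B j)) {S : Finset ι} {s : ι} (hs : s ∉ S) :
    ∫⁻ z, MS u A B S z ∂(Measure.pi fun _ : ι => μ.prod μ) ≤
      ∫⁻ z, MS u A B (insert s S) z ∂(Measure.pi fun _ : ι => μ.prod μ) := by
  rw [lresample (μ.prod μ) s (meas_MS hu A B S), lresample (μ.prod μ) s (meas_MS hu A B _)]
  refine lintegral_mono fun z => ?_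
  obtain ⟨α, β, γ, h⟩ := MS_upd u hd hs z
  have e1 : ∀ t, MS u A B S (Function.update z s t) = max (max (u t.1 * α) (u t.1 * β)) γ :=
    fun t => (h t).1
  have e2 : ∀ t, MS u A B (insert s S) (Function.update z s t) =
      max (max (u t.1 * α) (u t.2 * β)) γ := fun t => (h t).2
  simp_rw [e1, e2]
  rcases le_total β α with hab | hab
  · refine lintegral_mono fun t => ?_
    refine max_le_max (max_le (le_max_left _ _) ?_) le_rfl
    exact le_max_of_le_left (mul_le_mul' le_rfl hab)
  · calc ∫⁻ t : ℝ × ℝ, max (max (u t.1 * α) (u t.1 * β)) γ ∂(μ.prod μ)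
        ≤ ∫⁻ t : ℝ × ℝ, max (u t.1 * β) γ ∂(μ.prod μ) := by
          refine lintegral_mono fun t => ?_
          exact max_le_max (max_le (mul_le_mul' le_rfl hab) le_rfl) le_rfl
      _ = ∫⁻ x : ℝ, max (u x * β) γ ∂μ :=
          (measurePreserving_fst (μ := μ) (ν := μ)).lintegral_comp
            (f := fun x => max (u x * β) γ) ((hu.mul_const β).max measurable_const)
      _ = ∫⁻ t : ℝ × ℝ, max (u t.2 * β) γ ∂(μ.prod μ) :=
          ((measurePreserving_snd (μ := μ) (ν := μ)).lintegral_comp
            (f := fun x => max (u x * β) γ) ((hu.mul_const β).max measurable_const)).symm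
      _ ≤ _ := by
          refine lintegral_mono fun t => ?_
          exact max_le_max (le_max_right _ _) le_rfl

/-- the inequality -/
theorem bk (μ : Measure ℝ) [IsProbabilityMeasure μ] {u : ℝ → ℝ≥0∞} (hu : Measurable u)
    {A B : κ → Finset ι} (hd : ∀ j, Disjoint (A j) (B j)) :
    ∫⁻ x, (⨆ j : κ, (∏ e ∈ A j, u (x e)) * ∏ e ∈ B j, u (x e)) ∂(Measure.pi fun _ : ι => μ) ≤
      (∫⁻ x, (⨆ j : κ, ∏ e ∈ A j, u (x e)) ∂(Measure.pi fun _ : ι => μ)) *
      ∫⁻ x, (⨆ j : κ, ∏ e ∈ B j, u (x e)) ∂(Measure.pi fun _ : ι => μ) := by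
  have h1 : ∀ S : Finset ι, ∫⁻ z, MS u A B ∅ z ∂(Measure.pi fun _ : ι => μ.prod μ) ≤
      ∫⁻ z, MS u A B S z ∂(Measure.pi fun _ : ι => μ.prod μ) := by
    intro S
    induction S using Finset.induction_on with
    | empty => exact le_rfl
    | insert s S hs ih => exact ih.trans (step μ hu hd hs)
  have mA : Measurable fun x : ι → ℝ => ⨆ j : κ, ∏ e ∈ A j, u (x e) :=
    Measurable.iSup fun j => Finset.measurable_fun_prod _ fun e _ => hu.comp (measurable_pi_apply e)
  have mB : Measurable fun x : ι → ℝ => ⨆ j : κ, ∏ e ∈ B j, u (x e) :=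
    Measurable.iSup fun j => Finset.measurable_fun_prod _ fun e _ => hu.comp (measurable_pi_apply e)
  have mAB : Measurable fun x : ι → ℝ => ⨆ j : κ, (∏ e ∈ A j, u (x e)) * ∏ e ∈ B j, u (x e) :=
    Measurable.iSup fun j => (Finset.measurable_fun_prod _ fun e _ =>
      hu.comp (measurable_pi_apply e)).mul (Finset.measurable_fun_prod _ fun e _ =>
      hu.comp (measurable_pi_apply e))
  -- no split coordinate
  have e1 : ∫⁻ z, MS u A B ∅ z ∂(Measure.pi fun _ : ι => μ.prod μ) =
      ∫⁻ x, (⨆ j : κ, (∏ e ∈ A j, u (x e)) * ∏ e ∈ B j, u (x e)) ∂(Measure.pi fun _ : ι => μ) := by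
    have mp := measurePreserving_pi (fun _ : ι => μ.prod μ) (fun _ : ι => μ)
      (f := fun _ => Prod.fst) (fun _ => measurePreserving_fst)
    rw [← mp.lintegral_comp mAB]
    refine lintegral_congr fun z => ?_
    unfold MS
    simp
  -- all coordinates split
  have e2 : ∫⁻ z, MS u A B Finset.univ z ∂(Measure.pi fun _ : ι => μ.prod μ) ≤
      (∫⁻ x, (⨆ j : κ, ∏ e ∈ A j, u (x e)) ∂(Measure.pi fun _ : ι => μ)) *
      ∫⁻ x, (⨆ j : κ, ∏ e ∈ B j, u (x e)) ∂(Measure.pi fun _ : ι => μ) := by
    have mp := measurePreserving_arrowProdEquivProdArrow ℝ ℝ ι (fun _ => μ) (fun _ => μ)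
    rw [← lintegral_prod_mul mA.aemeasurable mB.aemeasurable]
    have mf : Measurable fun z : (ι → ℝ) × (ι → ℝ) =>
        (⨆ j : κ, ∏ e ∈ A j, u (z.1 e)) * ⨆ j : κ, ∏ e ∈ B j, u (z.2 e) :=
      (mA.comp measurable_fst).mul (mB.comp measurable_snd)
    rw [← mp.lintegral_comp mf]
    refine lintegral_mono fun z => ?_
    unfold MS
    refine iSup_le fun j => ?_
    simp only [Finset.mem_univ, if_true]
    exact mul_le_mul' (le_iSup (fun j : κ => ∏ e ∈ A j, u (z e).1) j)
      (le_iSup (fun j : κ => ∏ e ∈ B j, u (z e).2) j)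
  rw [← e1]
  exact (h1 Finset.univ).trans e2

end U874.FL
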