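import Pool.Agent.U874.FL.Rt
import Pool.Agent.U874.FP.Two

/-!
# Consequences for the outer event
-/

set_option autoImplicit false
set_option linter.unusedSectionVars false
open MeasureTheory ProbabilityTheory Filter Set
open scoped ENNReal Topology Pointwise

namespace U874.FL

open Pool.Agent.N662.FP
open Pool.Agent.U874.FP

variable {Ω : Type} [MeasureSpace Ω] [IsProbabilityMeasure (volume : Measure Ω)]
  {X : Sym2 (ℤ × ℤ) → Ω → ℝ}

theorem em_pos (μ : Seminorm ℝ (ℝ × ℝ)) (hμ : ∀ x, μ x = 0 → x = 0) {v : V} (hv : v ≠ 0) :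
    0 < μ (em v) := by
  refine lt_of_le_of_ne (apply_nonneg μ _) fun h => hv ?_
  have h1 := hμ _ h.symm
  have h2 : ((v.1 : ℝ), (v.2 : ℝ)) = ((0 : ℝ), (0 : ℝ)) := h1
  have h3 := Prod.mk.inj h2
  exact Prod.ext (by exact_mod_cast h3.1) (by exact_mod_cast h3.2)

/-- the rate, all exponents -/
theorem rate_all (hX : Iid X) (μ : Seminorm ℝ (ℝ × ℝ)) (hμ : ∀ x, μ x = 0 → x = 0)
    (hlim : ∀ v : V, ∀ᵐ ω ∂(volume : Measure Ω),
      Tendsto (fun n : ℕ => D (env X ω) 0 ((n : ℤ) • v) / (n : ℝ)) atTop (𝓝 (μ (em v))))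
    {κ c : ℝ} (hκ : 4 / 5 < κ) (hc : 0 < c) :
    ∃ ε1 : ℝ, 0 < ε1 ∧ ∀ ε : ℝ, 0 < ε → ε < ε1 → ∃ v : V, v ≠ 0 ∧ ∀ᶠ n : ℕ in atTop,
      Real.exp (-(c * (n * μ (em v)) * ε ^ (1 / κ))) ≤ (volume : Measure Ω).real
        {ω | D (env X ω) 0 ((n : ℤ) • v) ≤ (1 - ε) * (n * μ (em v))} := by
  obtain ⟨κ1, h1, h2, h3⟩ : ∃ κ1 : ℝ, 4 / 5 < κ1 ∧ κ1 < 1 ∧ κ1 ≤ κ :=
    ⟨min κ (9 / 10), lt_min hκ (by norm_num), lt_of_le_of_lt (min_le_right _ _) (by norm_num),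
      min_le_left _ _⟩
  obtain ⟨ε1, hε1, h⟩ := rate_every hX μ hμ hlim h1 h2 hc
  refine ⟨min ε1 1, lt_min hε1 one_pos, fun ε he he1 => ?_⟩
  obtain ⟨v, hv, hn⟩ := h ε he (he1.trans_le (min_le_left _ _))
  refine ⟨v, hv, ?_⟩
  filter_upwards [hn] with n hn
  have h4 : Real.exp (-(c * (n * μ (em v)) * ε ^ (1 / κ1))) ≤ (volume : Measure Ω).real
      {ω | D (env X ω) 0 ((n : ℤ) • v) ≤ (1 - ε) * (n * μ (em v))} :=
    (ENNReal.ofReal_le_iff_le_toReal (measure_ne_top _ _)).1 hn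
  refine le_trans (Real.exp_le_exp.2 (neg_le_neg ?_)) h4
  have h5 : 0 ≤ c * (n * μ (em v)) := by
    have := apply_nonneg μ (em v)
    positivity
  refine mul_le_mul_of_nonneg_left ?_ h5
  refine Real.rpow_le_rpow_of_exponent_ge he (he1.le.trans (min_le_right _ _)) ?_
  exact one_div_le_one_div_of_le (by linarith) h3

/-- the lower tails of order `1 / κ` fail -/
theorem not_low (hX : Iid X) (μ : Seminorm ℝ (ℝ × ℝ)) (hμ : ∀ x, μ x = 0 → x = 0)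
    (hlim : ∀ v : V, ∀ᵐ ω ∂(volume : Measure Ω),
      Tendsto (fun n : ℕ => D (env X ω) 0 ((n : ℤ) • v) / (n : ℝ)) atTop (𝓝 (μ (em v))))
    {κ c : ℝ} (hκ : 4 / 5 < κ) (hc : 0 < c) : ¬ Low (fun ω v => D (env X ω) 0 v) μ κ c := by
  intro hL
  obtain ⟨ε1, hε1, h⟩ := rate_all hX μ hμ hlim hκ (show 0 < c / 2 by positivity)
  obtain ⟨ε, he0, he1, he2⟩ : ∃ ε : ℝ, 0 < ε ∧ ε < ε1 ∧ ε ≤ 1 :=
    ⟨min (ε1 / 2) 1, lt_min (by positivity) one_pos,
      lt_of_le_of_lt (min_le_left _ _) (by linarith), min_le_right _ _⟩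
  obtain ⟨v, hv, hn⟩ := h ε he0 he1
  obtain ⟨n, hn1, hn2⟩ := (hn.and (eventually_ge_atTop 1)).exists
  have h1 := hL ((n : ℤ) • v) ε he0.le he2
  rw [em_nsmul] at h1
  have h2 := Real.exp_le_exp.1 (hn1.trans h1)
  have h3 : (0 : ℝ) < n := by exact_mod_cast hn2
  have h4 := em_pos μ hμ hv
  have h5 : 0 < ε ^ (1 / κ) := Real.rpow_pos_of_pos he0 _
  have h6 : 0 < c * (n * μ (em v)) * ε ^ (1 / κ) := by positivity
  have h7 : c / 2 * (n * μ (em v)) * ε ^ (1 / κ) = c * (n * μ (em v)) * ε ^ (1 / κ) / 2 := by ring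
  rw [h7] at h2
  linarith

/-- the outer events grow with the exponent -/
theorem esc_mono (μ : Seminorm ℝ (ℝ × ℝ)) (T : Ω → ℤ × ℤ → ℝ) {κ κ' t : ℝ} (h : κ' ≤ κ)
    (ht : 1 ≤ t) : Esc T μ κ' t ⊆ Esc T μ κ t := by
  intro ω hω hsub
  apply hω
  refine hsub.trans ?_
  have ht0 : 0 < t := by linarith
  have h1 : t ^ (-κ) ≤ t ^ (-κ') := Real.rpow_le_rpow_of_exponent_le ht (by linarith)
  have h2 : 0 < t ^ (-κ) := by positivity
  have h3 : 0 < (1 + t ^ (-κ)) * t := by positivity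
  have h4 : (1 + t ^ (-κ)) * t ≤ (1 + t ^ (-κ')) * t :=
    mul_le_mul_of_nonneg_right (by linarith) ht0.le
  intro x hx
  rw [Set.mem_smul_set_iff_inv_smul_mem₀ h3.ne', Set.mem_ofPred_eq, map_smul_eq_mul,
    Real.norm_of_nonneg (inv_nonneg.2 h3.le), ← div_eq_inv_mul, div_le_one h3] at hx
  have h5 : 0 < (1 + t ^ (-κ')) * t := h3.trans_le h4
  rw [Set.mem_smul_set_iff_inv_smul_mem₀ h5.ne', Set.mem_ofPred_eq, map_smul_eq_mul,
    Real.norm_of_nonneg (inv_nonneg.2 h5.le), ← div_eq_inv_mul, div_le_one h5]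
  exact hx.trans h4

/-- the outer half fails beyond the exponent `4 / 5` -/
theorem not_esc (hX : Iid X) (μ : Seminorm ℝ (ℝ × ℝ)) (hμ : ∀ x, μ x = 0 → x = 0)
    (hlim : ∀ v : V, ∀ᵐ ω ∂(volume : Measure Ω),
      Tendsto (fun n : ℕ => D (env X ω) 0 ((n : ℤ) • v) / (n : ℝ)) atTop (𝓝 (μ (em v))))
    {κ q : ℝ} (hκ : 4 / 5 < κ) (hq : 33 < q) :
    ¬ Asymptotics.IsBigO atTop (fun t : ℝ => (volume : Measure Ω).real
      (Esc (fun ω v => D (env X ω) 0 v) μ κ t)) (fun t : ℝ => t ^ (-q)) := by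
  intro hE
  obtain ⟨κ', h1, h2, h3⟩ : ∃ κ' : ℝ, 4 / 5 < κ' ∧ κ' < min κ 1 ∧ 1 + 2 ^ (1 / (1 - κ')) < q := by
    have hc : ContinuousAt (fun x : ℝ => 1 + (2 : ℝ) ^ (1 / (1 - x))) (4 / 5) := by
      refine continuousAt_const.add ?_
      refine ContinuousAt.rpow continuousAt_const ?_ (Or.inl (by norm_num))
      refine ContinuousAt.div continuousAt_const (continuousAt_const.sub continuousAt_id) ?_
      norm_num
    have hv : 1 + (2 : ℝ) ^ (1 / (1 - (4 / 5 : ℝ))) < q := by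
      have : (1 : ℝ) / (1 - 4 / 5) = ((5 : ℕ) : ℝ) := by norm_num
      rw [this, Real.rpow_natCast]
      linarith
    have e1 := hc.eventually (gt_mem_nhds hv)
    have e2 : ∀ᶠ x : ℝ in 𝓝 (4 / 5), x < min κ 1 :=
      gt_mem_nhds (lt_min hκ (by norm_num))
    have e3 := (e1.and e2).filter_mono (nhdsWithin_le_nhds (s := Set.Ioi (4 / 5 : ℝ)))
    obtain ⟨x, ⟨h1, h2⟩, h3⟩ := (e3.and self_mem_nhdsWithin).exists
    exact ⟨x, h3, h2, h1⟩
  obtain ⟨κ2, h4, h5⟩ : ∃ κ2 : ℝ, κ' < κ2 ∧ κ2 < min κ 1 := exists_between h2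
  have hE2 : Asymptotics.IsBigO atTop (fun t : ℝ => (volume : Measure Ω).real
      (Esc (fun ω v => D (env X ω) 0 v) μ κ2 t)) (fun t : ℝ => t ^ (-q)) := by
    refine Asymptotics.IsBigO.trans (Asymptotics.IsBigO.of_bound 1 ?_) hE
    filter_upwards [eventually_ge_atTop (1 : ℝ)] with t ht
    rw [Real.norm_of_nonneg measureReal_nonneg, Real.norm_of_nonneg measureReal_nonneg, one_mul]
    exact measureReal_mono (esc_mono μ _ (h5.le.trans (min_le_left _ _)) ht) (measure_ne_top _ _)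
  obtain ⟨c, hc, hL⟩ := low_of_esc hX μ hμ (by linarith) h4 (h5.trans_le (min_le_right _ _)) h3 hE2
  exact not_low hX μ hμ hlim h1 hc hL

/-- one-point form -/
theorem not_pt (hX : Iid X) (μ : Seminorm ℝ (ℝ × ℝ)) (hμ : ∀ x, μ x = 0 → x = 0)
    (hlim : ∀ v : V, ∀ᵐ ω ∂(volume : Measure Ω),
      Tendsto (fun n : ℕ => D (env X ω) 0 ((n : ℤ) • v) / (n : ℝ)) atTop (𝓝 (μ (em v))))
    {κ q C : ℝ} (hκ : 4 / 5 < κ) (hq : 35 < q) : ∃ v : V,
      C * (1 + μ (em v)) ^ (-q) < (volume : Measure Ω).real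
        {ω | D (env X ω) 0 v ≤ μ (em v) - (1 + μ (em v)) ^ (1 - κ)} := by
  by_contra hcon
  push Not at hcon
  obtain ⟨κ3, h1, h2⟩ : ∃ κ3 : ℝ, 4 / 5 < κ3 ∧ κ3 < min κ 1 :=
    exists_between (lt_min hκ (by norm_num))
  obtain ⟨κ4, h3, h4⟩ : ∃ κ4 : ℝ, 4 / 5 < κ4 ∧ κ4 < κ3 := exists_between h1
  have hP : Pt (fun ω v => D (env X ω) 0 v) μ κ3 q (max C 1) := by
    intro v
    have hM : 0 ≤ μ (em v) := apply_nonneg μ _
    have h5 : (1 + μ (em v)) ^ (1 - κ) ≤ (1 + μ (em v)) ^ (1 - κ3) :=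
      Real.rpow_le_rpow_of_exponent_le (by linarith)
        (by have := h2.le.trans (min_le_left _ _); linarith)
    refine (measureReal_mono ?_ (measure_ne_top _ _)).trans ((hcon v).trans ?_)
    · intro ω hω
      have hω' : D (env X ω) 0 v ≤ μ (em v) - (1 + μ (em v)) ^ (1 - κ3) := hω
      show D (env X ω) 0 v ≤ μ (em v) - (1 + μ (em v)) ^ (1 - κ)
      linarith
    · exact mul_le_mul_of_nonneg_right (le_max_left _ _) (by positivity)
  have h5 := esc_of_pt μ hμ (κ := κ4) (κ' := κ3) (s := 2 + (q - 35) / 2) (by linarith) h4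
    (h2.trans_le (min_le_right _ _)) (lt_max_of_lt_right one_pos) (by linarith) (by linarith) hP
  exact not_esc hX μ hμ hlim h3 (by linarith) h5

end U874.FL
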