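import Pool.Agent.U874.FP.Geo

/-!
# Lattice points in a strip, and a direction of strict convexity
-/

set_option autoImplicit false
set_option linter.unusedSectionVars false
open MeasureTheory ProbabilityTheory Filter Set
open scoped ENNReal Topology

namespace U874.FL

open Pool.Agent.N662.FP
open Pool.Agent.U874.FP

theorem ints (T : Finset ℤ) {d : ℝ} (hd : 0 ≤ d)
    (h : ∀ a ∈ T, ∀ b ∈ T, |(a : ℝ) - b| ≤ d) : (T.card : ℝ) ≤ d + 1 := by
  rcases T.eq_empty_or_nonempty with h0 | h0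
  · rw [h0]
    simp
    linarith
  · have h1 : T ⊆ Finset.Icc (T.min' h0) (T.max' h0) := fun a ha =>
      Finset.mem_Icc.2 ⟨T.min'_le a ha, T.le_max' a ha⟩
    have h2 := Finset.card_le_card h1
    rw [Int.card_Icc] at h2
    have h3 := h _ (T.max'_mem h0) _ (T.min'_mem h0)
    have h4 : T.min' h0 ≤ T.max' h0 := T.min'_le _ (T.max'_mem h0)
    have h5 : ((T.max' h0 + 1 - T.min' h0).toNat : ℤ) = T.max' h0 + 1 - T.min' h0 :=
      Int.toNat_of_nonneg (by omega)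
    have h6 : (T.card : ℤ) ≤ T.max' h0 + 1 - T.min' h0 := by
      rw [← h5]
      exact_mod_cast h2
    have h7 : (T.card : ℝ) ≤ (T.max' h0 : ℝ) + 1 - (T.min' h0 : ℝ) := by exact_mod_cast h6
    have h8 := (le_abs_self _).trans h3
    linarith

theorem strip1 (S : Finset V) {M d : ℝ} (hM : 0 ≤ M) (hd : 0 ≤ d)
    (h1 : ∀ y ∈ S, |(y.2 : ℝ)| ≤ M)
    (h2 : ∀ y ∈ S, ∀ y' ∈ S, y.2 = y'.2 → |(y.1 : ℝ) - y'.1| ≤ d) :
    (S.card : ℝ) ≤ (2 * M + 1) * (d + 1) := by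
  classical
  have e := Finset.card_eq_sum_card_image (fun y : V => y.2) S
  rw [e]
  push_cast
  have h3 : ∀ j ∈ S.image (fun y : V => y.2),
      (((S.filter fun y => y.2 = j).card : ℕ) : ℝ) ≤ d + 1 := by
    intro j _
    have h4 : (S.filter fun y => y.2 = j).card =
        ((S.filter fun y => y.2 = j).image (fun y : V => y.1)).card := by
      symm
      refine Finset.card_image_of_injOn ?_
      intro y hy y' hy' hyy
      have g1 := (Finset.mem_filter.1 (Finset.mem_coe.1 hy)).2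
      have g2 := (Finset.mem_filter.1 (Finset.mem_coe.1 hy')).2
      exact Prod.ext hyy (g1.trans g2.symm)
    rw [h4]
    refine ints _ hd ?_
    intro a ha b hb
    obtain ⟨y, hy, rfl⟩ := Finset.mem_image.1 ha
    obtain ⟨y', hy', rfl⟩ := Finset.mem_image.1 hb
    obtain ⟨g1, g2⟩ := Finset.mem_filter.1 hy
    obtain ⟨g3, g4⟩ := Finset.mem_filter.1 hy'
    exact h2 y g1 y' g3 (g2.trans g4.symm)
  have h5 : ((S.image (fun y : V => y.2)).card : ℝ) ≤ 2 * M + 1 := by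
    refine ints _ (by linarith) ?_
    intro a ha b hb
    obtain ⟨y, hy, rfl⟩ := Finset.mem_image.1 ha
    obtain ⟨y', hy', rfl⟩ := Finset.mem_image.1 hb
    have g1 := h1 y hy
    have g2 := h1 y' hy'
    have := abs_sub (y.2 : ℝ) (y'.2 : ℝ)
    linarith
  calc ∑ j ∈ S.image (fun y : V => y.2), (((S.filter fun y => y.2 = j).card : ℕ) : ℝ)
      ≤ ∑ _j ∈ S.image (fun y : V => y.2), (d + 1) := Finset.sum_le_sum h3
    _ = (S.image (fun y : V => y.2)).card * (d + 1) := by rw [Finset.sum_const, nsmul_eq_mul]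
    _ ≤ (2 * M + 1) * (d + 1) := mul_le_mul_of_nonneg_right h5 (by linarith)

/-- lattice points in a strip -/
theorem strip {p q : ℝ} (hpq : p ^ 2 + q ^ 2 = 1) (S : Finset V) {M r : ℝ} (hM : 0 ≤ M)
    (hr : 0 ≤ r) (h1 : ∀ y ∈ S, |(y.1 : ℝ)| ≤ M ∧ |(y.2 : ℝ)| ≤ M)
    (h2 : ∀ y ∈ S, |p * y.2 - q * y.1| ≤ r) : (S.card : ℝ) ≤ (2 * M + 1) * (4 * r + 1) := by
  classical
  have hor : 1 / 2 ≤ |q| ∨ 1 / 2 ≤ |p| := by
    by_contra h
    rw [not_or, not_le, not_le] at h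
    have g1 : q ^ 2 < (1 / 2) ^ 2 := by
      rw [← sq_abs q]
      exact pow_lt_pow_left₀ h.1 (abs_nonneg _) (by norm_num)
    have g2 : p ^ 2 < (1 / 2) ^ 2 := by
      rw [← sq_abs p]
      exact pow_lt_pow_left₀ h.2 (abs_nonneg _) (by norm_num)
    linarith
  rcases hor with hq | hp
  · refine strip1 S hM (by linarith) (fun y hy => (h1 y hy).2) ?_
    intro y hy y' hy' hyy
    have g1 := h2 y hy
    have g2 := h2 y' hy'
    have g3 : |q * ((y.1 : ℝ) - y'.1)| ≤ 2 * r := by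
      have e : q * ((y.1 : ℝ) - y'.1) = (p * y'.2 - q * y'.1) - (p * y.2 - q * y.1) := by
        rw [hyy]
        ring
      rw [e]
      have := abs_sub (p * (y'.2 : ℝ) - q * y'.1) (p * y.2 - q * y.1)
      linarith
    rw [abs_mul] at g3
    have g4 := abs_nonneg ((y.1 : ℝ) - y'.1)
    nlinarith
  · have g0 := strip1 (S.image Prod.swap) hM (d := 4 * r) (by linarith) ?_ ?_
    · rwa [Finset.card_image_of_injective _ Prod.swap_injective] at g0
    · intro y hy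
      obtain ⟨y0, hy0, rfl⟩ := Finset.mem_image.1 hy
      exact (h1 y0 hy0).1
    · intro y hy y' hy' hyy
      obtain ⟨y0, hy0, rfl⟩ := Finset.mem_image.1 hy
      obtain ⟨y1, hy1, rfl⟩ := Finset.mem_image.1 hy'
      have hyy' : y0.1 = y1.1 := hyy
      show |(y0.2 : ℝ) - y1.2| ≤ 4 * r
      have g1 := h2 y0 hy0
      have g2 := h2 y1 hy1
      have g3 : |p * ((y0.2 : ℝ) - y1.2)| ≤ 2 * r := by
        have e : p * ((y0.2 : ℝ) - y1.2) = (p * y0.2 - q * y0.1) - (p * y1.2 - q * y1.1) := by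
          rw [hyy']
          ring
        rw [e]
        have := abs_sub (p * (y0.2 : ℝ) - q * y0.1) (p * y1.2 - q * y1.1)
        linarith
      rw [abs_mul] at g3
      have g4 := abs_nonneg ((y0.2 : ℝ) - y1.2)
      nlinarith

/-- the direction where the norm is smallest among the unit vectors -/
theorem touch (μ : Seminorm ℝ (ℝ × ℝ)) (hμ : ∀ x, μ x = 0 → x = 0) :
    ∃ p q m : ℝ, p ^ 2 + q ^ 2 = 1 ∧ 0 < m ∧ μ (p, q) = m ∧
      ∀ x : ℝ × ℝ, m * Real.sqrt (x.1 ^ 2 + x.2 ^ 2) ≤ μ x := by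
  obtain ⟨c, C, hc, hC, hcC⟩ := cNORM μ hμ
  have hcont : Continuous μ := by
    refine (LipschitzWith.of_dist_le_mul (K := ⟨C, hC.le⟩) fun x y => ?_).continuous
    have h1 : |μ x - μ y| ≤ μ (x - y) := abs_sub_map_le_sub μ x y
    rw [Real.dist_eq]
    refine h1.trans (((hcC _).2).trans (le_of_eq ?_))
    have h2 : dist x y = max |(x - y).1| |(x - y).2| := by
      rw [Prod.dist_eq, Real.dist_eq, Real.dist_eq]
      rfl
    rw [h2]
    rfl
  obtain ⟨S, hS⟩ : ∃ S : Set (ℝ × ℝ), S = {x | x.1 ^ 2 + x.2 ^ 2 = 1} := ⟨_, rfl⟩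
  have hclosed : IsClosed S := by
    rw [hS]
    exact isClosed_eq (by fun_prop) continuous_const
  have hbdd : Bornology.IsBounded S := by
    refine (Metric.isBounded_closedBall (x := (0 : ℝ × ℝ)) (r := 1)).subset fun x hx => ?_
    rw [hS] at hx
    have hx' : x.1 ^ 2 + x.2 ^ 2 = 1 := hx
    rw [Metric.mem_closedBall, dist_zero_right, Prod.norm_def]
    refine max_le ?_ ?_
    · rw [Real.norm_eq_abs, abs_le_one_iff_mul_self_le_one]
      nlinarith [sq_nonneg x.2]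
    · rw [Real.norm_eq_abs, abs_le_one_iff_mul_self_le_one]
      nlinarith [sq_nonneg x.1]
  have hcomp : IsCompact S := Metric.isCompact_of_isClosed_isBounded hclosed hbdd
  have hne : S.Nonempty := ⟨(1, 0), by rw [hS]; simp⟩
  obtain ⟨u, hu, hmin⟩ := hcomp.exists_isMinOn hne hcont.continuousOn
  have hu' : u.1 ^ 2 + u.2 ^ 2 = 1 := by rw [hS] at hu; exact hu
  have hu0 : u ≠ 0 := by
    rintro rfl
    simp at hu'
  have hm : 0 < μ u := lt_of_le_of_ne (apply_nonneg μ u) fun h => hu0 (hμ u h.symm)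
  refine ⟨u.1, u.2, μ u, hu', hm, rfl, fun x => ?_⟩
  obtain ⟨s, hs⟩ : ∃ s : ℝ, s = Real.sqrt (x.1 ^ 2 + x.2 ^ 2) := ⟨_, rfl⟩
  rw [← hs]
  have hs0 : 0 ≤ s := by rw [hs]; exact Real.sqrt_nonneg _
  have hs2 : s ^ 2 = x.1 ^ 2 + x.2 ^ 2 := by
    rw [hs]
    exact Real.sq_sqrt (by positivity)
  rcases eq_or_lt_of_le hs0 with h | h
  · rw [← h, mul_zero]
    exact apply_nonneg μ x
  · have h1 : s⁻¹ • x ∈ S := by
      rw [hS]
      show (s⁻¹ * x.1) ^ 2 + (s⁻¹ * x.2) ^ 2 = 1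
      rw [mul_pow, mul_pow, ← mul_add, ← hs2, ← mul_pow, inv_mul_cancel₀ h.ne', one_pow]
    have h2 := hmin h1
    have h3 : μ u ≤ μ (s⁻¹ • x) := h2
    rw [map_smul_eq_mul, Real.norm_of_nonneg (inv_nonneg.2 hs0), ← div_eq_inv_mul,
      le_div_iff₀ h] at h3
    exact h3

/-- the strip around the line of the direction of contact -/
theorem perp {p q m : ℝ} (hpq : p ^ 2 + q ^ 2 = 1) (hm : 0 < m) {x : ℝ × ℝ} {H ρ : ℝ}
    (hρ : m * Real.sqrt (x.1 ^ 2 + x.2 ^ 2) ≤ ρ)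
    (hH : m * Real.sqrt (x.1 ^ 2 + x.2 ^ 2) - m * (p * x.1 + q * x.2) ≤ H) :
    |p * x.2 - q * x.1| ≤ Real.sqrt (2 * ρ * H) / m := by
  obtain ⟨s, hs⟩ : ∃ s : ℝ, s = Real.sqrt (x.1 ^ 2 + x.2 ^ 2) := ⟨_, rfl⟩
  rw [← hs] at hρ hH
  have hs0 : 0 ≤ s := by rw [hs]; exact Real.sqrt_nonneg _
  have hs2 : s ^ 2 = x.1 ^ 2 + x.2 ^ 2 := by
    rw [hs]
    exact Real.sq_sqrt (by positivity)
  obtain ⟨d, hd⟩ : ∃ d : ℝ, d = p * x.1 + q * x.2 := ⟨_, rfl⟩
  obtain ⟨e, he⟩ : ∃ e : ℝ, e = p * x.2 - q * x.1 := ⟨_, rfl⟩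
  rw [← hd] at hH
  rw [← he]
  have h1 : e ^ 2 + d ^ 2 = s ^ 2 := by
    rw [hs2, he, hd]
    calc (p * x.2 - q * x.1) ^ 2 + (p * x.1 + q * x.2) ^ 2
        = (p ^ 2 + q ^ 2) * (x.1 ^ 2 + x.2 ^ 2) := by ring
      _ = _ := by rw [hpq, one_mul]
  have hds : |d| ≤ s := by
    rw [← Real.sqrt_sq_eq_abs, ← Real.sqrt_sq hs0]
    exact Real.sqrt_le_sqrt (by nlinarith [sq_nonneg e])
  have hd1 := le_abs_self d
  have h2 : (m * e) ^ 2 ≤ 2 * ρ * H := by
    have e1 : (m * e) ^ 2 = (m * s - m * d) * (m * s + m * d) := by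
      have : e ^ 2 = (s - d) * (s + d) := by nlinarith
      calc (m * e) ^ 2 = m ^ 2 * e ^ 2 := by ring
        _ = m ^ 2 * ((s - d) * (s + d)) := by rw [this]
        _ = _ := by ring
    rw [e1]
    have h3 : 0 ≤ m * s - m * d := by nlinarith
    have h4 : m * s + m * d ≤ 2 * ρ := by nlinarith
    have h5 : 0 ≤ m * s + m * d := by
      have := neg_abs_le d
      nlinarith
    calc (m * s - m * d) * (m * s + m * d) ≤ H * (2 * ρ) :=
          mul_le_mul hH h4 h5 (h3.trans hH)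
      _ = _ := by ring
  rw [le_div_iff₀ hm]
  have h6 : |m * e| ≤ Real.sqrt (2 * ρ * H) := by
    rw [← Real.sqrt_sq_eq_abs]
    exact Real.sqrt_le_sqrt h2
  rw [abs_mul, abs_of_pos hm] at h6
  linarith

end U874.FL
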