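import Pool.Agent.U874.FL.Pth
import Pool.Agent.U874.FP.Out

/-!
# Iteration of the Lieb-Simon type inequality with a linear tilt
-/

set_option autoImplicit false
set_option linter.unusedSectionVars false
open MeasureTheory ProbabilityTheory Filter Set
open scoped ENNReal Topology

namespace U874.FL

open Pool.Agent.N662.FP
open Pool.Agent.U874.FP

variable {Ω : Type} [MeasureSpace Ω] [IsProbabilityMeasure (volume : Measure Ω)]
  {X : Sym2 (ℤ × ℤ) → Ω → ℝ}

/-- the trivial lower bound for the transforms along a direction -/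
theorem phi_low (hX : Iid X) {lam : ℝ} (hl : 0 ≤ lam) (v : V) {m δ : ℝ} (hδ : 0 < δ)
    (hlim : ∀ᵐ ω ∂(volume : Measure Ω),
      Tendsto (fun n : ℕ => D (env X ω) 0 ((n : ℤ) • v) / (n : ℝ)) atTop (𝓝 m)) :
    ∀ᶠ n : ℕ in atTop, ENNReal.ofReal (Real.exp (-(lam * (n * (m + δ)))) / 2) ≤
      phi X lam ((n : ℤ) • v) 0 := by
  obtain ⟨A, hA⟩ : ∃ A : ℕ → Set Ω, A = fun N => {ω | ∀ n : ℕ, N ≤ n →
      D (env X ω) 0 ((n : ℤ) • v) ≤ n * (m + δ)} := ⟨_, rfl⟩
  have hmono : Monotone A := by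
    intro N M h ω hω
    rw [hA] at hω ⊢
    exact fun n hn => hω n (h.trans hn)
  have hU : (volume : Measure Ω) (⋃ N, A N) = 1 := by
    have h1 : (⋃ N, A N) =ᵐ[(volume : Measure Ω)] (Set.univ : Set Ω) := by
      rw [ae_eq_univ]
      refine measure_mono_null ?_ (ae_iff.1 hlim)
      intro ω hω
      rw [Set.mem_ofPred_eq]
      intro h
      apply hω
      obtain ⟨N, hN⟩ := eventually_atTop.1 (h.eventually_le_const (show m < m + δ by linarith))
      refine Set.mem_iUnion.2 ⟨max N 1, ?_⟩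
      rw [hA]
      intro n hn
      have h2 := hN n ((le_max_left _ _).trans hn)
      have h3 : (0 : ℝ) < n := by
        have : 1 ≤ n := (le_max_right _ _).trans hn
        exact_mod_cast this
      rw [div_le_iff₀ h3] at h2
      linarith
    rw [measure_congr h1, measure_univ]
  have ht := tendsto_measure_iUnion_atTop (μ := (volume : Measure Ω)) hmono
  rw [hU] at ht
  have hhalf : (1 / 2 : ℝ≥0∞) < 1 := by
    rw [one_div]
    exact ENNReal.inv_lt_one.2 (by norm_num)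
  filter_upwards [ht.eventually (lt_mem_nhds hhalf)] with n hn
  have h1 : (1 / 2 : ℝ≥0∞) ≤ (volume : Measure Ω)
      {ω | D (env X ω) 0 ((n : ℤ) • v) ≤ n * (m + δ)} := by
    refine hn.le.trans (measure_mono ?_)
    intro ω hω
    rw [hA] at hω
    exact hω n le_rfl
  have h2 := h1.trans (chernoff hX hl ((n : ℤ) • v) (n * (m + δ)))
  obtain ⟨s, hs⟩ : ∃ s : ℝ, s = lam * (n * (m + δ)) := ⟨_, rfl⟩
  rw [← hs] at h2 ⊢
  have h3 : ENNReal.ofReal (Real.exp (-s) / 2) = ENNReal.ofReal (Real.exp (-s)) * (1 / 2) := by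
    rw [div_eq_mul_inv, ENNReal.ofReal_mul (Real.exp_pos _).le, one_div,
      ENNReal.ofReal_inv_of_pos (by norm_num)]
    norm_num
  rw [h3]
  calc ENNReal.ofReal (Real.exp (-s)) * (1 / 2)
      ≤ ENNReal.ofReal (Real.exp (-s)) * (ENNReal.ofReal (Real.exp s) *
          phi X lam ((n : ℤ) • v) 0) := by gcongr
    _ = phi X lam ((n : ℤ) • v) 0 := by
        rw [← mul_assoc, ← ENNReal.ofReal_mul (Real.exp_pos _).le, ← Real.exp_add,
          neg_add_cancel, Real.exp_zero, ENNReal.ofReal_one, one_mul]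

theorem iter (hX : Iid X) {lam θ : ℝ} (hl : 0 ≤ lam) (hθ : 0 ≤ θ) (μ : Seminorm ℝ (ℝ × ℝ))
    (L : (ℝ × ℝ) →ₗ[ℝ] ℝ) (hL : ∀ x, L x ≤ μ x) {c1 R K : ℝ} (hc1 : 0 ≤ c1) (hK : 0 < K)
    (hR : 1 ≤ R) {Dd : Finset V}
    (hD1 : ∀ a ∈ {v : V | μ (em v) ≤ R}, ∀ b, b ∉ {v : V | μ (em v) ≤ R} → Nb a b → b ∈ Dd)
    (hD2 : ∀ z ∈ Dd, μ (em z) ≤ R + c1) (hD3 : (Dd.card : ℝ) ≤ K * R)
    (hphi : ∀ w : V, phi X lam w 0 ≤ ENNReal.ofReal (Real.exp (-((lam - θ) * μ (em w)))))
    (hz : ∀ z ∈ Dd, phi X lam z 0 ≤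
      ENNReal.ofReal (Real.exp (-3) / (K * R) * Real.exp (-(lam * L (em z))))) :
    ∀ (k : ℕ) (w : V), (k : ℝ) * (R + c1) < μ (em w) → phi X lam w 0 ≤
      ENNReal.ofReal (Real.exp (-(lam * L (em w)) - 3 * k + θ * (μ (em w) + k * (R + c1)))) := by
  intro k
  induction k with
  | zero =>
    intro w _
    refine (hphi w).trans (ENNReal.ofReal_le_ofReal (Real.exp_le_exp.2 ?_))
    have h1 := mul_le_mul_of_nonneg_left (hL (em w)) hl
    push_cast
    linarith
  | succ k ih =>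
    intro w hw
    push_cast at hw
    have hk : 0 ≤ (k : ℝ) * (R + c1) := mul_nonneg (Nat.cast_nonneg k) (by linarith)
    have hwB : w ∉ {v : V | μ (em v) ≤ R} := by
      intro h
      have h' : μ (em w) ≤ R := h
      nlinarith
    have h0B : (0 : V) ∈ {v : V | μ (em v) ≤ R} := by
      have : em 0 = 0 := by
        unfold Pool.Agent.N662.FP.em
        simp
      show μ (em 0) ≤ R
      rw [this, map_zero]
      linarith
    refine (phi_le_sum hX hl hD1 hwB h0B).trans ?_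
    have hKR : 0 < K * R := mul_pos hK (by linarith)
    obtain ⟨A, hA⟩ : ∃ A : ℝ, A = Real.exp (-(lam * L (em w)) - 3 * ((k + 1 : ℕ) : ℝ) +
      θ * (μ (em w) + ((k + 1 : ℕ) : ℝ) * (R + c1))) := ⟨_, rfl⟩
    have hA0 : 0 < A := by rw [hA]; exact Real.exp_pos _
    rw [← hA]
    have hterm : ∀ z ∈ Dd, phi X lam z 0 * phi X lam w z ≤ ENNReal.ofReal (A / (K * R)) := by
      intro z hzD
      have e : phi X lam w z = phi X lam (w - z) 0 := by
        rw [← phi_shift hX hl z (w - z)]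
        congr 1
        abel
      have e2 : em w = em (w - z) + em z := by rw [em_sub]; abel
      have h2 : μ (em w) ≤ μ (em (w - z)) + μ (em z) := by
        rw [e2]
        exact map_add_le_add μ _ _
      have h3 := hD2 z hzD
      have h4 : μ (em (w - z)) ≤ μ (em w) + μ (em z) := by
        rw [em_sub]
        exact map_sub_le_add μ _ _
      have h5 := ih (w - z) (by linarith)
      rw [e]
      refine (mul_le_mul' (hz z hzD) h5).trans ?_
      rw [← ENNReal.ofReal_mul (by positivity)]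
      refine ENNReal.ofReal_le_ofReal ?_
      have h6 : ∀ a b c d : ℝ, Real.exp a / d * Real.exp b * Real.exp c =
          Real.exp (a + b + c) / d := by
        intro a b c d
        rw [Real.exp_add, Real.exp_add]
        ring
      rw [h6, hA]
      refine div_le_div_of_nonneg_right (Real.exp_le_exp.2 ?_) hKR.le
      have h7 : L (em w) = L (em (w - z)) + L (em z) := by
        rw [e2, map_add]
      rw [h7]
      push_cast
      have h8 : θ * μ (em (w - z)) ≤ θ * (μ (em w) + (R + c1)) :=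
        mul_le_mul_of_nonneg_left (by linarith) hθ
      nlinarith
    calc ∑ z ∈ Dd, phi X lam z 0 * phi X lam w z ≤ ∑ _z ∈ Dd, ENNReal.ofReal (A / (K * R)) :=
          Finset.sum_le_sum hterm
      _ = ENNReal.ofReal (Dd.card * (A / (K * R))) := by
          rw [Finset.sum_const, nsmul_eq_mul, ENNReal.ofReal_mul (Nat.cast_nonneg _),
            ENNReal.ofReal_natCast]
      _ ≤ ENNReal.ofReal A := by
          refine ENNReal.ofReal_le_ofReal ?_
          rw [mul_div_assoc', div_le_iff₀ hKR]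
          nlinarith

/-- a lattice point almost in the direction of contact -/
theorem near (μ : Seminorm ℝ (ℝ × ℝ)) (hμ : ∀ x, μ x = 0 → x = 0) (L : (ℝ × ℝ) →ₗ[ℝ] ℝ)
    (hL : ∀ x, L x ≤ μ x) (u : ℝ × ℝ) (hu : L u = μ u) (hu0 : 0 < μ u) :
    ∃ C : ℝ, 0 < C ∧ ∀ M : ℝ, ∃ w : V, M ≤ μ (em w) ∧ μ (em w) - L (em w) ≤ C := by
  obtain ⟨c, C, hc, hC, hcC⟩ := cNORM μ hμ
  refine ⟨C, hC, fun M => ?_⟩
  obtain ⟨t, ht⟩ : ∃ t : ℝ, t = (|M| + C) / μ u := ⟨_, rfl⟩
  have ht0 : 0 ≤ t := by rw [ht]; positivity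
  obtain ⟨w, hw⟩ : ∃ w : V, w = (round (t * u.1), round (t * u.2)) := ⟨_, rfl⟩
  have hd : μ (em w - t • u) ≤ C / 2 := by
    refine ((hcC _).2).trans ?_
    have h1 : |((em w - t • u).1)| ≤ 1 / 2 := by
      have : (em w - t • u).1 = (round (t * u.1) : ℝ) - t * u.1 := by
        rw [hw]
        rfl
      rw [this, abs_sub_comm]
      exact abs_sub_round _
    have h2 : |((em w - t • u).2)| ≤ 1 / 2 := by
      have : (em w - t • u).2 = (round (t * u.2) : ℝ) - t * u.2 := by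
        rw [hw]
        rfl
      rw [this, abs_sub_comm]
      exact abs_sub_round _
    have h3 : max |((em w - t • u).1)| |((em w - t • u).2)| ≤ 1 / 2 := max_le h1 h2
    calc C * max |((em w - t • u).1)| |((em w - t • u).2)| ≤ C * (1 / 2) :=
          mul_le_mul_of_nonneg_left h3 hC.le
      _ = C / 2 := by ring
  have htu : μ (t • u) = t * μ u := by
    rw [map_smul_eq_mul, Real.norm_of_nonneg ht0]
  have hLt : L (t • u) = t * μ u := by rw [map_smul, smul_eq_mul, hu]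
  have h1 : μ (t • u) ≤ μ (em w) + μ (em w - t • u) := by
    have e : t • u = em w - (em w - t • u) := by abel
    calc μ (t • u) = μ (em w - (em w - t • u)) := by rw [← e]
      _ ≤ _ := map_sub_le_add μ _ _
  have h2 : μ (em w) ≤ μ (t • u) + μ (em w - t • u) := by
    have e : em w = t • u + (em w - t • u) := by abel
    calc μ (em w) = μ (t • u + (em w - t • u)) := by rw [← e]
      _ ≤ _ := map_add_le_add μ _ _
  have h3 : L (t • u) ≤ L (em w) + C / 2 := by
    have e : t • u = em w + (t • u - em w) := by abel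
    have h4 : L (t • u - em w) ≤ C / 2 := by
      refine (hL _).trans ?_
      rw [map_sub_rev]
      exact hd
    calc L (t • u) = L (em w + (t • u - em w)) := by rw [← e]
      _ = L (em w) + L (t • u - em w) := map_add _ _ _
      _ ≤ _ := by linarith
  refine ⟨w, ?_, ?_⟩
  · have h5 : t * μ u = |M| + C := by
      rw [ht]
      field_simp
    have := le_abs_self M
    linarith
  · linarith

/-- some point of the boundary carries a large weight -/
theorem exists_big (hX : Iid X) {lam θ : ℝ} (hl : 0 < lam) (hθ : 0 ≤ θ) (μ : Seminorm ℝ (ℝ × ℝ))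
    (hμ : ∀ x, μ x = 0 → x = 0)
    (hlim : ∀ v : V, ∀ᵐ ω ∂(volume : Measure Ω),
      Tendsto (fun n : ℕ => D (env X ω) 0 ((n : ℤ) • v) / (n : ℝ)) atTop (𝓝 (μ (em v))))
    (L : (ℝ × ℝ) →ₗ[ℝ] ℝ) (hL : ∀ x, L x ≤ μ x) (u : ℝ × ℝ) (hu : L u = μ u) (hu0 : 0 < μ u)
    {c1 R K : ℝ} (hc1 : 0 ≤ c1) (hK : 0 < K) (hR : 1 ≤ R) {Dd : Finset V}
    (hD1 : ∀ a ∈ {v : V | μ (em v) ≤ R}, ∀ b, b ∉ {v : V | μ (em v) ≤ R} → Nb a b → b ∈ Dd)
    (hD2 : ∀ z ∈ Dd, μ (em z) ≤ R + c1) (hD3 : (Dd.card : ℝ) ≤ K * R)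
    (hphi : ∀ w : V, phi X lam w 0 ≤ ENNReal.ofReal (Real.exp (-((lam - θ) * μ (em w)))))
    (hθR : θ * (R + c1) ≤ 1) :
    ∃ z ∈ Dd, ENNReal.ofReal (Real.exp (-3) / (K * R) * Real.exp (-(lam * L (em z)))) <
      phi X lam z 0 := by
  by_contra hcon
  have hz : ∀ z ∈ Dd, phi X lam z 0 ≤
      ENNReal.ofReal (Real.exp (-3) / (K * R) * Real.exp (-(lam * L (em z)))) := by
    intro z hz
    by_contra h
    exact hcon ⟨z, hz, not_le.1 h⟩
  have hit := iter hX hl.le hθ μ L hL hc1 hK hR hD1 hD2 hD3 hphi hz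
  obtain ⟨ρ, hρ⟩ : ∃ ρ : ℝ, ρ = R + c1 := ⟨_, rfl⟩
  have hρ0 : 0 < ρ := by rw [hρ]; linarith
  rw [← hρ] at hit hθR
  obtain ⟨C, hC, hw⟩ := near μ hμ L hL u hu hu0
  obtain ⟨w, hw1, hw2⟩ := hw (4 * ρ * (lam * C) + 1)
  have hm0 : 0 < μ (em w) := by
    have : 0 < 4 * ρ * (lam * C) := by positivity
    linarith
  obtain ⟨m, hm⟩ : ∃ m : ℝ, m = μ (em w) := ⟨_, rfl⟩
  rw [← hm] at hw1 hw2 hm0
  have hgap : lam * (m - L (em w)) ≤ m / (4 * ρ) := by
    rw [le_div_iff₀ (by positivity)]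
    have h1 : lam * (m - L (em w)) ≤ lam * C := mul_le_mul_of_nonneg_left hw2 hl.le
    nlinarith
  obtain ⟨δ, hδ⟩ : ∃ δ : ℝ, δ = m / (4 * ρ * lam) := ⟨_, rfl⟩
  have hδ0 : 0 < δ := by rw [hδ]; positivity
  have hlow := phi_low hX hl.le w hδ0 (hlim w)
  have hlarge : ∀ᶠ n : ℕ in atTop, 3 < (n : ℝ) * (m / (2 * ρ)) := by
    have : Tendsto (fun n : ℕ => (n : ℝ) * (m / (2 * ρ))) atTop atTop :=
      tendsto_natCast_atTop_atTop.atTop_mul_const (by positivity)
    exact this.eventually_gt_atTop 3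
  obtain ⟨n, hn1, hn2, hn3⟩ := (hlow.and (hlarge.and (eventually_ge_atTop 1))).exists
  have hn0 : (0 : ℝ) < n := by exact_mod_cast hn3
  have hnm : 0 < n * m / ρ := by positivity
  obtain ⟨k, hk⟩ : ∃ k : ℕ, k + 1 = ⌈n * m / ρ⌉₊ := by
    have : 0 < ⌈n * m / ρ⌉₊ := Nat.ceil_pos.2 hnm
    exact ⟨⌈n * m / ρ⌉₊ - 1, by omega⟩
  have hk1 : n * m / ρ ≤ (k : ℝ) + 1 := by
    have := Nat.le_ceil (n * m / ρ)
    rw [← hk] at this
    exact_mod_cast this
  have hk2 : (k : ℝ) < n * m / ρ := by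
    have h1 : k < ⌈n * m / ρ⌉₊ := by omega
    exact Nat.lt_ceil.1 h1
  have hμn : μ (em ((n : ℤ) • w)) = n * m := by rw [em_nsmul, hm]
  have hLn : L (em ((n : ℤ) • w)) = n * L (em w) := by
    rw [em_smul, map_smul, smul_eq_mul]
  have hup := hit k ((n : ℤ) • w) (by
    rw [hμn]
    rw [lt_div_iff₀ hρ0] at hk2
    exact hk2)
  have hfin := hn1.trans hup
  rw [ENNReal.ofReal_le_ofReal_iff (Real.exp_pos _).le, hμn, hLn, ← hm] at hfin
  have hlog : Real.exp (-(lam * (n * (m + δ))) - 1) ≤ Real.exp (-(lam * (n * (m + δ)))) / 2 := by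
    rw [Real.exp_sub, div_le_div_iff₀ (Real.exp_pos _) (by norm_num)]
    have h1 : (2 : ℝ) ≤ Real.exp 1 := by
      have := Real.add_one_le_exp (1 : ℝ)
      linarith
    have := Real.exp_pos (-(lam * (n * (m + δ))))
    nlinarith
  have h9 := Real.exp_le_exp.1 (hlog.trans hfin)
  have hθ1 : θ * (n * m + k * ρ) ≤ 2 * k + 1 := by
    have h1 : n * m ≤ (k + 1) * ρ := by
      rw [div_le_iff₀ hρ0] at hk1
      exact hk1
    have h2 : n * m + k * ρ ≤ (2 * k + 1) * ρ := by linarith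
    calc θ * (n * m + k * ρ) ≤ θ * ((2 * k + 1) * ρ) := mul_le_mul_of_nonneg_left h2 hθ
      _ = (2 * k + 1) * (θ * ρ) := by ring
      _ ≤ (2 * k + 1) * 1 := mul_le_mul_of_nonneg_left hθR (by positivity)
      _ = _ := by ring
  have hδ1 : lam * (n * (m + δ)) = n * (lam * m) + n * (m / (4 * ρ)) := by
    rw [hδ]
    field_simp
  rw [hδ1] at h9
  have h10 : (n : ℝ) * (lam * (m - L (em w))) ≤ n * (m / (4 * ρ)) :=
    mul_le_mul_of_nonneg_left hgap hn0.le
  have h11 : (n : ℝ) * (m / (4 * ρ)) = n * m / ρ / 4 := by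
    field_simp
  have h12 : (n : ℝ) * (m / (2 * ρ)) = n * m / ρ / 2 := by
    field_simp
  rw [h11] at h9 h10
  rw [h12] at hn2
  have h13 : (n : ℝ) * (lam * (m - L (em w))) = n * (lam * m) - lam * (n * L (em w)) := by ring
  rw [h13] at h10
  linarith

end U874.FL
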