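import Pool.Agent.U874.FL.OS

/-!
# No exponent larger than four fifths
-/

set_option autoImplicit false
set_option linter.unusedSectionVars false
open MeasureTheory ProbabilityTheory Filter Set
open scoped ENNReal Topology

namespace U874.FL

open Pool.Agent.N662.FP
open Pool.Agent.U874.FP

variable {Ω : Type} [MeasureSpace Ω] [IsProbabilityMeasure (volume : Measure Ω)]
  {X : Sym2 (ℤ × ℤ) → Ω → ℝ}

/-- powers beat powers -/
theorem pw {s t : ℝ} (h : s < t) (A : ℝ) : ∀ᶠ R : ℝ in atTop, A * R ^ s ≤ R ^ t := by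
  have h1 := (tendsto_rpow_atTop (show 0 < t - s by linarith)).eventually_ge_atTop A
  filter_upwards [h1, eventually_gt_atTop (0 : ℝ)] with R h2 h3
  calc A * R ^ s ≤ R ^ (t - s) * R ^ s := mul_le_mul_of_nonneg_right h2 (Real.rpow_nonneg h3.le _)
    _ = R ^ t := by
        rw [← Real.rpow_add h3]
        congr 1
        ring

/-- exponentials of powers beat powers -/
theorem ep {s : ℝ} (hs : 0 < s) (A k : ℝ) : ∀ᶠ R : ℝ in atTop, A * R ^ k ≤ Real.exp (R ^ s) := by
  have h1 := (tendsto_rpow_mul_exp_neg_mul_atTop_nhds_zero (k / s) 1 one_pos).comp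
    (tendsto_rpow_atTop hs)
  have h2 := h1.const_mul A
  rw [mul_zero] at h2
  filter_upwards [h2.eventually_le_const one_pos, eventually_gt_atTop (0 : ℝ)] with R h3 h4
  simp only [Function.comp] at h3
  have e1 : (R ^ s) ^ (k / s) = R ^ k := by
    rw [← Real.rpow_mul h4.le]
    congr 1
    field_simp
  rw [e1, neg_one_mul, Real.exp_neg, ← mul_assoc, ← div_eq_mul_inv,
    div_le_one (Real.exp_pos _)] at h3
  exact h3

/-- a bound for the transform at `2 lam` gives one at `lam` -/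
theorem phi_half (hX : Iid X) {lam r : ℝ} (hl : 0 ≤ lam) (w : V)
    (h : phi X (2 * lam) w 0 ≤ ENNReal.ofReal (Real.exp (-(2 * r)))) :
    phi X lam w 0 ≤ ENNReal.ofReal (Real.exp (-r)) := by
  obtain ⟨s, hs⟩ : ∃ s : ℝ, s = Real.exp (-r) := ⟨_, rfl⟩
  have hs0 : 0 < s := by rw [hs]; exact Real.exp_pos _
  have hs2 : Real.exp (-(2 * r)) = s ^ 2 := by
    rw [hs, ← Real.exp_nat_mul]
    congr 1
    push_cast
    ring
  rw [hs2] at h
  rw [← hs]
  have key : ∀ᵐ ω ∂(volume : Measure Ω), W lam w 0 (env X ω) ≤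
      ENNReal.ofReal (s / 2) + ENNReal.ofReal (1 / (2 * s)) * W (2 * lam) w 0 (env X ω) := by
    filter_upwards [cAE Ω X hX] with ω hω
    rw [W_eq cGE hl hω, W_eq cGE (mul_nonneg zero_le_two hl) hω]
    unfold ex
    rw [← ENNReal.ofReal_mul (by positivity), ← ENNReal.ofReal_add (by positivity) (by positivity)]
    refine ENNReal.ofReal_le_ofReal ?_
    obtain ⟨x, hx⟩ : ∃ x : ℝ, x = Real.exp (-(lam * D (env X ω) 0 w)) := ⟨_, rfl⟩
    have hx2 : Real.exp (-(2 * lam * D (env X ω) 0 w)) = x ^ 2 := by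
      rw [hx, ← Real.exp_nat_mul]
      congr 1
      push_cast
      ring
    rw [hx2, ← hx]
    have h1 : s / 2 + 1 / (2 * s) * x ^ 2 - x = (x - s) ^ 2 / (2 * s) := by
      field_simp
      ring
    have h2 : 0 ≤ (x - s) ^ 2 / (2 * s) := by positivity
    linarith
  calc phi X lam w 0 ≤ ∫⁻ ω, (ENNReal.ofReal (s / 2) +
        ENNReal.ofReal (1 / (2 * s)) * W (2 * lam) w 0 (env X ω)) ∂(volume : Measure Ω) :=
        lintegral_mono_ae key
    _ = ENNReal.ofReal (s / 2) + ENNReal.ofReal (1 / (2 * s)) * phi X (2 * lam) w 0 := by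
        rw [lintegral_add_left measurable_const, lintegral_const, measure_univ, mul_one,
          lintegral_const_mul _ (meas_W hX _ w 0)]
        rfl
    _ ≤ ENNReal.ofReal (s / 2) + ENNReal.ofReal (1 / (2 * s)) * ENNReal.ofReal (s ^ 2) := by
        gcongr
    _ = ENNReal.ofReal s := by
        rw [← ENNReal.ofReal_mul (by positivity), ← ENNReal.ofReal_add (by positivity)
          (by positivity)]
        congr 1
        field_simp
        norm_num

/-- for `a > 5` and every small `lam`, some transform is larger than the bound of order `a` -/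
theorem every (hX : Iid X) (μ : Seminorm ℝ (ℝ × ℝ)) (hμ : ∀ x, μ x = 0 → x = 0)
    (hlim : ∀ v : V, ∀ᵐ ω ∂(volume : Measure Ω),
      Tendsto (fun n : ℕ => D (env X ω) 0 ((n : ℤ) • v) / (n : ℝ)) atTop (𝓝 (μ (em v))))
    {a : ℝ} (ha : 5 < a) : ∃ l0 : ℝ, 0 < l0 ∧ ∀ lam : ℝ, 0 < lam → lam < l0 → ∃ w : V,
      ENNReal.ofReal (Real.exp (-((lam - lam ^ a) * μ (em w)))) < phi X lam w 0 := by
  obtain ⟨A, hA, hos⟩ := one_scale hX μ hμ hlim
  have hA0 : 0 < A := by linarith
  have ha0 : 0 < a := by linarith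
  have hinv : 1 / a < 1 / 5 := one_div_lt_one_div_of_lt (by norm_num) ha
  have hinv0 : 0 < 1 / a := by positivity
  obtain ⟨β, hβ⟩ : ∃ β : ℝ, β = (1 / a + 1 / 5) / 2 := ⟨_, rfl⟩
  have hβ0 : 0 < β := by rw [hβ]; linarith
  have hβ1 : β < 1 / 5 := by rw [hβ]; linarith
  have hβa : 1 < a * β := by
    have h1 : 1 / a < β := by rw [hβ]; linarith
    rw [div_lt_iff₀ ha0] at h1
    linarith
  obtain ⟨δ, hδ⟩ : ∃ δ : ℝ, δ = (1 - 5 * β) / 2 := ⟨_, rfl⟩
  have hδ0 : 0 < δ := by rw [hδ]; linarith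
  have hδ1 : δ < 1 / 2 := by rw [hδ]; linarith
  -- the conditions
  have c2 := pw (show 1 - a * β < 0 by linarith) (11 * 2 ^ a)
  have c3 := pw (show -β < 0 by linarith) 2
  have c4 := ep hδ0 A 3
  have c5 := pw (show (1 - β : ℝ) < 1 by linarith) (4 * A)
  have c6 := ep (show (0 : ℝ) < 1 / 2 by norm_num) A 1
  have c7 := pw (show (1 / 2 : ℝ) < 1 by norm_num) (2 * A)
  have c8 := ep (show (0 : ℝ) < δ / 4 by linarith) (A + 1) 2
  have c9 := pw (show (δ / 4 : ℝ) < δ / 2 by linarith) A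
  obtain ⟨R0, hR0⟩ := eventually_atTop.1 ((eventually_ge_atTop (max A 1)).and
    (c2.and (c3.and (c4.and (c5.and (c6.and (c7.and (c8.and c9))))))))
  obtain ⟨R1, hR1⟩ : ∃ R1 : ℝ, R1 = max R0 1 := ⟨_, rfl⟩
  have hR11 : 1 ≤ R1 := by rw [hR1]; exact le_max_right _ _
  refine ⟨2 * R1 ^ (-β), by positivity, ?_⟩
  intro lam' hlam'0 hlam'1
  obtain ⟨lam, hlamd⟩ : ∃ lam : ℝ, lam = lam' / 2 := ⟨_, rfl⟩
  have hl : 0 < lam := by rw [hlamd]; positivity
  have hlam2 : lam' = 2 * lam := by rw [hlamd]; ring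
  rw [hlam2]
  by_contra hcon
  push Not at hcon
  obtain ⟨R, hRd⟩ : ∃ R : ℝ, R = lam ^ (-(1 / β)) := ⟨_, rfl⟩
  have hRp : 0 < R := by rw [hRd]; positivity
  have hlam : lam = R ^ (-β) := by
    rw [hRd, ← Real.rpow_mul hl.le]
    have : -(1 / β) * -β = 1 := by field_simp
    rw [this, Real.rpow_one]
  have hRR : R1 ≤ R := by
    have h1 : R ^ (-β) ≤ R1 ^ (-β) := by
      rw [← hlam]
      linarith
    rw [Real.rpow_neg hRp.le, Real.rpow_neg (by linarith),
      inv_le_inv₀ (by positivity) (by positivity)] at h1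
    exact (Real.rpow_le_rpow_iff (by linarith) hRp.le hβ0).1 h1
  obtain ⟨d0, d2, d3, d4, d5, d6, d7, d8, d9⟩ := hR0 R
    ((by rw [hR1]; exact le_max_left _ _ : R0 ≤ R1).trans hRR)
  have hAR : A ≤ R := (le_max_left _ _).trans d0
  have hR1' : 1 ≤ R := (le_max_right _ _).trans d0
  have hR0' : 0 < R := by linarith
  rw [Real.rpow_zero] at d2 d3
  rw [Real.rpow_one] at d5 d6 d7
  obtain ⟨H, hH⟩ : ∃ H : ℝ, H = R ^ (β + δ) := ⟨_, rfl⟩
  have hH0 : 0 < H := by rw [hH]; positivity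
  have hlH : lam * H = R ^ δ := by
    rw [hlam, hH, ← Real.rpow_add hR0']
    congr 1
    ring
  have hla : lam ^ a * R = R ^ (1 - a * β) := by
    rw [hlam, ← Real.rpow_mul hR0'.le, ← Real.rpow_add_one hR0'.ne']
    congr 1
    ring
  have hlR : lam * R = R ^ (1 - β) := by
    rw [hlam, ← Real.rpow_add_one hR0'.ne']
    congr 1
    ring
  have h2la : (2 * lam) ^ a * R = 2 ^ a * R ^ (1 - a * β) := by
    rw [Real.mul_rpow (by norm_num) hl.le, mul_assoc, hla]
  have h2la0 : 0 ≤ 2 ^ a * R ^ (1 - a * β) := by positivity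
  have key := hos R lam ((2 * lam) ^ a / 2) ((2 * lam) ^ a) H hAR hl (by
      rw [hlam]
      linarith) (by positivity) (by positivity) hH0.le (by
      have : 11 * ((2 * lam) ^ a / 2) * R = 11 / 2 * ((2 * lam) ^ a * R) := by ring
      rw [this, h2la]
      linarith) (by
      have : 2 * (2 * lam) ^ a * R = 2 * ((2 * lam) ^ a * R) := by ring
      rw [this, h2la]
      linarith) (by
      rw [hH]
      calc R ^ (β + δ) ≤ R ^ (1 : ℝ) := Real.rpow_le_rpow_of_exponent_le hR1' (by linarith)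
        _ = R := Real.rpow_one R) (by
      have h1 : 1 ≤ H := by
        rw [hH]
        exact Real.one_le_rpow hR1' (by linarith)
      nlinarith) (fun w => by
        refine phi_half hX hl.le w ?_
        have e : 2 * ((lam - (2 * lam) ^ a / 2) * μ (em w)) =
          (2 * lam - (2 * lam) ^ a) * μ (em w) := by ring
        rw [e]
        exact hcon w) hcon (by
      rw [hlH]
      have h1 : R ^ (3 : ℝ) = R ^ 3 := by
        rw [← Real.rpow_natCast]
        norm_num
      rw [h1] at d4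
      exact d4) (by
      -- `A R exp (2 λ R) ≤ exp (R / A)`
      have h1 : 2 * lam * R ≤ R / A / 2 := by
        rw [le_div_iff₀ (by norm_num), le_div_iff₀ hA0]
        rw [← hlR] at d5
        linarith
      have h2 : R ^ (1 / 2 : ℝ) ≤ R / A / 2 := by
        rw [le_div_iff₀ (by norm_num), le_div_iff₀ hA0]
        linarith
      calc A * R * Real.exp (2 * lam * R) ≤ Real.exp (R ^ (1 / 2 : ℝ)) *
            Real.exp (2 * lam * R) := mul_le_mul_of_nonneg_right d6 (Real.exp_pos _).le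
        _ ≤ Real.exp (R / A / 2) * Real.exp (R / A / 2) :=
            mul_le_mul (Real.exp_le_exp.2 h2) (Real.exp_le_exp.2 h1) (Real.exp_pos _).le
              (Real.exp_pos _).le
        _ = Real.exp (R / A) := by
            rw [← Real.exp_add]
            congr 1
            ring)
  -- the contradiction
  have e1 : R ^ (δ / 4) ≤ lam ^ 2 * R / (A * Real.sqrt (R * H)) := by
    have g1 : Real.sqrt (R * H) = R ^ ((1 + β + δ) / 2) := by
      rw [hH, Real.sqrt_eq_rpow]
      have : R * R ^ (β + δ) = R ^ (1 + β + δ) := by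
        rw [← Real.rpow_one_add' hR0'.le (by linarith)]
        congr 1
        ring
      rw [this, ← Real.rpow_mul hR0'.le]
      congr 1
      ring
    rw [g1, le_div_iff₀ (by positivity)]
    have g2 : lam ^ 2 * R = R ^ (1 - 2 * β) := by
      rw [hlam, ← Real.rpow_natCast, ← Real.rpow_mul hR0'.le, ← Real.rpow_add_one hR0'.ne']
      congr 1
      push_cast
      ring
    rw [g2]
    calc R ^ (δ / 4) * (A * R ^ ((1 + β + δ) / 2)) = (A * R ^ (δ / 4)) * R ^ ((1 + β + δ) / 2) := by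
          ring
      _ ≤ R ^ (δ / 2) * R ^ ((1 + β + δ) / 2) :=
          mul_le_mul_of_nonneg_right d9 (by positivity)
      _ = R ^ (1 - 2 * β) := by
          rw [← Real.rpow_add hR0']
          congr 1
          rw [hδ]
          ring
  have e2 : (A + 1) * R ^ 2 ≤ A * R ^ 2 := by
    have h1 : R ^ (2 : ℝ) = R ^ 2 := by
      rw [← Real.rpow_natCast]
      norm_num
    rw [h1] at d8
    exact d8.trans ((Real.exp_le_exp.2 e1).trans key)
  have e3 : 0 < R ^ 2 := by positivity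
  nlinarith

/-- the bounds of the bootstrap are impossible for `a > 5` -/
theorem no_boot (hX : Iid X) (μ : Seminorm ℝ (ℝ × ℝ)) (hμ : ∀ x, μ x = 0 → x = 0)
    (hlim : ∀ v : V, ∀ᵐ ω ∂(volume : Measure Ω),
      Tendsto (fun n : ℕ => D (env X ω) 0 ((n : ℤ) • v) / (n : ℝ)) atTop (𝓝 (μ (em v))))
    {a : ℝ} (ha : 5 < a) (h : ∃ C0 : ℝ, 0 < C0 ∧ ∀ lam : ℝ, 0 < lam → ∀ w : V,
      phi X lam w 0 ≤ ENNReal.ofReal (Real.exp (-((lam - C0 * lam ^ a) * μ (em w))))) : False := by
  obtain ⟨C0, hC0, h⟩ := h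
  obtain ⟨b, hb1, hb2⟩ : ∃ b : ℝ, 5 < b ∧ b < a := ⟨(5 + a) / 2, by linarith, by linarith⟩
  obtain ⟨l0, hl0, hev⟩ := every hX μ hμ hlim hb1
  have h1 := pw (show -a < -b by linarith) C0
  obtain ⟨R, h2, h3⟩ := (h1.and (eventually_gt_atTop (1 / l0))).exists
  have hR : 0 < R := lt_trans (by positivity) h3
  obtain ⟨lam, hlam⟩ : ∃ lam : ℝ, lam = 1 / R := ⟨_, rfl⟩
  have hl : 0 < lam := by rw [hlam]; positivity
  have hll : lam < l0 := by
    rw [hlam, div_lt_iff₀ hR]
    rw [div_lt_iff₀ hl0] at h3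
    linarith
  obtain ⟨w, hw⟩ := hev lam hl hll
  refine absurd (h lam hl w) (not_le.2 (lt_of_le_of_lt ?_ hw))
  refine ENNReal.ofReal_le_ofReal (Real.exp_le_exp.2 (neg_le_neg ?_))
  refine mul_le_mul_of_nonneg_right ?_ (apply_nonneg μ _)
  have e : ∀ s : ℝ, lam ^ s = R ^ (-s) := by
    intro s
    rw [hlam, one_div, Real.inv_rpow hR.le, Real.rpow_neg hR.le]
  rw [e, e]
  linarith

end U874.FL
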