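import Pool.Agent.U874.FL.Itr
import Pool.Agent.U874.FL.Gn
import Pool.Agent.U874.FL.Geo2

/-!
# One scale
-/

set_option autoImplicit false
set_option linter.unusedSectionVars false
open MeasureTheory ProbabilityTheory Filter Set
open scoped ENNReal Topology

namespace U874.FL

open Pool.Agent.N662.FP
open Pool.Agent.U874.FP

theorem cs {p q : ℝ} (hpq : p ^ 2 + q ^ 2 = 1) (x : ℝ × ℝ) :
    p * x.1 + q * x.2 ≤ Real.sqrt (x.1 ^ 2 + x.2 ^ 2) := by
  refine Real.le_sqrt_of_sq_le ?_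
  have h1 : (p * x.1 + q * x.2) ^ 2 + (p * x.2 - q * x.1) ^ 2 = x.1 ^ 2 + x.2 ^ 2 := by
    calc (p * x.1 + q * x.2) ^ 2 + (p * x.2 - q * x.1) ^ 2
        = (p ^ 2 + q ^ 2) * (x.1 ^ 2 + x.2 ^ 2) := by ring
      _ = _ := by rw [hpq, one_mul]
  have := sq_nonneg (p * x.2 - q * x.1)
  linarith

theorem box (μ : Seminorm ℝ (ℝ × ℝ)) {c C : ℝ} (hc : 0 < c)
    (hcC : ∀ x, c * max |x.1| |x.2| ≤ μ x ∧ μ x ≤ C * max |x.1| |x.2|) {R : ℝ} (hR : 1 ≤ R) :
    ∃ Bx : Finset V, (∀ y : V, y ∈ Bx ↔ μ (em y) ≤ 4 * R) ∧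
      (Bx.card : ℝ) ≤ (2 * (4 / c + 1) + 1) ^ 2 * R ^ 2 := by
  classical
  obtain ⟨M, hM⟩ : ∃ M : ℕ, M = ⌈4 * R / c⌉₊ := ⟨_, rfl⟩
  have hM1 : 4 * R / c ≤ M := by rw [hM]; exact Nat.le_ceil _
  have hM2 : (M : ℝ) < 4 * R / c + 1 := by
    rw [hM]
    exact Nat.ceil_lt_add_one (by positivity)
  obtain ⟨I, hI⟩ : ∃ I : Finset ℤ, I = Finset.Icc (-(M : ℤ)) M := ⟨_, rfl⟩
  have hIc : (I.card : ℝ) ≤ (2 * (4 / c + 1) + 1) * R := by
    have h1 : I.card = 2 * M + 1 := by
      rw [hI, Int.card_Icc]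
      omega
    rw [h1]
    push_cast
    have h2 : 4 * R / c = 4 / c * R := by ring
    rw [h2] at hM2
    nlinarith
  refine ⟨(I ×ˢ I).filter fun z : V => μ (em z) ≤ 4 * R, ?_, ?_⟩
  · intro z
    rw [Finset.mem_filter]
    refine ⟨fun h => h.2, fun hz => ⟨?_, hz⟩⟩
    have h1 := (hcC (em z)).1
    have h2 : max |(z.1 : ℝ)| |(z.2 : ℝ)| ≤ M := by
      refine le_trans ?_ hM1
      rw [le_div_iff₀ hc, mul_comm]
      exact h1.trans hz
    have h3 : |(z.1 : ℝ)| ≤ M := (le_max_left _ _).trans h2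
    have h4 : |(z.2 : ℝ)| ≤ M := (le_max_right _ _).trans h2
    rw [abs_le] at h3 h4
    rw [hI, Finset.mem_product, Finset.mem_Icc, Finset.mem_Icc]
    refine ⟨⟨?_, ?_⟩, ?_, ?_⟩
    · exact_mod_cast h3.1
    · exact_mod_cast h3.2
    · exact_mod_cast h4.1
    · exact_mod_cast h4.2
  · have h1 : ((I ×ˢ I).filter fun z : V => μ (em z) ≤ 4 * R).card ≤ I.card * I.card := by
      refine (Finset.card_filter_le _ _).trans ?_
      rw [Finset.card_product]
    have h2 : (((I ×ˢ I).filter fun z : V => μ (em z) ≤ 4 * R).card : ℝ) ≤ I.card * I.card := by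
      exact_mod_cast h1
    refine h2.trans ?_
    have h3 : (0 : ℝ) ≤ I.card := Nat.cast_nonneg _
    calc (I.card : ℝ) * I.card ≤ ((2 * (4 / c + 1) + 1) * R) * ((2 * (4 / c + 1) + 1) * R) :=
          mul_le_mul hIc hIc h3 (by positivity)
      _ = _ := by ring

variable {Ω : Type} [MeasureSpace Ω] [IsProbabilityMeasure (volume : Measure Ω)]
  {X : Sym2 (ℤ × ℤ) → Ω → ℝ}

/-- the part of the transform carried by the tube -/
theorem tube (hX : Iid X) (μ : Seminorm ℝ (ℝ × ℝ)) (hμ : ∀ x, μ x = 0 → x = 0)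
    (hlim : ∀ v : V, ∀ᵐ ω ∂(volume : Measure Ω),
      Tendsto (fun n : ℕ => D (env X ω) 0 ((n : ℤ) • v) / (n : ℝ)) atTop (𝓝 (μ (em v))))
    {c C c1 K p q m : ℝ} (hc : 0 < c)
    (hcC : ∀ x, c * max |x.1| |x.2| ≤ μ x ∧ μ x ≤ C * max |x.1| |x.2|)
    (hc1 : 0 < c1) (hK : 0 < K)
    (hgeo : ∀ R : ℝ, 1 ≤ R → ∃ D : Finset V,
      (∀ a ∈ {v : V | μ (em v) ≤ R}, ∀ b, b ∉ {v : V | μ (em v) ≤ R} → Nb a b → b ∈ D) ∧
      (∀ z ∈ D, R < μ (em z) ∧ μ (em z) ≤ R + c1) ∧ (D.card : ℝ) ≤ K * R)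
    (hpq : p ^ 2 + q ^ 2 = 1) (hm : 0 < m) (hm1 : μ (p, q) = m)
    (hm2 : ∀ x : ℝ × ℝ, m * Real.sqrt (x.1 ^ 2 + x.2 ^ 2) ≤ μ x)
    {R lam θ H : ℝ} (hR : 1 ≤ R) (hRc : 2 * c1 ≤ R) (hl : 0 < lam) (hθ : 0 ≤ θ)
    (hH : H ≤ R) (hθR : 11 * θ * R ≤ 1)
    (hphi : ∀ w : V, phi X lam w 0 ≤ ENNReal.ofReal (Real.exp (-((lam - θ) * μ (em w)))))
    (hbig : 2 * K * ((2 * (4 / c + 1) + 1) ^ 2 + 4 * K) * Real.exp 4 * R ^ 3 ≤
      Real.exp (lam * H)) :
    ∃ (z : V) (Lz : ℝ) (Tb : Finset V), R < μ (em z) ∧ μ (em z) ≤ R + c1 ∧ Lz ≤ μ (em z) ∧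
      (Tb.card : ℝ) ≤ (2 * (4 * R / m) + 1) * (4 * (Real.sqrt (2 * (4 * R) * H) / m) + 1) ∧
      ENNReal.ofReal (Real.exp (-3) / (2 * (K * R)) * Real.exp (-(lam * Lz))) ≤
        ∫⁻ ω, Wt lam (Tb : Set V) z 0 (env X ω) ∂(volume : Measure Ω) := by
  classical
  have hR0 : 0 < R := by linarith
  obtain ⟨L, hLd⟩ : ∃ L : (ℝ × ℝ) →ₗ[ℝ] ℝ,
      L = m • (p • LinearMap.fst ℝ ℝ ℝ + q • LinearMap.snd ℝ ℝ ℝ) := ⟨_, rfl⟩
  have hLx : ∀ x, L x = m * (p * x.1 + q * x.2) := by
    intro x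
    rw [hLd]
    simp [mul_add]
  have hL0 : ∀ x : ℝ × ℝ, m * Real.sqrt (x.1 ^ 2 + x.2 ^ 2) - m * (p * x.1 + q * x.2) ≤
      μ x - L x := by
    intro x
    rw [hLx]
    have := hm2 x
    linarith
  have hL : ∀ x, L x ≤ μ x := by
    intro x
    rw [hLx]
    exact (mul_le_mul_of_nonneg_left (cs hpq x) hm.le).trans (hm2 x)
  have hLu : L (p, q) = μ (p, q) := by
    rw [hLx, hm1]
    have : p * p + q * q = 1 := by nlinarith
    simp only [this, mul_one]
  obtain ⟨Dd, hD1, hD2, hD3⟩ := hgeo R hR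
  obtain ⟨D4, hE1, hE2, hE3⟩ := hgeo (4 * R) (by linarith)
  obtain ⟨Bx, hB1, hB2⟩ := box μ hc hcC hR
  have hθR' : θ * (R + c1) ≤ 1 := by nlinarith
  obtain ⟨z, hzD, hz⟩ := exists_big hX hl hθ μ hμ hlim L hL (p, q) hLu (by rw [hm1]; exact hm)
    hc1.le hK hR hD1 (fun z hz => (hD2 z hz).2) hD3 hphi hθR'
  obtain ⟨hz1, hz2⟩ := hD2 z hzD
  obtain ⟨Tb, hTb⟩ : ∃ Tb : Finset V,
      Tb = Bx.filter fun y => μ (em y) + μ (em (z - y)) - L (em z) ≤ H := ⟨_, rfl⟩
  obtain ⟨Bd, hBd⟩ : ∃ Bd : Finset V,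
      Bd = (Bx.filter fun y => ¬ (μ (em y) + μ (em (z - y)) - L (em z) ≤ H)) ∪ D4 := ⟨_, rfl⟩
  refine ⟨z, L (em z), Tb, hz1, hz2, hL _, ?_, ?_⟩
  · -- the number of points of the tube
    have hR4 : 0 ≤ 4 * R / m := by positivity
    refine strip hpq Tb hR4 (by positivity) ?_ ?_
    · intro y hy
      rw [hTb, Finset.mem_filter] at hy
      have h1 := (hB1 y).1 hy.1
      have h2 := (hm2 (em y)).trans h1
      have h3 : Real.sqrt ((em y).1 ^ 2 + (em y).2 ^ 2) ≤ 4 * R / m := by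
        rw [le_div_iff₀ hm]
        linarith
      constructor
      · refine le_trans ?_ h3
        rw [← Real.sqrt_sq_eq_abs]
        refine Real.sqrt_le_sqrt ?_
        have := sq_nonneg (em y).2
        show (y.1 : ℝ) ^ 2 ≤ (em y).1 ^ 2 + (em y).2 ^ 2
        have e : (em y).1 = (y.1 : ℝ) := rfl
        rw [e]
        linarith
      · refine le_trans ?_ h3
        rw [← Real.sqrt_sq_eq_abs]
        refine Real.sqrt_le_sqrt ?_
        have := sq_nonneg (em y).1
        show (y.2 : ℝ) ^ 2 ≤ (em y).1 ^ 2 + (em y).2 ^ 2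
        have e : (em y).2 = (y.2 : ℝ) := rfl
        rw [e]
        linarith
    · intro y hy
      rw [hTb, Finset.mem_filter] at hy
      have h1 := (hB1 y).1 hy.1
      have h2 : μ (em y) - L (em y) ≤ H := by
        have h3 := hL (em (z - y))
        have h4 : L (em z) = L (em y) + L (em (z - y)) := by
          rw [em_sub, ← map_add]
          congr 1
          abel
        have h5 := hy.2
        linarith
      exact perp hpq hm (x := em y) ((hm2 (em y)).trans h1) ((hL0 (em y)).trans h2)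
  · -- the bad points
    have hcase : ∀ l : List V, Pa z ((0 : V) :: l) →
        (∀ y ∈ (0 : V) :: l, y ∈ (Tb : Set V)) ∨ ∃ y ∈ (0 : V) :: l, y ∈ Bd := by
      intro l hl'
      by_cases hall : ∀ y ∈ (0 : V) :: l, μ (em y) ≤ 4 * R
      · by_cases hT : ∀ y ∈ (0 : V) :: l, y ∈ (Tb : Set V)
        · exact Or.inl hT
        · right
          push Not at hT
          obtain ⟨y, hy1, hy2⟩ := hT
          refine ⟨y, hy1, ?_⟩
          rw [hBd, Finset.mem_union]
          left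
          have h1 := (hB1 y).2 (hall y hy1)
          refine Finset.mem_filter.2 ⟨h1, fun h2 => hy2 ?_⟩
          rw [hTb]
          exact Finset.mem_coe.2 (Finset.mem_filter.2 ⟨h1, h2⟩)
      · right
        push Not at hall
        obtain ⟨w, hw1, hw2⟩ := hall
        have hw : w ∉ {v : V | μ (em v) ≤ 4 * R} := fun h => by
          have h' : μ (em w) ≤ 4 * R := h
          linarith
        have h0 : (0 : V) ∈ {v : V | μ (em v) ≤ 4 * R} := by
          have : em 0 = 0 := by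
            unfold Pool.Agent.N662.FP.em
            simp
          show μ (em 0) ≤ 4 * R
          rw [this, map_zero]
          linarith
        obtain ⟨y, hy1, hy2⟩ := exit' hE1 hw l 0 h0 hl' hw1
        refine ⟨y, hy1, ?_⟩
        rw [hBd, Finset.mem_union]
        exact Or.inr hy2
    have hkey : ∀ y ∈ Bd, phi X lam y 0 * phi X lam z y ≤
        ENNReal.ofReal (Real.exp (1 - lam * H - lam * L (em z))) := by
      intro y hy
      have e : phi X lam z y = phi X lam (z - y) 0 := by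
        rw [← phi_shift hX hl.le y (z - y)]
        congr 1
        abel
      obtain ⟨t, ht⟩ : ∃ t : ℝ, t = μ (em y) + μ (em (z - y)) := ⟨_, rfl⟩
      have hle : μ (em (z - y)) ≤ μ (em z) + μ (em y) := by
        rw [em_sub]
        exact map_sub_le_add μ _ _
      have hge : μ (em y) ≤ μ (em z) + μ (em (z - y)) := by
        have e1 : em y = em z - em (z - y) := by
          rw [em_sub]
          abel
        calc μ (em y) = μ (em z - em (z - y)) := by rw [← e1]
          _ ≤ _ := map_sub_le_add μ _ _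
      have ht12 : H + L (em z) ≤ t ∧ t ≤ 11 * R := by
        rw [hBd, Finset.mem_union] at hy
        rcases hy with hy | hy
        · rw [Finset.mem_filter] at hy
          have h1 := (hB1 y).1 hy.1
          have h2 := not_le.1 hy.2
          constructor
          · linarith
          · linarith
        · obtain ⟨h1, h2⟩ := hE2 y hy
          have h3 := hL (em z)
          constructor
          · linarith
          · linarith
      have h0 := mul_le_mul' (hphi y) (hphi (z - y))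
      rw [e]
      refine h0.trans ?_
      rw [← ENNReal.ofReal_mul (Real.exp_pos _).le, ← Real.exp_add]
      refine ENNReal.ofReal_le_ofReal (Real.exp_le_exp.2 ?_)
      have h1 : -((lam - θ) * μ (em y)) + -((lam - θ) * μ (em (z - y))) = -(lam * t) + θ * t := by
        rw [ht]
        ring
      rw [h1]
      have h2 := mul_le_mul_of_nonneg_left ht12.1 hl.le
      have h3 := mul_le_mul_of_nonneg_left ht12.2 hθ
      nlinarith
    obtain ⟨E0, hE0⟩ : ∃ E0 : ℝ,
        E0 = Real.exp (-3) / (2 * (K * R)) * Real.exp (-(lam * L (em z))) := ⟨_, rfl⟩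
    have hE00 : 0 ≤ E0 := by rw [hE0]; positivity
    have hcard : (Bd.card : ℝ) ≤ ((2 * (4 / c + 1) + 1) ^ 2 + 4 * K) * R ^ 2 := by
      have h1 : Bd.card ≤ Bx.card + D4.card := by
        rw [hBd]
        exact (Finset.card_union_le _ _).trans
          (Nat.add_le_add_right (Finset.card_filter_le _ _) _)
      have h2 : (Bd.card : ℝ) ≤ Bx.card + D4.card := by exact_mod_cast h1
      have h3 : K * (4 * R) ≤ 4 * K * R ^ 2 := by nlinarith
      linarith
    have hsum : ∑ y ∈ Bd, phi X lam y 0 * phi X lam z y ≤ ENNReal.ofReal E0 := by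
      calc ∑ y ∈ Bd, phi X lam y 0 * phi X lam z y
          ≤ ∑ _y ∈ Bd, ENNReal.ofReal (Real.exp (1 - lam * H - lam * L (em z))) :=
            Finset.sum_le_sum hkey
        _ = ENNReal.ofReal (Bd.card * Real.exp (1 - lam * H - lam * L (em z))) := by
            rw [Finset.sum_const, nsmul_eq_mul, ENNReal.ofReal_mul (Nat.cast_nonneg _),
              ENNReal.ofReal_natCast]
        _ ≤ ENNReal.ofReal E0 := by
            refine ENNReal.ofReal_le_ofReal ?_
            obtain ⟨A, hA⟩ : ∃ A : ℝ, A = (2 * (4 / c + 1) + 1) ^ 2 + 4 * K := ⟨_, rfl⟩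
            rw [← hA] at hbig hcard
            have hA0 : 0 ≤ A := by rw [hA]; positivity
            have e1 : Real.exp (1 - lam * H - lam * L (em z)) =
                Real.exp 1 / Real.exp (lam * H) * Real.exp (-(lam * L (em z))) := by
              rw [← Real.exp_sub, ← Real.exp_add]
              congr 1
            rw [e1, hE0, ← mul_assoc]
            refine mul_le_mul_of_nonneg_right ?_ (Real.exp_pos _).le
            rw [mul_div_assoc', div_le_div_iff₀ (Real.exp_pos _) (by positivity)]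
            have e2 : Real.exp (-3) * Real.exp 4 = Real.exp 1 := by
              rw [← Real.exp_add]
              norm_num
            calc (Bd.card : ℝ) * Real.exp 1 * (2 * (K * R))
                ≤ (A * R ^ 2) * Real.exp 1 * (2 * (K * R)) := by gcongr
              _ = Real.exp (-3) * (2 * K * A * Real.exp 4 * R ^ 3) := by
                  rw [← e2]
                  ring
              _ ≤ Real.exp (-3) * Real.exp (lam * H) := by gcongr
    have hmain := phi_le_tube hX hl.le hcase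
    rw [← hE0]
    have h2E : ENNReal.ofReal E0 + ENNReal.ofReal E0 ≤ phi X lam z 0 := by
      rw [← ENNReal.ofReal_add hE00 hE00]
      refine le_trans (le_of_eq ?_) hz.le
      congr 1
      rw [hE0]
      field_simp
      norm_num
    have h3 := (h2E.trans hmain).trans (add_le_add_right hsum _)
    exact (ENNReal.add_le_add_iff_right ENNReal.ofReal_ne_top).1 h3

/-- one scale: the tube is so narrow that the strong log-convexity contradicts the bounds for the
transforms -/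
theorem one_scale (hX : Iid X) (μ : Seminorm ℝ (ℝ × ℝ)) (hμ : ∀ x, μ x = 0 → x = 0)
    (hlim : ∀ v : V, ∀ᵐ ω ∂(volume : Measure Ω),
      Tendsto (fun n : ℕ => D (env X ω) 0 ((n : ℤ) • v) / (n : ℝ)) atTop (𝓝 (μ (em v)))) :
    ∃ A : ℝ, 1 ≤ A ∧ ∀ R lam θ θ' H : ℝ, A ≤ R → 0 < lam → lam ≤ 1 / 2 → 0 ≤ θ → 0 ≤ θ' →
      0 ≤ H → 11 * θ * R ≤ 1 → 2 * θ' * R ≤ 1 → H ≤ R → 1 ≤ R * H →
      (∀ w : V, phi X lam w 0 ≤ ENNReal.ofReal (Real.exp (-((lam - θ) * μ (em w))))) →
      (∀ w : V, phi X (2 * lam) w 0 ≤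
        ENNReal.ofReal (Real.exp (-((2 * lam - θ') * μ (em w))))) →
      A * R ^ 3 ≤ Real.exp (lam * H) →
      A * R * Real.exp (2 * lam * R) ≤ Real.exp (R / A) →
      Real.exp (lam ^ 2 * R / (A * Real.sqrt (R * H))) ≤ A * R ^ 2 := by
  obtain ⟨c, C, hc, hC, hcC⟩ := cNORM μ hμ
  obtain ⟨c1, K, hc1, hK, hgeo⟩ := geo μ hμ
  obtain ⟨p, q, m, hpq, hm, hm1, hm2⟩ := touch μ hμ
  obtain ⟨cg, hcg, hgain⟩ := gain hX
  obtain ⟨A1, hA1⟩ : ∃ A1 : ℝ,
    A1 = 2 * K * ((2 * (4 / c + 1) + 1) ^ 2 + 4 * K) * Real.exp 4 := ⟨_, rfl⟩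
  obtain ⟨A2, hA2⟩ : ∃ A2 : ℝ, A2 = 4 * K * Real.exp 3 := ⟨_, rfl⟩
  obtain ⟨A3, hA3⟩ : ∃ A3 : ℝ, A3 = 16 * K ^ 2 * Real.exp 7 := ⟨_, rfl⟩
  obtain ⟨A4, hA4⟩ : ∃ A4 : ℝ, A4 = 4 * C ^ 2 * ((8 / m + 1) * (12 / m + 1)) / cg := ⟨_, rfl⟩
  have p1 : 0 < A1 := by rw [hA1]; positivity
  have p2 : 0 < A2 := by rw [hA2]; positivity
  have p3 : 0 < A3 := by rw [hA3]; positivity
  have p4 : 0 < A4 := by rw [hA4]; positivity
  obtain ⟨A, hA⟩ : ∃ A : ℝ, A = 1 + 2 * c1 + 10 * C + A1 + A2 + A3 + A4 := ⟨_, rfl⟩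
  refine ⟨A, by rw [hA]; linarith, ?_⟩
  intro R lam θ θ' H hAR hl hl2 hθ hθ' hH0 hθR hθR' hHR hRH hphi hphi2 hb1 hb2
  have q0 : 1 ≤ A := by linarith
  have q1 : 2 * c1 ≤ A := by linarith
  have q2 : 10 * C ≤ A := by linarith
  have q3 : A1 ≤ A := by linarith
  have q4 : A2 ≤ A := by linarith
  have q5 : A3 ≤ A := by linarith
  have q6 : A4 ≤ A := by linarith
  have hA0 : 0 < A := by linarith
  have hR1 : 1 ≤ R := by linarith
  have hR0 : 0 < R := by linarith
  obtain ⟨z, Lz, Tb, hz1, hz2, hLz, hcard, hE⟩ := tube hX μ hμ hlim hc hcC hc1 hK hgeo hpq hm hm1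
    hm2 hR1 (by linarith) hl hθ hHR hθR hphi (by
      rw [← hA1]
      refine le_trans ?_ hb1
      exact mul_le_mul_of_nonneg_right q3 (by positivity))
  obtain ⟨E0, hE0⟩ : ∃ E0 : ℝ,
    E0 = Real.exp (-3) / (2 * (K * R)) * Real.exp (-(lam * Lz)) := ⟨_, rfl⟩
  rw [← hE0] at hE
  have hE00 : 0 < E0 := by rw [hE0]; positivity
  obtain ⟨N0, hN0⟩ : ∃ N0 : ℝ,
    N0 = (2 * (4 * R / m) + 1) * (4 * (Real.sqrt (2 * (4 * R) * H) / m) + 1) := ⟨_, rfl⟩
  rw [← hN0] at hcard
  have hN00 : 0 < N0 := by rw [hN0]; positivity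
  obtain ⟨n, hn⟩ : ∃ n : ℕ, n = ⌊R / C⌋₊ := ⟨_, rfl⟩
  have hRC : 10 ≤ R / C := by
    rw [le_div_iff₀ hC]
    linarith
  have hn1 : (n : ℝ) ≤ R / C := by
    rw [hn]
    exact Nat.floor_le (by positivity)
  have hn2 : R / C / 2 ≤ n := by
    have : R / C < n + 1 := by
      rw [hn]
      exact Nat.lt_floor_add_one _
    linarith
  have hnz : (n : ℤ) ≤ max |z.1| |z.2| := by
    have h1 : R / C ≤ max |(z.1 : ℝ)| |(z.2 : ℝ)| := by
      rw [div_le_iff₀ hC, mul_comm]
      exact hz1.le.trans (hcC (em z)).2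
    have h2 : (n : ℝ) ≤ max |(z.1 : ℝ)| |(z.2 : ℝ)| := hn1.trans h1
    rcases le_max_iff.1 h2 with h3 | h3
    · refine le_max_of_le_left ?_
      exact_mod_cast h3
    · refine le_max_of_le_right ?_
      exact_mod_cast h3
  have hz3 : Lz ≤ 2 * R := by linarith
  have hq : Real.sqrt ((1 / 2 : ℝ) ^ n * Real.exp (lam ^ 2 * n)) ≤ E0 / 2 := by
    have h1 : (1 / 2 : ℝ) ^ n = Real.exp (-(n * Real.log 2)) := by
      rw [one_div, inv_pow, Real.exp_neg, mul_comm, Real.exp_mul, Real.exp_log two_pos,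
        Real.rpow_natCast]
    have h2 : lam ^ 2 ≤ 1 / 4 := by nlinarith
    have h3 : (1 / 2 : ℝ) ^ n * Real.exp (lam ^ 2 * n) ≤ Real.exp (-(2 * (n / 5))) := by
      rw [h1, ← Real.exp_add]
      refine Real.exp_le_exp.2 ?_
      have h4 := Real.log_two_gt_d9
      have h5 : (0 : ℝ) ≤ n := Nat.cast_nonneg n
      nlinarith
    have h4 : Real.sqrt ((1 / 2 : ℝ) ^ n * Real.exp (lam ^ 2 * n)) ≤ Real.exp (-(n / 5)) := by
      refine (Real.sqrt_le_sqrt h3).trans (le_of_eq ?_)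
      rw [show Real.exp (-(2 * ((n : ℝ) / 5))) = (Real.exp (-(n / 5))) ^ 2 by
        rw [← Real.exp_nat_mul]
        congr 1
        push_cast
        ring]
      exact Real.sqrt_sq (Real.exp_pos _).le
    refine h4.trans ?_
    have h5 : Real.exp (-((n : ℝ) / 5)) ≤ Real.exp (-(R / A)) := by
      refine Real.exp_le_exp.2 (neg_le_neg ?_)
      have h6 : R / A ≤ R / (10 * C) := div_le_div_of_nonneg_left hR0.le (by positivity) q2
      have h7 : R / (10 * C) = R / C / 2 / 5 := by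
        field_simp
        norm_num
      rw [h7] at h6
      linarith
    refine h5.trans ?_
    rw [Real.exp_neg, inv_le_iff_one_le_mul₀ (Real.exp_pos _), hE0]
    have h8 : Real.exp (-(2 * lam * R)) ≤ Real.exp (-(lam * Lz)) := by
      refine Real.exp_le_exp.2 (neg_le_neg ?_)
      nlinarith
    have h9 : Real.exp (-3) * Real.exp 3 = 1 := by
      rw [← Real.exp_add]
      norm_num
    have h10 : Real.exp (-(2 * lam * R)) * Real.exp (2 * lam * R) = 1 := by
      rw [← Real.exp_add, neg_add_cancel, Real.exp_zero]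
    have hKR : K * R ≠ 0 := by positivity
    calc (1 : ℝ) = Real.exp (-3) / (2 * (K * R)) * Real.exp (-(2 * lam * R)) / 2 *
          (4 * K * Real.exp 3 * R * Real.exp (2 * lam * R)) := by
          have : Real.exp (-3) / (2 * (K * R)) * Real.exp (-(2 * lam * R)) / 2 *
            (4 * K * Real.exp 3 * R * Real.exp (2 * lam * R)) =
            (Real.exp (-3) * Real.exp 3) * (Real.exp (-(2 * lam * R)) * Real.exp (2 * lam * R)) *
              ((4 * (K * R)) / (4 * (K * R))) := by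
            field_simp
            norm_num
          rw [this, h9, h10, div_self (by positivity)]
          norm_num
      _ ≤ Real.exp (-3) / (2 * (K * R)) * Real.exp (-(lam * Lz)) / 2 *
          (A * R * Real.exp (2 * lam * R)) := by
          rw [← hA2]
          gcongr
      _ ≤ Real.exp (-3) / (2 * (K * R)) * Real.exp (-(lam * Lz)) / 2 * Real.exp (R / A) := by
          gcongr
  have hg := hgain lam Tb z n E0 N0 hl.le (by linarith) hnz hE00 hcard hE hq
  have hup : ∫⁻ ω, Wt (2 * lam) (Tb : Set V) z 0 (env X ω) ∂(volume : Measure Ω) ≤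
      ENNReal.ofReal (Real.exp (1 - 2 * (lam * Lz))) := by
    refine le_trans (lintegral_mono fun ω => ?_) ((hphi2 z).trans ?_)
    · exact iSup₂_le fun l hl' => le_W hl'.1
    · refine ENNReal.ofReal_le_ofReal (Real.exp_le_exp.2 ?_)
      have h1 : θ' * μ (em z) ≤ 1 := by
        have : μ (em z) ≤ 2 * R := by linarith
        nlinarith
      have h2 := mul_le_mul_of_nonneg_left hLz hl.le
      linarith
  have hg2 := hg.trans hup
  rw [ENNReal.ofReal_le_ofReal_iff (Real.exp_pos _).le] at hg2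
  have hfin : Real.exp (cg * lam ^ 2 * n ^ 2 / N0) ≤ A * R ^ 2 := by
    have e1 : (E0 / 2) ^ 2 = Real.exp (-6) / (16 * K ^ 2 * R ^ 2) *
        Real.exp (-(2 * (lam * Lz))) := by
      have e2 : Real.exp (-(2 * (lam * Lz))) = Real.exp (-(lam * Lz)) ^ 2 := by
        rw [← Real.exp_nat_mul]
        congr 1
        push_cast
        ring
      have e3 : Real.exp (-6) = Real.exp (-3) ^ 2 := by
        rw [← Real.exp_nat_mul]
        norm_num
      rw [hE0, e2, e3]
      field_simp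
      norm_num
    have e4 : Real.exp (1 - 2 * (lam * Lz)) = Real.exp 1 * Real.exp (-(2 * (lam * Lz))) := by
      rw [← Real.exp_add]
      congr 1
    rw [e1, e4, ← mul_assoc] at hg2
    have h1 := le_of_mul_le_mul_right hg2 (Real.exp_pos _)
    have h2 : Real.exp (cg * lam ^ 2 * n ^ 2 / N0) * Real.exp (-6) ≤
        Real.exp 1 * (16 * K ^ 2 * R ^ 2) := by
      rw [← mul_div_assoc, div_le_iff₀ (by positivity)] at h1
      exact h1
    have e5 : Real.exp (-6) * Real.exp 6 = 1 := by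
      rw [← Real.exp_add]
      norm_num
    have e6 : Real.exp 1 * Real.exp 6 = Real.exp 7 := by
      rw [← Real.exp_add]
      norm_num
    have e7 : ∀ g : ℝ, g = (g * Real.exp (-6)) * Real.exp 6 := fun g => by
      rw [mul_assoc, e5, mul_one]
    calc Real.exp (cg * lam ^ 2 * n ^ 2 / N0)
        = (Real.exp (cg * lam ^ 2 * n ^ 2 / N0) * Real.exp (-6)) * Real.exp 6 := e7 _
      _ ≤ (Real.exp 1 * (16 * K ^ 2 * R ^ 2)) * Real.exp 6 :=
          mul_le_mul_of_nonneg_right h2 (Real.exp_pos _).le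
      _ = A3 * R ^ 2 := by
          rw [hA3, ← e6]
          ring
      _ ≤ A * R ^ 2 := by gcongr
  refine le_trans (Real.exp_le_exp.2 ?_) hfin
  -- comparison of the exponents
  obtain ⟨s, hs⟩ : ∃ s : ℝ, s = Real.sqrt (R * H) := ⟨_, rfl⟩
  have hs1 : 1 ≤ s := by
    rw [hs]
    exact Real.one_le_sqrt.2 hRH
  rw [← hs]
  have hs8 : Real.sqrt (2 * (4 * R) * H) ≤ 3 * s := by
    rw [hs, show (3 : ℝ) = Real.sqrt (3 ^ 2) by rw [Real.sqrt_sq (by norm_num)],
      ← Real.sqrt_mul (by norm_num)]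
    refine Real.sqrt_le_sqrt ?_
    nlinarith
  have hN1 : N0 ≤ ((8 / m + 1) * (12 / m + 1)) * (R * s) := by
    rw [hN0]
    have h1 : 2 * (4 * R / m) + 1 ≤ (8 / m + 1) * R := by
      have : 2 * (4 * R / m) = 8 / m * R := by ring
      rw [this]
      linarith
    have h2 : 4 * (Real.sqrt (2 * (4 * R) * H) / m) + 1 ≤ (12 / m + 1) * s := by
      have h3 : Real.sqrt (2 * (4 * R) * H) / m ≤ 3 * s / m :=
        div_le_div_of_nonneg_right hs8 hm.le
      have : (12 / m + 1) * s = 4 * (3 * s / m) + s := by ring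
      rw [this]
      linarith
    calc _ ≤ ((8 / m + 1) * R) * ((12 / m + 1) * s) :=
          mul_le_mul h1 h2 (by positivity) (by positivity)
      _ = _ := by ring
  have hn3 : R ^ 2 / (4 * C ^ 2) ≤ (n : ℝ) ^ 2 := by
    have h1 : R ^ 2 / (4 * C ^ 2) = (R / C / 2) ^ 2 := by
      field_simp
      norm_num
    rw [h1]
    exact pow_le_pow_left₀ (by positivity) hn2 2
  obtain ⟨B, hB⟩ : ∃ B : ℝ, B = (8 / m + 1) * (12 / m + 1) := ⟨_, rfl⟩
  have hB0 : 0 < B := by rw [hB]; positivity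
  rw [← hB] at hN1 hA4
  calc lam ^ 2 * R / (A * s) ≤ lam ^ 2 * R / (A4 * s) := by gcongr
    _ = cg * lam ^ 2 * (R ^ 2 / (4 * C ^ 2)) / (B * (R * s)) := by
        rw [hA4]
        field_simp
    _ ≤ cg * lam ^ 2 * (n : ℝ) ^ 2 / (B * (R * s)) := by gcongr
    _ ≤ cg * lam ^ 2 * (n : ℝ) ^ 2 / N0 := by gcongr

end U874.FL
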