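import Pool.Agent.U874.FL.Pth
import Pool.Agent.N896.FM.CNT

/-!
# Long simple paths have many heavy edges (Peierls)
-/

set_option autoImplicit false
set_option linter.unusedSectionVars false
open MeasureTheory ProbabilityTheory Filter Set
open scoped ENNReal Topology

namespace U874.FL

open Pool.Agent.N662.FP
open Pool.Agent.U874.FP
open Pool.Agent.N896.FM (stp exists_stp)

section fin

variable {ι : Type} [Fintype ι] [DecidableEq ι]

/-- few heavy sites among the sites of `s` -/
theorem ev_fin (μ : Measure ℝ) [IsProbabilityMeasure μ] {a : ℝ}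
    (hp : μ.real (Set.Ioi a) ≤ 1 / 256) (s : Finset ι) :
    (Measure.pi fun _ : ι => μ).real {η | 2 * (s.filter fun i => η i ≤ a).card < s.card} ≤
      (1 / 8 : ℝ) ^ s.card := by
  classical
  set g : ℝ → ℝ := fun x => 1 + 255 * (Set.Ioi a).indicator (fun _ => (1 : ℝ)) x with hg
  have hgm : Measurable g :=
    measurable_const.add ((measurable_const.indicator measurableSet_Ioi).const_mul _)
  have hg1 : ∀ x, 1 ≤ g x := fun x => by
    have : 0 ≤ (Set.Ioi a).indicator (fun _ => (1 : ℝ)) x :=
      Set.indicator_nonneg (fun _ _ => zero_le_one) _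
    simp only [hg]
    linarith
  have hg2 : ∀ x, g x ≤ 256 := fun x => by
    have : (Set.Ioi a).indicator (fun _ => (1 : ℝ)) x ≤ 1 :=
      Set.indicator_le_self' (fun _ _ => zero_le_one) _
    simp only [hg]
    linarith
  have hgi : ∫ x, g x ∂μ ≤ 2 := by
    simp only [hg]
    rw [integral_add (integrable_const _) (((integrable_const _).indicator
      measurableSet_Ioi).const_mul _), integral_const_mul, integral_indicator measurableSet_Ioi]
    simp only [integral_const, probReal_univ, smul_eq_mul, mul_one, measureReal_restrict_apply_univ]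
    linarith
  set f : ι → ℝ → ℝ := fun i x => if i ∈ s then g x else 1 with hf
  have hfm : ∀ i, Measurable (f i) := fun i => by
    simp only [hf]
    split_ifs
    · exact hgm
    · exact measurable_const
  have hf1 : ∀ i x, 1 ≤ f i x := fun i x => by
    simp only [hf]
    split_ifs
    · exact hg1 x
    · exact le_rfl
  have hf2 : ∀ i x, f i x ≤ 256 := fun i x => by
    simp only [hf]
    split_ifs
    · exact hg2 x
    · norm_num
  set Φ : (ι → ℝ) → ℝ := fun η => ∏ i, f i (η i) with hΦ
  have hΦm : Measurable Φ := Finset.measurable_fun_prod _ fun i _ =>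
    (hfm i).comp (measurable_pi_apply i)
  have hΦ0 : ∀ η, 0 ≤ Φ η := fun η => Finset.prod_nonneg fun i _ => zero_le_one.trans (hf1 i _)
  have hΦi : Integrable Φ (Measure.pi fun _ : ι => μ) := by
    refine Integrable.mono' (integrable_const ((256 : ℝ) ^ Fintype.card ι))
      hΦm.aestronglyMeasurable ?_
    refine Eventually.of_forall fun η => ?_
    rw [Real.norm_of_nonneg (hΦ0 η)]
    calc Φ η ≤ ∏ _i : ι, (256 : ℝ) :=
          Finset.prod_le_prod (fun i _ => zero_le_one.trans (hf1 i _)) fun i _ => hf2 i _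
      _ = _ := by rw [Finset.prod_const, Finset.card_univ]
  have hint : ∫ η, Φ η ∂(Measure.pi fun _ : ι => μ) ≤ 2 ^ s.card := by
    simp only [hΦ]
    rw [integral_fintype_prod_eq_prod (fun i x => f i x)]
    calc ∏ i, ∫ x, f i x ∂μ ≤ ∏ i : ι, if i ∈ s then (2 : ℝ) else 1 := by
          refine Finset.prod_le_prod (fun i _ => integral_nonneg fun x =>
            zero_le_one.trans (hf1 i x)) fun i _ => ?_
          by_cases h : i ∈ s
          · simp only [hf, h, if_true]
            exact hgi
          · simp only [hf, h, if_false]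
            simp
      _ = 2 ^ s.card := by
          rw [Finset.prod_ite_mem, Finset.univ_inter, Finset.prod_const]
  have hsub : {η : ι → ℝ | 2 * (s.filter fun i => η i ≤ a).card < s.card} ⊆
      {η | (16 : ℝ) ^ s.card ≤ Φ η} := by
    intro η hη
    have hη' : 2 * (s.filter fun i => η i ≤ a).card < s.card := hη
    have h1 : Φ η = 256 ^ (s.filter fun i => ¬ η i ≤ a).card := by
      simp only [hΦ, hf]
      rw [Finset.prod_ite_mem, Finset.univ_inter, ← Finset.prod_const]
      rw [Finset.prod_filter]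
      refine Finset.prod_congr rfl fun i _ => ?_
      by_cases h : η i ≤ a
      · simp [hg, h]
      · simp only [hg, h, not_false_eq_true, if_true]
        have h' : η i ∈ Set.Ioi a := not_le.1 h
        rw [Set.indicator_of_mem h']
        norm_num
    have h2 := Finset.card_filter_add_card_filter_not (s := s) (fun i => η i ≤ a)
    show (16 : ℝ) ^ s.card ≤ Φ η
    rw [h1, show (256 : ℝ) = 16 ^ 2 by norm_num, ← pow_mul]
    exact pow_le_pow_right₀ (by norm_num) (by omega)
  have hmk := mul_meas_ge_le_integral_of_nonneg (μ := Measure.pi fun _ : ι => μ)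
    (Eventually.of_forall hΦ0) hΦi ((16 : ℝ) ^ s.card)
  have h3 : (Measure.pi fun _ : ι => μ).real
      {η | 2 * (s.filter fun i => η i ≤ a).card < s.card} ≤
      (Measure.pi fun _ : ι => μ).real {η | (16 : ℝ) ^ s.card ≤ Φ η} :=
    measureReal_mono hsub
  have h4 : (1 / 8 : ℝ) ^ s.card = 2 ^ s.card / 16 ^ s.card := by
    rw [← div_pow]
    norm_num
  rw [h4, le_div_iff₀ (by positivity)]
  have h5 : (0 : ℝ) < 16 ^ s.card := by positivity
  calc _ ≤ (Measure.pi fun _ : ι => μ).real {η | (16 : ℝ) ^ s.card ≤ Φ η} * 16 ^ s.card :=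
        mul_le_mul_of_nonneg_right h3 h5.le
    _ = 16 ^ s.card * (Measure.pi fun _ : ι => μ).real {η | (16 : ℝ) ^ s.card ≤ Φ η} :=
        mul_comm _ _
    _ ≤ _ := hmk.trans hint

end fin

/-- the walks with `n` steps from `a` -/
def WL : ℕ → V → Finset (List V)
  | 0, _ => {[]}
  | n + 1, a => Finset.univ.biUnion fun k : Fin 4 =>
      (WL n (a + stp k)).image (fun l => (a + stp k) :: l)

theorem WL_card : ∀ (n : ℕ) (a : V), (WL n a).card ≤ 4 ^ n
  | 0, _ => by simp [WL]
  | n + 1, a => by
    unfold WL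
    refine Finset.card_biUnion_le.trans ?_
    calc ∑ k : Fin 4, ((WL n (a + stp k)).image (fun l => (a + stp k) :: l)).card
        ≤ ∑ _k : Fin 4, 4 ^ n :=
          Finset.sum_le_sum fun k _ => Finset.card_image_le.trans (WL_card n _)
      _ = 4 ^ (n + 1) := by
          rw [Finset.sum_const, Finset.card_univ, Fintype.card_fin, smul_eq_mul, pow_succ, mul_comm]

theorem WL_len : ∀ (n : ℕ) (a : V) (l : List V), l ∈ WL n a → l.length = n
  | 0, _, l, h => by
    have : l = [] := by simpa [WL] using h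
    simp [this]
  | n + 1, a, l, h => by
    unfold WL at h
    obtain ⟨k, -, hk⟩ := Finset.mem_biUnion.1 h
    obtain ⟨m, hm, rfl⟩ := Finset.mem_image.1 hk
    rw [List.length_cons, WL_len n _ m hm]

theorem take_mem {v : V} : ∀ (n : ℕ) (l : List V) (a : V), Pa v (a :: l) → n ≤ l.length →
    l.take n ∈ WL n a
  | 0, l, a, _, _ => by simp [WL]
  | n + 1, [], a, _, h => by simp at h
  | n + 1, b :: l, a, h, hn => by
    unfold WL
    obtain ⟨k, hk⟩ := exists_stp (b.1 - a.1) (b.2 - a.2) h.1
    have hb : a + stp k = b := by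
      rw [hk]
      ext <;> simp
    refine Finset.mem_biUnion.2 ⟨k, Finset.mem_univ _, ?_⟩
    rw [hb]
    refine Finset.mem_image.2 ⟨l.take n, take_mem n l b h.2 ?_, ?_⟩
    · simpa using hn
    · simp

theorem edg_len : ∀ (l : List V) (a : V), (edg (a :: l)).length = l.length
  | [], a => by simp [edg]
  | b :: l, a => by simp [edg, edg_len l b]

theorem edg_take : ∀ (n : ℕ) (l : List V) (a : V), ∀ e ∈ edg (a :: l.take n), e ∈ edg (a :: l)
  | 0, l, a, e, h => by simp [edg] at h
  | n + 1, [], a, e, h => by simp [edg] at h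
  | n + 1, b :: l, a, e, h => by
    simp only [List.take_succ_cons, edg, List.mem_cons] at h ⊢
    rcases h with h | h
    · exact Or.inl h
    · exact Or.inr (edg_take n l b e h)

theorem ixs_card (F : Finset (Sym2 V)) {l : List V} (h : ∀ e ∈ edg l, e ∈ F)
    (hn : (edg l).Nodup) : (ixs F l).card = (edg l).length := by
  rw [← List.toFinset_card_of_nodup hn]
  refine Finset.card_bij (fun e _ => e.1) ?_ ?_ ?_
  · intro e he
    exact List.mem_toFinset.2 (Finset.mem_filter.1 he).2
  · intro e _ e' _ h3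
    exact Subtype.ext h3
  · intro e he
    have h3 := List.mem_toFinset.1 he
    exact ⟨⟨e, h e h3⟩, Finset.mem_filter.2 ⟨Finset.mem_univ _, h3⟩, rfl⟩

/-- the union bound -/
theorem bad_le (μ : Measure ℝ) [IsProbabilityMeasure μ] {a : ℝ}
    (hp : μ.real (Set.Ioi a) ≤ 1 / 256) (F : Finset (Sym2 V)) (n : ℕ) (o : V) :
    (Measure.pi fun _ : F => μ).real {η | ∃ l ∈ WL n o, ((edg (o :: l)).Nodup ∧
      ∀ e ∈ edg (o :: l), e ∈ F) ∧ 2 * ((ixs F (o :: l)).filter fun i => η i ≤ a).card < n} ≤
      (1 / 2 : ℝ) ^ n := by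
  classical
  set A : Finset (List V) := (WL n o).filter fun l => (edg (o :: l)).Nodup ∧
      ∀ e ∈ edg (o :: l), e ∈ F with hA
  have hsub : {η : F → ℝ | ∃ l ∈ WL n o, ((edg (o :: l)).Nodup ∧
      ∀ e ∈ edg (o :: l), e ∈ F) ∧ 2 * ((ixs F (o :: l)).filter fun i => η i ≤ a).card < n} ⊆
      ⋃ l ∈ A, {η : F → ℝ | 2 * ((ixs F (o :: l)).filter fun i => η i ≤ a).card < n} := by
    rintro η ⟨l, h1, h2, h3⟩
    exact Set.mem_biUnion (Finset.mem_filter.2 ⟨h1, h2⟩) h3
  refine (measureReal_mono hsub (measure_ne_top _ _)).trans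
    ((measureReal_biUnion_finset_le _ _).trans ?_)
  have h1 : ∀ l ∈ A, (Measure.pi fun _ : F => μ).real
      {η : F → ℝ | 2 * ((ixs F (o :: l)).filter fun i => η i ≤ a).card < n} ≤ (1 / 8 : ℝ) ^ n := by
    intro l hl
    obtain ⟨hl1, hl2, hl3⟩ := Finset.mem_filter.1 hl
    have h2 : (ixs F (o :: l)).card = n := by
      rw [ixs_card F hl3 hl2, edg_len, WL_len n o l hl1]
    have h3 := ev_fin μ hp (ixs F (o :: l))
    rw [h2] at h3
    exact h3
  calc ∑ l ∈ A, _ ≤ ∑ _l ∈ A, (1 / 8 : ℝ) ^ n := Finset.sum_le_sum h1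
    _ = A.card * (1 / 8 : ℝ) ^ n := by rw [Finset.sum_const, nsmul_eq_mul]
    _ ≤ 4 ^ n * (1 / 8 : ℝ) ^ n := by
        refine mul_le_mul_of_nonneg_right ?_ (by positivity)
        exact_mod_cast (Finset.card_filter_le _ _).trans (WL_card n o)
    _ = (1 / 2 : ℝ) ^ n := by
        rw [← mul_pow]
        norm_num

end U874.FL
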