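import Pool.Agent.U874.FL.Via

/-!
# Surgery of paths
-/

set_option autoImplicit false
set_option linter.unusedSectionVars false
open MeasureTheory ProbabilityTheory Filter Set
open scoped ENNReal Topology

namespace U874.FL

open Pool.Agent.N662.FP
open Pool.Agent.U874.FP

theorem Pa_suffix {v a : V} {t : List V} : ∀ s : List V, Pa v (s ++ a :: t) → Pa v (a :: t)
  | [], h => h
  | [_], h => h.2
  | _ :: c :: s, h => Pa_suffix (c :: s) h.2

theorem cost_suffix {x : Sym2 V → ℝ} (hx : ∀ e, 0 ≤ x e) {a : V} {t : List V} :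
    ∀ s : List V, cost x (a :: t) ≤ cost x (s ++ a :: t)
  | [] => le_rfl
  | [b] => by
    show cost x (a :: t) ≤ cost x (b :: a :: t)
    rw [cost_cons]
    have := hx s(b, a)
    linarith
  | b :: c :: s => by
    have h := cost_suffix hx (a := a) (t := t) (c :: s)
    show cost x (a :: t) ≤ cost x (b :: c :: (s ++ a :: t))
    rw [cost_cons]
    have := hx s(b, c)
    have h2 : cost x (a :: t) ≤ cost x (c :: (s ++ a :: t)) := h
    linarith

/-- the loops of a path can be removed -/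
theorem simple (v : V) : ∀ (l : List V) (a : V), Pa v (a :: l) → ∃ l', Pa v (a :: l') ∧
    (a :: l').Nodup ∧ (∀ y ∈ a :: l', y ∈ a :: l) ∧
    ∀ x : Sym2 V → ℝ, (∀ e, 0 ≤ x e) → cost x (a :: l') ≤ cost x (a :: l) := by
  intro l
  induction l with
  | nil =>
    intro a h
    exact ⟨[], h, by simp, fun y hy => hy, fun x _ => le_rfl⟩
  | cons b l ih =>
    intro a h
    obtain ⟨m, hm1, hm2, hm3, hm4⟩ := ih b h.2
    by_cases ha : a ∈ b :: m
    · obtain ⟨s, t, hst⟩ := List.append_of_mem ha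
      refine ⟨t, ?_, ?_, ?_, ?_⟩
      · rw [hst] at hm1
        exact Pa_suffix s hm1
      · rw [hst] at hm2
        exact (List.nodup_append.1 hm2).2.1
      · intro y hy
        have h1 : y ∈ b :: m := by
          rw [hst]
          exact List.mem_append.2 (Or.inr hy)
        exact List.mem_cons_of_mem _ (hm3 y h1)
      · intro x hx
        have h1 := cost_suffix hx (a := a) (t := t) s
        rw [← hst] at h1
        have h2 := hm4 x hx
        rw [cost_cons]
        have := hx s(a, b)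
        linarith
    · refine ⟨b :: m, ⟨h.1, hm1⟩, List.nodup_cons.2 ⟨ha, hm2⟩, ?_, ?_⟩
      · intro y hy
        rcases List.mem_cons.1 hy with h1 | h1
        · rw [h1]; exact List.mem_cons_self
        · exact List.mem_cons_of_mem _ (hm3 y h1)
      · intro x hx
        rw [cost_cons, cost_cons]
        have := hm4 x hx
        linarith

theorem edg_mem : ∀ {l : List V} {e : Sym2 V}, e ∈ edg l → ∀ a ∈ e, a ∈ l
  | [], e, h, _, _ => by simp [edg] at h
  | [_], e, h, _, _ => by simp [edg] at h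
  | a :: b :: l, e, h, c, hc => by
    simp only [edg, List.mem_cons] at h
    rcases h with h | h
    · rw [h, Sym2.mem_iff] at hc
      rcases hc with hc | hc
      · rw [hc]; exact List.mem_cons_self
      · rw [hc]; exact List.mem_cons_of_mem _ List.mem_cons_self
    · exact List.mem_cons_of_mem _ (edg_mem h c hc)

theorem edg_nodup : ∀ {l : List V}, l.Nodup → (edg l).Nodup
  | [], _ => by simp [edg]
  | [_], _ => by simp [edg]
  | a :: b :: l, h => by
    simp only [edg]
    refine List.nodup_cons.2 ⟨fun h1 => ?_, edg_nodup (List.nodup_cons.1 h).2⟩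
    exact (List.nodup_cons.1 h).1 (edg_mem h1 a (Sym2.mem_mk_left a b))

/-- the decomposition of a path at one of its points -/
theorem split {v y : V} : ∀ (l : List V) (a : V), Pa v (a :: l) → y ∈ a :: l →
    ∃ p1 p2 : List V, Pa y (a :: p1) ∧ Pa v (y :: p2) ∧
      edg (a :: l) = edg (a :: p1) ++ edg (y :: p2) := by
  intro l
  induction l with
  | nil =>
    intro a h hy
    have h1 : y = a := by simpa using hy
    subst h1
    exact ⟨[], [], rfl, h, by simp [edg]⟩
  | cons b l ih =>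
    intro a h hy
    rcases List.mem_cons.1 hy with h1 | h1
    · subst h1
      exact ⟨[], b :: l, rfl, h, by simp [edg]⟩
    · obtain ⟨p1, p2, h2, h3, h4⟩ := ih b h.2 h1
      refine ⟨b :: p1, p2, ⟨h.1, h2⟩, h3, ?_⟩
      simp only [edg]
      rw [h4]
      rfl

theorem le_Vi {lam : ℝ} {v y a : V} {x : Sym2 V → ℝ} {l : List V} (h : Pa v (a :: l))
    (hn : (a :: l).Nodup) (hy : y ∈ a :: l) : ex lam (cost x (a :: l)) ≤ Vi lam v y a x := by
  obtain ⟨p1, p2, h1, h2, h3⟩ := split l a h hy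
  have h4 : cost x (a :: l) = cost x (a :: p1) + cost x (y :: p2) := by
    unfold cost
    rw [h3, List.map_append, List.sum_append]
  rw [h4, ex_add]
  exact le_iSup₂_of_le (p1, p2) ⟨h1, h2, by rw [← h3]; exact edg_nodup hn⟩ le_rfl

/-- a path which leaves `B` meets its boundary -/
theorem exit {B : Set V} {D : Finset V} (hD : ∀ a ∈ B, ∀ b, b ∉ B → Nb a b → b ∈ D) {w : V}
    (hw : w ∉ B) : ∀ (l : List V) (a : V), a ∈ B → Pa w (a :: l) → ∃ y ∈ a :: l, y ∈ D := by
  intro l
  induction l with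
  | nil =>
    intro a ha h
    have h' : a = w := h
    exact absurd (h' ▸ ha) hw
  | cons b l ih =>
    intro a ha h
    by_cases hb : b ∈ B
    · obtain ⟨y, hy1, hy2⟩ := ih b hb h.2
      exact ⟨y, List.mem_cons_of_mem _ hy1, hy2⟩
    · exact ⟨b, List.mem_cons_of_mem _ List.mem_cons_self, hD a ha b hb h.1⟩

/-- the same for a path which visits a point outside of `B` -/
theorem exit' {B : Set V} {D : Finset V} (hD : ∀ a ∈ B, ∀ b, b ∉ B → Nb a b → b ∈ D) {v w : V}
    (hw : w ∉ B) (l : List V) (a : V) (ha : a ∈ B) (h : Pa v (a :: l)) (hwl : w ∈ a :: l) :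
    ∃ y ∈ a :: l, y ∈ D := by
  have key : ∀ (l : List V) (a : V), a ∈ B → Pa v (a :: l) → w ∈ a :: l → ∃ y ∈ a :: l, y ∈ D := by
    intro l
    induction l with
    | nil =>
      intro a ha h hwl
      have h1 : w = a := by simpa using hwl
      exact absurd (h1 ▸ ha) hw
    | cons b l ih =>
      intro a ha h hwl
      by_cases hb : b ∈ B
      · rcases List.mem_cons.1 hwl with h1 | h1
        · exact absurd (h1 ▸ ha) hw
        · obtain ⟨y, hy1, hy2⟩ := ih b hb h.2 h1
          exact ⟨y, List.mem_cons_of_mem _ hy1, hy2⟩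
      · exact ⟨b, List.mem_cons_of_mem _ List.mem_cons_self, hD a ha b hb h.1⟩
  exact key l a ha h hwl

/-- supremum over the simple paths inside of `S` -/
noncomputable def Wt (lam : ℝ) (S : Set V) (v a : V) (x : Sym2 V → ℝ) : ℝ≥0∞ :=
  ⨆ l : List V, ⨆ _ : Pa v (a :: l) ∧ (a :: l).Nodup ∧ ∀ y ∈ a :: l, y ∈ S,
    ex lam (cost x (a :: l))

/-- a path is in `S` or visits a bad point -/
theorem W_le_Wt {lam : ℝ} (hl : 0 ≤ lam) {S : Set V} {D : Finset V} {v a : V}
    (h : ∀ l : List V, Pa v (a :: l) → (∀ y ∈ a :: l, y ∈ S) ∨ ∃ y ∈ a :: l, y ∈ D)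
    {x : Sym2 V → ℝ} (hx : ∀ e, 0 ≤ x e) :
    W lam v a x ≤ Wt lam S v a x + ∑ y ∈ D, Vi lam v y a x := by
  refine iSup₂_le fun l hl1 => ?_
  obtain ⟨m, hm1, hm2, _, hm4⟩ := simple v l a hl1
  refine (ex_anti hl (hm4 x hx)).trans ?_
  rcases h m hm1 with h1 | ⟨y, hy1, hy2⟩
  · exact le_add_right (le_iSup₂_of_le m ⟨hm1, hm2, h1⟩ le_rfl)
  · refine le_add_left ((le_Vi hm1 hm2 hy1).trans ?_)
    exact Finset.single_le_sum (f := fun y => Vi lam v y a x) (fun _ _ => zero_le) hy2

theorem W_le_Vi {lam : ℝ} (hl : 0 ≤ lam) {D : Finset V} {v a : V}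
    (h : ∀ l : List V, Pa v (a :: l) → ∃ y ∈ a :: l, y ∈ D)
    {x : Sym2 V → ℝ} (hx : ∀ e, 0 ≤ x e) :
    W lam v a x ≤ ∑ y ∈ D, Vi lam v y a x := by
  refine iSup₂_le fun l hl1 => ?_
  obtain ⟨m, hm1, hm2, _, hm4⟩ := simple v l a hl1
  refine (ex_anti hl (hm4 x hx)).trans ?_
  obtain ⟨y, hy1, hy2⟩ := h m hm1
  refine ((le_Vi hm1 hm2 hy1).trans ?_)
  exact Finset.single_le_sum (f := fun y => Vi lam v y a x) (fun _ _ => zero_le) hy2

variable {Ω : Type} [MeasureSpace Ω] [IsProbabilityMeasure (volume : Measure Ω)]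
  {X : Sym2 (ℤ × ℤ) → Ω → ℝ}

theorem meas_Wt (hX : Iid X) (lam : ℝ) (S : Set V) (v a : V) :
    Measurable fun ω => Wt lam S v a (env X ω) :=
  meas_sup (X := X) lam (fun l => Pa v l ∧ l.Nodup ∧ ∀ y ∈ l, y ∈ S)
    (fun _ _ e _ => hX.meas e) a

/-- the inequality of Lieb-Simon type with the full transforms -/
theorem phi_le_sum (hX : Iid X) {lam : ℝ} (hl : 0 ≤ lam) {B : Set V} {D : Finset V}
    (hD : ∀ a ∈ B, ∀ b, b ∉ B → Nb a b → b ∈ D) {w a : V} (hw : w ∉ B) (ha : a ∈ B) :
    phi X lam w a ≤ ∑ z ∈ D, phi X lam z a * phi X lam w z := by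
  calc phi X lam w a ≤ ∫⁻ ω, ∑ z ∈ D, Vi lam w z a (env X ω) ∂(volume : Measure Ω) := by
        refine lintegral_mono_ae ?_
        filter_upwards [cAE Ω X hX] with ω hω
        exact W_le_Vi hl (fun l h => exit hD hw l a ha h) hω
    _ = ∑ z ∈ D, ∫⁻ ω, Vi lam w z a (env X ω) ∂(volume : Measure Ω) :=
        lintegral_finsetSum' _ fun z _ => (meas_Vi hX lam w z a).aemeasurable
    _ ≤ _ := Finset.sum_le_sum fun z _ => bk_phi hX lam w z a

/-- the restriction to the simple paths inside of `S` -/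
theorem phi_le_tube (hX : Iid X) {lam : ℝ} (hl : 0 ≤ lam) {S : Set V} {D : Finset V} {v a : V}
    (h : ∀ l : List V, Pa v (a :: l) → (∀ y ∈ a :: l, y ∈ S) ∨ ∃ y ∈ a :: l, y ∈ D) :
    phi X lam v a ≤ ∫⁻ ω, Wt lam S v a (env X ω) ∂(volume : Measure Ω) +
      ∑ y ∈ D, phi X lam y a * phi X lam v y := by
  calc phi X lam v a ≤ ∫⁻ ω, (Wt lam S v a (env X ω) + ∑ z ∈ D, Vi lam v z a (env X ω))
        ∂(volume : Measure Ω) := by
        refine lintegral_mono_ae ?_
        filter_upwards [cAE Ω X hX] with ω hω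
        exact W_le_Wt hl h hω
    _ = ∫⁻ ω, Wt lam S v a (env X ω) ∂(volume : Measure Ω) +
        ∑ z ∈ D, ∫⁻ ω, Vi lam v z a (env X ω) ∂(volume : Measure Ω) := by
        rw [lintegral_add_left (meas_Wt hX lam S v a)]
        congr 1
        exact lintegral_finsetSum' _ fun z _ => (meas_Vi hX lam v z a).aemeasurable
    _ ≤ _ := by
        gcongr with z _
        exact bk_phi hX lam v z a

end U874.FL
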