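import Pool.Agent.U874.FL.NB

/-!
# An upper bound for the rate of the lower large deviations
-/

set_option autoImplicit false
set_option linter.unusedSectionVars false
open MeasureTheory ProbabilityTheory Filter Set
open scoped ENNReal Topology

namespace U874.FL

open Pool.Agent.N662.FP
open Pool.Agent.U874.FP

variable {Ω : Type} [MeasureSpace Ω] [IsProbabilityMeasure (volume : Measure Ω)]
  {X : Sym2 (ℤ × ℤ) → Ω → ℝ}

/-- supermultiplicativity of the lower tails -/
theorem tail_mul (hX : Iid X) (s t : ℝ) (v w : V) :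
    (volume : Measure Ω) {ω | D (env X ω) 0 v < s} * (volume : Measure Ω) {ω | D (env X ω) 0 w < t}
      ≤ (volume : Measure Ω) {ω | D (env X ω) 0 (v + w) < s + t} := by
  rw [← E_ind hX, ← E_ind hX, ← E_ind hX]
  refine mult_step hX (prof_ind _) (prof_ind _) (fun v w x hx => ?_) v w
  rw [Su_ind hx, Su_ind hx, Su_ind hx]
  by_cases h1 : D x 0 v < s
  · by_cases h2 : D x v (v + w) < t
    · have h3 : D x 0 (v + w) ∈ Set.Iio (s + t) := by
        show D x 0 (v + w) < _
        have := cTRI x hx 0 v (v + w)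
        linarith
      rw [Set.indicator_of_mem h3]
      refine (mul_le_mul' ?_ ?_).trans (le_of_eq (one_mul 1))
      · exact Set.indicator_le_self' (fun _ _ => zero_le) _
      · exact Set.indicator_le_self' (fun _ _ => zero_le) _
    · have h4 : D x v (v + w) ∉ Set.Iio t := h2
      rw [Set.indicator_of_notMem h4, mul_zero]
      exact zero_le
  · have h4 : D x 0 v ∉ Set.Iio s := h1
    rw [Set.indicator_of_notMem h4, zero_mul]
    exact zero_le

/-- the passage times are typically not larger than the time constant -/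
theorem half (v : V) {m δ : ℝ} (hδ : 0 < δ)
    (hlim : ∀ᵐ ω ∂(volume : Measure Ω),
      Tendsto (fun n : ℕ => D (env X ω) 0 ((n : ℤ) • v) / (n : ℝ)) atTop (𝓝 m)) :
    ∀ᶠ n : ℕ in atTop, (1 / 2 : ℝ≥0∞) ≤ (volume : Measure Ω)
      {ω | D (env X ω) 0 ((n : ℤ) • v) < n * (m + δ)} := by
  obtain ⟨A, hA⟩ : ∃ A : ℕ → Set Ω, A = fun N => {ω | ∀ n : ℕ, N ≤ n →
      D (env X ω) 0 ((n : ℤ) • v) < n * (m + δ)} := ⟨_, rfl⟩
  have hmono : Monotone A := by
    intro N M h ω hω
    rw [hA] at hω ⊢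
    exact fun n hn => hω n (h.trans hn)
  have hU : (volume : Measure Ω) (⋃ N, A N) = 1 := by
    have h1 : (⋃ N, A N) =ᵐ[(volume : Measure Ω)] (Set.univ : Set Ω) := by
      rw [ae_eq_univ]
      refine measure_mono_null ?_ (ae_iff.1 hlim)
      intro ω hω
      rw [Set.mem_ofPred_eq]
      intro h
      apply hω
      obtain ⟨N, hN⟩ := eventually_atTop.1 (h.eventually_lt_const (show m < m + δ by linarith))
      refine Set.mem_iUnion.2 ⟨max N 1, ?_⟩
      rw [hA]
      intro n hn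
      have h2 := hN n ((le_max_left _ _).trans hn)
      have h3 : (0 : ℝ) < n := by
        have : 1 ≤ n := (le_max_right _ _).trans hn
        exact_mod_cast this
      rw [div_lt_iff₀ h3] at h2
      linarith
    rw [measure_congr h1, measure_univ]
  have ht := tendsto_measure_iUnion_atTop (μ := (volume : Measure Ω)) hmono
  rw [hU] at ht
  have hhalf : (1 / 2 : ℝ≥0∞) < 1 := by
    rw [one_div]
    exact ENNReal.inv_lt_one.2 (by norm_num)
  filter_upwards [ht.eventually (lt_mem_nhds hhalf)] with n hn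
  refine hn.le.trans (measure_mono ?_)
  intro ω hω
  rw [hA] at hω
  exact hω n le_rfl

/-- one deep level -/
theorem level (hX : Iid X) (μ : Seminorm ℝ (ℝ × ℝ)) {lam y : ℝ} (hl : 0 < lam) (hy : 0 < y)
    {w : V} (hM : 0 < μ (em w))
    (hw : ENNReal.ofReal (Real.exp (-((lam - y) * μ (em w)))) < phi X lam w 0) :
    ∃ (n : ℕ) (ρ : ℝ), 0 < n ∧ y / (2 * lam) ≤ ρ ∧ ρ < 1 ∧
      ENNReal.ofReal (Real.exp (-(lam * ρ * (n * μ (em w))))) <
        (volume : Measure Ω) {ω | D (env X ω) 0 ((n : ℤ) • w) < (1 - ρ) * (n * μ (em w))} := by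
  obtain ⟨M, hMd⟩ : ∃ M : ℝ, M = μ (em w) := ⟨_, rfl⟩
  rw [← hMd] at hM hw ⊢
  obtain ⟨η, hη⟩ : ∃ η : ℝ, η = y / (4 * lam) := ⟨_, rfl⟩
  have hη0 : 0 < η := by rw [hη]; positivity
  have hlη : lam * η = y / 4 := by rw [hη]; field_simp
  obtain ⟨J, hJ⟩ : ∃ J : ℕ, 1 / η ≤ J := ⟨_, Nat.le_ceil _⟩
  -- the levels
  obtain ⟨r, hr⟩ : ∃ r : ℕ → ℝ, r = fun j : ℕ => ((j : ℝ) + 2) * η := ⟨_, rfl⟩
  have hrJ : 1 ≤ r J := by
    rw [hr]
    show 1 ≤ ((J : ℝ) + 2) * η
    rw [div_le_iff₀ hη0] at hJ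
    nlinarith
  by_contra hcon
  push Not at hcon
  have hAll : ∀ n : ℕ, 0 < n → ∀ j : ℕ, (volume : Measure Ω)
      {ω | D (env X ω) 0 ((n : ℤ) • w) < (1 - r j) * (n * M)} ≤
        ENNReal.ofReal (Real.exp (-(lam * r j * (n * M)))) := by
    intro n hn j
    rcases lt_or_ge (r j) 1 with h | h
    · refine hcon n (r j) hn ?_ h
      rw [hr]
      show y / (2 * lam) ≤ ((j : ℝ) + 2) * η
      have h1 : y / (2 * lam) = 2 * η := by
        rw [hη]
        field_simp
        norm_num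
      rw [h1]
      have : (0 : ℝ) ≤ j := Nat.cast_nonneg j
      nlinarith
    · have h0 : (volume : Measure Ω) {ω | D (env X ω) 0 ((n : ℤ) • w) < (1 - r j) * (n * M)} =
          0 := by
        refine measure_mono_null ?_ (ae_iff.1 (nonneg_ae hX ((n : ℤ) • w)))
        intro ω hω
        rw [Set.mem_ofPred_eq] at hω ⊢
        have h2 : (1 - r j) * (n * M) ≤ 0 := by
          have : 0 ≤ (n : ℝ) * M := by positivity
          nlinarith
        linarith
      rw [h0]
      exact zero_le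
  -- the transform
  have hup : ∀ n : ℕ, 0 < n → phi X lam ((n : ℤ) • w) 0 ≤
      ENNReal.ofReal ((J + 1) * Real.exp (-((lam - y / 2) * (n * M)))) := by
    intro n hn
    obtain ⟨N, hN⟩ : ∃ N : ℝ, N = n * M := ⟨_, rfl⟩
    have hN0 : 0 < N := by
      rw [hN]
      have : (0 : ℝ) < n := by exact_mod_cast hn
      positivity
    have hA := hAll n hn
    rw [← hN] at hA ⊢
    have hms : ∀ j : ℕ, NullMeasurableSet
        {ω | D (env X ω) 0 ((n : ℤ) • w) < (1 - r j) * N} (volume : Measure Ω) := by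
      intro j
      have h1 : AEMeasurable (fun ω => D (env X ω) 0 ((n : ℤ) • w)) (volume : Measure Ω) :=
        (cINT Ω X hX 0 _).aestronglyMeasurable.aemeasurable
      exact nullMeasurableSet_lt h1 aemeasurable_const
    have hpt : ∀ᵐ ω ∂(volume : Measure Ω), ex lam (D (env X ω) 0 ((n : ℤ) • w)) ≤
        ex lam ((1 - r 0) * N) + ∑ j ∈ Finset.range J,
          ({ω | D (env X ω) 0 ((n : ℤ) • w) < (1 - r j) * N} : Set Ω).indicator
            (fun _ => ex lam ((1 - r (j + 1)) * N)) ω := by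
      filter_upwards [nonneg_ae hX ((n : ℤ) • w)] with ω hω
      by_cases h0 : D (env X ω) 0 ((n : ℤ) • w) < (1 - r 0) * N
      · -- the last level below which the passage time lies
        have hex : ∃ j : ℕ, ¬ (D (env X ω) 0 ((n : ℤ) • w) < (1 - r j) * N) := by
          refine ⟨J, ?_⟩
          have : (1 - r J) * N ≤ 0 := by nlinarith
          linarith
        classical
        obtain ⟨k, hk⟩ : ∃ k : ℕ, k = Nat.find hex := ⟨_, rfl⟩
        have hk1 : ¬ (D (env X ω) 0 ((n : ℤ) • w) < (1 - r k) * N) := by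
          rw [hk]
          exact Nat.find_spec hex
        have hk2 : ∀ j < k, D (env X ω) 0 ((n : ℤ) • w) < (1 - r j) * N := by
          intro j hj
          rw [hk] at hj
          exact not_not.1 (Nat.find_min hex hj)
        have hk0 : 0 < k := by
          rcases Nat.eq_zero_or_pos k with h | h
          · rw [h] at hk1
            exact absurd h0 hk1
          · exact h
        have hkJ : k ≤ J := by
          rw [hk]
          refine Nat.find_min' hex ?_
          have : (1 - r J) * N ≤ 0 := by nlinarith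
          linarith
        obtain ⟨j, rfl⟩ : ∃ j, k = j + 1 := ⟨k - 1, by omega⟩
        refine le_add_left ?_
        refine le_trans ?_ (Finset.single_le_sum (f := fun j =>
          ({ω | D (env X ω) 0 ((n : ℤ) • w) < (1 - r j) * N} : Set Ω).indicator
            (fun _ => ex lam ((1 - r (j + 1)) * N)) ω) (fun _ _ => zero_le)
          (Finset.mem_range.2 (show j < J by omega)))
        have hmem : ω ∈ {ω | D (env X ω) 0 ((n : ℤ) • w) < (1 - r j) * N} := hk2 j (by omega)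
        rw [Set.indicator_of_mem hmem]
        exact ex_anti hl.le (not_lt.1 hk1)
      · exact le_add_right (ex_anti hl.le (not_lt.1 h0))
    rw [phi_eq hX hl.le]
    refine (lintegral_mono_ae hpt).trans ?_
    rw [lintegral_add_left measurable_const, lintegral_const, measure_univ, mul_one,
      lintegral_finsetSum' _ fun j _ => (aemeasurable_const.indicator₀ (hms j))]
    have hterm : ∀ j : ℕ, ∫⁻ ω, ({ω | D (env X ω) 0 ((n : ℤ) • w) < (1 - r j) * N} :
        Set Ω).indicator (fun _ => ex lam ((1 - r (j + 1)) * N)) ω ∂(volume : Measure Ω) ≤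
        ENNReal.ofReal (Real.exp (-((lam - y / 2) * N))) := by
      intro j
      rw [lintegral_indicator_const₀ (hms j)]
      refine (mul_le_mul' le_rfl (hA j)).trans ?_
      unfold ex
      rw [← ENNReal.ofReal_mul (Real.exp_pos _).le, ← Real.exp_add]
      refine ENNReal.ofReal_le_ofReal (Real.exp_le_exp.2 ?_)
      have h1 : r (j + 1) = r j + η := by
        rw [hr]
        push_cast
        ring
      have h2 : -(lam * ((1 - r (j + 1)) * N)) + -(lam * r j * N) = -((lam - lam * η) * N) := by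
        rw [h1]
        ring
      rw [h2, hlη]
      nlinarith
    calc ex lam ((1 - r 0) * N) + ∑ j ∈ Finset.range J,
          ∫⁻ ω, ({ω | D (env X ω) 0 ((n : ℤ) • w) < (1 - r j) * N} :
            Set Ω).indicator (fun _ => ex lam ((1 - r (j + 1)) * N)) ω ∂(volume : Measure Ω)
        ≤ ENNReal.ofReal (Real.exp (-((lam - y / 2) * N))) + ∑ _j ∈ Finset.range J,
            ENNReal.ofReal (Real.exp (-((lam - y / 2) * N))) := by
          gcongr with j _
          · unfold ex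
            refine ENNReal.ofReal_le_ofReal (Real.exp_le_exp.2 (le_of_eq ?_))
            have h1 : r 0 = 2 * η := by
              rw [hr]
              simp
            have h2 : lam * ((1 - r 0) * N) = (lam - 2 * (lam * η)) * N := by
              rw [h1]
              ring
            rw [h2, hlη]
            ring
          · exact hterm j
      _ = ENNReal.ofReal ((J + 1) * Real.exp (-((lam - y / 2) * N))) := by
          rw [Finset.sum_const, Finset.card_range, nsmul_eq_mul,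
            ENNReal.ofReal_mul (by positivity), ENNReal.ofReal_add (Nat.cast_nonneg _) zero_le_one,
            ENNReal.ofReal_natCast, ENNReal.ofReal_one]
          ring
  -- the contradiction
  have hlarge : ∀ᶠ n : ℕ in atTop, Real.log (J + 1) < (n : ℝ) * (M * (y / 2)) := by
    have : Tendsto (fun n : ℕ => (n : ℝ) * (M * (y / 2))) atTop atTop :=
      tendsto_natCast_atTop_atTop.atTop_mul_const (by positivity)
    exact this.eventually_gt_atTop _
  obtain ⟨n, hn1, hn2⟩ := (hlarge.and (eventually_gt_atTop 0)).exists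
  have h1 : ENNReal.ofReal (Real.exp (-((lam - y) * (n * M)))) ≤
      ENNReal.ofReal ((J + 1) * Real.exp (-((lam - y / 2) * (n * M)))) := by
    refine le_trans ?_ (hup n hn2)
    refine le_trans ?_ (phi_pow hX hl.le w n)
    refine le_trans (le_of_eq ?_) (pow_le_pow_left' hw.le n)
    rw [← ENNReal.ofReal_pow (Real.exp_pos _).le, ← Real.exp_nat_mul]
    congr 2
    ring
  rw [ENNReal.ofReal_le_ofReal_iff (by positivity)] at h1
  have h2 : Real.exp (-((lam - y) * (n * M))) =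
      Real.exp ((n : ℝ) * (M * (y / 2))) * Real.exp (-((lam - y / 2) * (n * M))) := by
    rw [← Real.exp_add]
    congr 1
    ring
  rw [h2] at h1
  have h3 := le_of_mul_le_mul_right h1 (Real.exp_pos _)
  have hJ1 : (0 : ℝ) < (J : ℝ) + 1 := by positivity
  have h4 : (J : ℝ) + 1 < Real.exp ((n : ℝ) * (M * (y / 2))) := by
    rw [← Real.exp_log hJ1]
    exact Real.exp_lt_exp.2 hn1
  linarith

/-- time sharing: from one deep level to all small ones, along all large multiples -/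
theorem share (hX : Iid X) {v : V} {N : ℝ} (hN : 0 < N)
    (hlim : ∀ᵐ ω ∂(volume : Measure Ω),
      Tendsto (fun n : ℕ => D (env X ω) 0 ((n : ℤ) • v) / (n : ℝ)) atTop (𝓝 N))
    {lam ρ ε : ℝ} (hl : 0 < lam) (hε : 0 < ε) (hρ : 2 * ε ≤ ρ) (hρ1 : ρ < 1)
    (h : ENNReal.ofReal (Real.exp (-(lam * ρ * N))) <
      (volume : Measure Ω) {ω | D (env X ω) 0 v < (1 - ρ) * N}) :
    ∀ᶠ n : ℕ in atTop, ENNReal.ofReal (Real.exp (-(2 * lam * ε * (n * N)))) ≤
      (volume : Measure Ω) {ω | D (env X ω) 0 ((n : ℤ) • v) ≤ (1 - ε) * (n * N)} := by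
  have hρ0 : 0 < ρ := by linarith
  have hlamε : 0 < lam * ε := by positivity
  obtain ⟨m0, hm0⟩ := eventually_atTop.1 (half v (m := N) (δ := ε / 2 * N) (by positivity) hlim)
  have hlarge : ∀ᶠ n : ℕ in atTop, 2 * (lam * N) + 2 * Real.log 2 ≤ (n : ℝ) * (lam * ε * N) := by
    have : Tendsto (fun n : ℕ => (n : ℝ) * (lam * ε * N)) atTop atTop :=
      tendsto_natCast_atTop_atTop.atTop_mul_const (by positivity)
    exact this.eventually_ge_atTop _
  filter_upwards [hlarge, eventually_ge_atTop (4 * (m0 + 2))] with n hn1 hn2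
  have hn2' : 4 * ((m0 : ℝ) + 2) ≤ n := by exact_mod_cast hn2
  have hm00 : (0 : ℝ) ≤ m0 := Nat.cast_nonneg m0
  have hn0 : (0 : ℝ) < n := by linarith
  obtain ⟨k, hk⟩ : ∃ k : ℕ, k = ⌈3 / 2 * (ε / ρ) * n⌉₊ := ⟨_, rfl⟩
  have hk1 : 3 / 2 * (ε / ρ) * n ≤ k := by rw [hk]; exact Nat.le_ceil _
  have hk2 : (k : ℝ) < 3 / 2 * (ε / ρ) * n + 1 := by
    rw [hk]
    exact Nat.ceil_lt_add_one (by positivity)
  have hk3 : 0 < k := by
    rw [hk]
    exact Nat.ceil_pos.2 (by positivity)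
  have hερ : ε / ρ ≤ 1 / 2 := by
    rw [div_le_iff₀ hρ0]
    linarith
  have hkn : (k : ℝ) + m0 ≤ n := by nlinarith
  have hkn' : k + m0 ≤ n := by exact_mod_cast hkn
  obtain ⟨m, hm⟩ : ∃ m : ℕ, n = k + m := ⟨n - k, by omega⟩
  have hmm : m0 ≤ m := by omega
  have hmr : (n : ℝ) = k + m := by rw [hm]; push_cast; ring
  have h1 := hm0 m hmm
  obtain ⟨k', rfl⟩ : ∃ k', k = k' + 1 := ⟨k - 1, by omega⟩
  have h2 := tail_pow hX ((1 - ρ) * N) v k'
  have h3 := tail_mul hX (((k' + 1 : ℕ) : ℝ) * ((1 - ρ) * N)) ((m : ℝ) * (N + ε / 2 * N))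
    (((k' + 1 : ℕ) : ℤ) • v) ((m : ℤ) • v)
  have e1 : (((k' + 1 : ℕ) : ℤ) • v) + ((m : ℤ) • v) = (n : ℤ) • v := by
    rw [hm, ← add_smul]
    push_cast
    ring_nf
  rw [e1] at h3
  have hρk1 : 3 / 2 * ε * n ≤ ρ * ((k' + 1 : ℕ) : ℝ) := by
    have := mul_le_mul_of_nonneg_left hk1 hρ0.le
    have e : ρ * (3 / 2 * (ε / ρ) * n) = 3 / 2 * ε * n := by field_simp
    linarith
  have hρk2 : ρ * ((k' + 1 : ℕ) : ℝ) ≤ 3 / 2 * ε * n + 1 := by
    have := mul_le_mul_of_nonneg_left hk2.le hρ0.le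
    have e : ρ * (3 / 2 * (ε / ρ) * n + 1) = 3 / 2 * ε * n + ρ := by field_simp
    linarith
  have h4 : {ω | D (env X ω) 0 ((n : ℤ) • v) <
      ((k' + 1 : ℕ) : ℝ) * ((1 - ρ) * N) + (m : ℝ) * (N + ε / 2 * N)} ⊆
      {ω | D (env X ω) 0 ((n : ℤ) • v) ≤ (1 - ε) * (n * N)} := by
    intro ω hω
    have hω' : D (env X ω) 0 ((n : ℤ) • v) <
      ((k' + 1 : ℕ) : ℝ) * ((1 - ρ) * N) + (m : ℝ) * (N + ε / 2 * N) := hω
    show D (env X ω) 0 ((n : ℤ) • v) ≤ (1 - ε) * (n * N)
    refine hω'.le.trans ?_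
    have e : ((k' + 1 : ℕ) : ℝ) * ((1 - ρ) * N) + (m : ℝ) * (N + ε / 2 * N) =
        (n - ρ * ((k' + 1 : ℕ) : ℝ) + ε / 2 * m) * N := by
      rw [hmr]
      ring
    have e2 : (1 - ε) * (n * N) = (n - ε * n) * N := by ring
    rw [e, e2]
    refine mul_le_mul_of_nonneg_right ?_ hN.le
    have hm1 : (m : ℝ) ≤ n := by
      rw [hmr]
      have : (0 : ℝ) ≤ ((k' + 1 : ℕ) : ℝ) := Nat.cast_nonneg _
      linarith
    have hm2 : ε / 2 * m ≤ ε / 2 * n := mul_le_mul_of_nonneg_left hm1 (by positivity)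
    linarith
  refine le_trans ?_ (measure_mono h4)
  refine le_trans ?_ h3
  have h5 : ENNReal.ofReal (Real.exp (-(lam * ρ * N))) ^ (k' + 1) ≤
      (volume : Measure Ω) {ω | D (env X ω) 0 (((k' + 1 : ℕ) : ℤ) • v) <
        ((k' + 1 : ℕ) : ℝ) * ((1 - ρ) * N)} :=
    (pow_le_pow_left' h.le _).trans h2
  refine le_trans ?_ (mul_le_mul' h5 h1)
  rw [← ENNReal.ofReal_pow (Real.exp_pos _).le, ← Real.exp_nat_mul]
  have h6 : (1 / 2 : ℝ≥0∞) = ENNReal.ofReal (1 / 2) := by
    rw [one_div, one_div, ENNReal.ofReal_inv_of_pos (by norm_num)]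
    norm_num
  rw [h6, ← ENNReal.ofReal_mul (Real.exp_pos _).le]
  refine ENNReal.ofReal_le_ofReal ?_
  have h7 : (1 / 2 : ℝ) = Real.exp (-Real.log 2) := by
    rw [Real.exp_neg, Real.exp_log two_pos, one_div]
  rw [h7, ← Real.exp_add]
  refine Real.exp_le_exp.2 ?_
  have h8 : ((k' + 1 : ℕ) : ℝ) * -(lam * ρ * N) = -(lam * N * (ρ * ((k' + 1 : ℕ) : ℝ))) := by ring
  rw [h8]
  have h9 := mul_le_mul_of_nonneg_left hρk2 (show 0 ≤ lam * N by positivity)
  nlinarith

/-- for every small depth, the rate is small in some direction -/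
theorem rate_every (hX : Iid X) (μ : Seminorm ℝ (ℝ × ℝ)) (hμ : ∀ x, μ x = 0 → x = 0)
    (hlim : ∀ v : V, ∀ᵐ ω ∂(volume : Measure Ω),
      Tendsto (fun n : ℕ => D (env X ω) 0 ((n : ℤ) • v) / (n : ℝ)) atTop (𝓝 (μ (em v))))
    {κ c : ℝ} (hκ : 4 / 5 < κ) (hκ1 : κ < 1) (hc : 0 < c) :
    ∃ ε1 : ℝ, 0 < ε1 ∧ ∀ ε : ℝ, 0 < ε → ε < ε1 → ∃ v : V, v ≠ 0 ∧ ∀ᶠ n : ℕ in atTop,
      ENNReal.ofReal (Real.exp (-(c * (n * μ (em v)) * ε ^ (1 / κ)))) ≤
        (volume : Measure Ω) {ω | D (env X ω) 0 ((n : ℤ) • v) ≤ (1 - ε) * (n * μ (em v))} := by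
  obtain ⟨κ1, hκ1a, hκ1b⟩ : ∃ κ1 : ℝ, 4 / 5 < κ1 ∧ κ1 < κ :=
    ⟨(4 / 5 + κ) / 2, by linarith, by linarith⟩
  have hκ10 : 0 < κ1 := by linarith
  obtain ⟨a, ha⟩ : ∃ a : ℝ, a = 1 / (1 - κ1) := ⟨_, rfl⟩
  have ha5 : 5 < a := by
    rw [ha, lt_div_iff₀ (by linarith)]
    linarith
  have ha1 : 0 < a - 1 := by linarith
  obtain ⟨l0, hl0, hev⟩ := every hX μ hμ hlim ha5
  -- the exponent of `lam` as a function of `ε`
  obtain ⟨s, hs⟩ : ∃ s : ℝ, s = 1 / (a - 1) := ⟨_, rfl⟩
  have hs0 : 0 < s := by rw [hs]; positivity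
  have hsκ : 1 + s = 1 / κ1 := by
    rw [hs, ha]
    have : 1 - κ1 ≠ 0 := by linarith
    have h2 : 1 / (1 - κ1) - 1 = κ1 / (1 - κ1) := by
      field_simp
      ring
    rw [h2]
    field_simp
    ring
  have hgap : 1 / κ < 1 + s := by
    rw [hsκ]
    exact one_div_lt_one_div_of_lt hκ10 hκ1b
  -- small `ε`
  have hsm1 : ∀ᶠ R : ℝ in atTop, (4 : ℝ) ^ s * (1 / l0) * R ^ (-s) ≤ 1 / 2 := by
    have h1 := (tendsto_rpow_neg_atTop hs0).const_mul ((4 : ℝ) ^ s * (1 / l0))
    rw [mul_zero] at h1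
    exact h1.eventually_le_const (by norm_num)
  have hsm2 := pw (show -(1 + s) < -(1 / κ) by linarith) (2 * 4 ^ s / c)
  obtain ⟨R0, hR0⟩ := eventually_atTop.1 (hsm1.and (hsm2.and (eventually_ge_atTop (2 : ℝ))))
  obtain ⟨R1, hR1⟩ : ∃ R1 : ℝ, R1 = max R0 2 := ⟨_, rfl⟩
  have hR1p : 0 < R1 := by rw [hR1]; exact lt_max_of_lt_right two_pos
  refine ⟨1 / R1, by positivity, ?_⟩
  intro ε hε hε1
  obtain ⟨R, hR⟩ : ∃ R : ℝ, R = 1 / ε := ⟨_, rfl⟩
  have hRp : 0 < R := by rw [hR]; positivity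
  have hRR : R1 ≤ R := by
    rw [hR, le_div_iff₀ hε]
    rw [lt_div_iff₀ hR1p] at hε1
    linarith
  obtain ⟨g1, g2, g3⟩ := hR0 R ((by rw [hR1]; exact le_max_left _ _ : R0 ≤ R1).trans hRR)
  have hRε : ∀ t : ℝ, R ^ (-t) = ε ^ t := by
    intro t
    rw [hR, one_div, Real.inv_rpow hε.le, Real.rpow_neg hε.le, inv_inv]
  rw [hRε] at g1
  rw [hRε, hRε] at g2
  obtain ⟨lam, hlam⟩ : ∃ lam : ℝ, lam = (4 * ε) ^ s := ⟨_, rfl⟩
  have hl : 0 < lam := by rw [hlam]; positivity
  have hlam' : lam = 4 ^ s * ε ^ s := by rw [hlam, Real.mul_rpow (by norm_num) hε.le]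
  have hll : lam < l0 := by
    have h1 : 4 ^ s * (1 / l0) * ε ^ s = lam / l0 := by rw [hlam']; ring
    rw [h1] at g1
    rw [div_le_iff₀ hl0] at g1
    linarith
  have hy : lam ^ a / (4 * lam) = ε := by
    have h1 : lam ^ (a - 1) = 4 * ε := by
      rw [hlam, ← Real.rpow_mul (by positivity)]
      have : s * (a - 1) = 1 := by rw [hs]; field_simp
      rw [this, Real.rpow_one]
    have h2 : lam ^ a = lam ^ (a - 1) * lam := by
      rw [← Real.rpow_add_one hl.ne']
      congr 1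
      ring
    rw [h2, h1]
    field_simp
  obtain ⟨w, hw⟩ := hev lam hl hll
  have hM : 0 < μ (em w) := by
    refine lt_of_le_of_ne (apply_nonneg μ _) fun h => ?_
    rw [← h] at hw
    simp only [mul_zero, neg_zero, Real.exp_zero, ENNReal.ofReal_one] at hw
    exact absurd (phi_le_one hX hl.le w 0) (not_le.2 hw)
  obtain ⟨n0, ρ, hn0, hρ, hρ1, hlev⟩ := level hX μ hl (show 0 < lam ^ a by positivity) hM hw
  have hρ2 : 2 * ε ≤ ρ := by
    refine le_trans (le_of_eq ?_) hρ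
    rw [← hy]
    field_simp
    norm_num
  have hvμ : μ (em ((n0 : ℤ) • w)) = n0 * μ (em w) := em_nsmul μ n0 w
  have hn0r : (0 : ℝ) < n0 := by exact_mod_cast hn0
  have hNp : 0 < μ (em ((n0 : ℤ) • w)) := by rw [hvμ]; positivity
  refine ⟨(n0 : ℤ) • w, ?_, ?_⟩
  · intro h0
    rw [h0] at hNp
    have : em 0 = 0 := by
      unfold Pool.Agent.N662.FP.em
      simp
    rw [this, map_zero] at hNp
    exact lt_irrefl _ hNp
  · rw [← hvμ] at hlev
    have hsh := share hX hNp (hlim _) hl hε hρ2 hρ1 hlev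
    filter_upwards [hsh] with n hn
    refine le_trans ?_ hn
    refine ENNReal.ofReal_le_ofReal (Real.exp_le_exp.2 (neg_le_neg ?_))
    have h1 : 2 * lam * ε ≤ c * ε ^ (1 / κ) := by
      have h2 : 2 * lam * ε = 2 * 4 ^ s * ε ^ (1 + s) := by
        rw [hlam', add_comm, Real.rpow_add_one hε.ne']
        ring
      rw [h2]
      rw [div_mul_eq_mul_div, div_le_iff₀ hc] at g2
      linarith
    have h3 : 0 ≤ (n : ℝ) * μ (em ((n0 : ℤ) • w)) := by positivity
    nlinarith

end U874.FL
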