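import Pool.Agent.U874.FP.Two
import Pool.Agent.U874.FL.BK

/-!
# Paths through a given point, and the Laplace transforms of the two pieces
-/

set_option autoImplicit false
set_option linter.unusedSectionVars false
open MeasureTheory ProbabilityTheory Filter Set
open scoped ENNReal Topology

namespace U874.FL

open Pool.Agent.N662.FP
open Pool.Agent.U874.FP

variable {Ω : Type} [MeasureSpace Ω] [IsProbabilityMeasure (volume : Measure Ω)]
  {X : Sym2 (ℤ × ℤ) → Ω → ℝ}

/-- pairs of paths from `a` to `y` and from `y` to `v` without common edges -/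
def Pr (v y a : V) (p : List V × List V) : Prop :=
  Pa y (a :: p.1) ∧ Pa v (y :: p.2) ∧ (edg (a :: p.1) ++ edg (y :: p.2)).Nodup

/-- supremum over the pairs of paths -/
noncomputable def Vi (lam : ℝ) (v y a : V) (x : Sym2 V → ℝ) : ℝ≥0∞ :=
  ⨆ p : List V × List V, ⨆ _ : Pr v y a p, ex lam (cost x (a :: p.1)) * ex lam (cost x (y :: p.2))

theorem meas_Vi (hX : Iid X) (lam : ℝ) (v y a : V) : Measurable fun ω => Vi lam v y a (env X ω) := by
  refine Measurable.iSup fun p => ?_
  by_cases h : Pr v y a p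
  · simp only [h, iSup_pos]
    exact (meas_ex lam (meas_cost fun e _ => hX.meas e)).mul
      (meas_ex lam (meas_cost fun e _ => hX.meas e))
  · simp only [h]
    simp

/-- the law of finitely many weights -/
theorem law_fin (hX : Iid X) (F : Finset (Sym2 V)) :
    Measure.map (fun ω (e : F) => X e.1 ω) (volume : Measure Ω) =
      Measure.pi fun _ : F => expMeasure 1 := by
  have hi : iIndepFun (fun e : F => X e.1) (volume : Measure Ω) :=
    hX.ind.precomp Subtype.val_injective
  rw [(iIndepFun_iff_map_fun_eq_pi_map (fun e : F => (hX.meas e.1).aemeasurable)).1 hi]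
  congr 1
  funext e
  exact hX.law _

/-- the edges of a path as a set of indices -/
def ixs (F : Finset (Sym2 V)) (l : List V) : Finset F := Finset.univ.filter fun e => e.1 ∈ edg l

theorem ex_cost (F : Finset (Sym2 V)) {lam : ℝ} {l : List V} (h : ∀ e ∈ edg l, e ∈ F)
    (hn : (edg l).Nodup) (x : Sym2 V → ℝ) :
    ex lam (cost x l) = ∏ e ∈ ixs F l, ex lam (x e.1) := by
  have h1 : cost x l = ∑ e ∈ (edg l).toFinset, x e := by
    unfold cost
    rw [List.sum_toFinset _ hn]
  have h2 : ∏ e ∈ ixs F l, ex lam (x e.1) = ∏ e ∈ (edg l).toFinset, ex lam (x e) := by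
    refine Finset.prod_bij (fun e _ => e.1) ?_ ?_ ?_ ?_
    · intro e he
      exact List.mem_toFinset.2 (Finset.mem_filter.1 he).2
    · intro e _ e' _ h3
      exact Subtype.ext h3
    · intro e he
      have h3 := List.mem_toFinset.1 he
      exact ⟨⟨e, h e h3⟩, Finset.mem_filter.2 ⟨Finset.mem_univ _, h3⟩, rfl⟩
    · intro e _
      rfl
  rw [h1, h2]
  unfold ex
  rw [← ENNReal.ofReal_prod_of_nonneg (fun _ _ => (Real.exp_pos _).le), ← Real.exp_sum]
  congr 2
  rw [Finset.mul_sum, Finset.sum_neg_distrib]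

/-- finitely many pairs -/
theorem bk_fin (hX : Iid X) {lam : ℝ} (v y a : V) (N : ℕ) :
    ∫⁻ ω, (⨆ p : {p : List V × List V // Pr v y a p ∧ Encodable.encode p ≤ N},
      ex lam (cost (env X ω) (a :: p.1.1)) * ex lam (cost (env X ω) (y :: p.1.2)))
        ∂(volume : Measure Ω) ≤ phi X lam y a * phi X lam v y := by
  classical
  have hfin : {p : List V × List V | Pr v y a p ∧ Encodable.encode p ≤ N}.Finite := by
    have h : ((fun p : List V × List V => Encodable.encode p) ⁻¹' (Set.Iic N)).Finite :=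
      (Set.finite_Iic N).preimage (Encodable.encode_injective.injOn)
    exact h.subset fun p hp => hp.2
  obtain ⟨F, hF⟩ : ∃ F : Finset (Sym2 V), ∀ p : List V × List V, (Pr v y a p ∧
      Encodable.encode p ≤ N) → (∀ e ∈ edg (a :: p.1), e ∈ F) ∧ (∀ e ∈ edg (y :: p.2), e ∈ F) := by
    refine ⟨hfin.toFinset.biUnion fun p => (edg (a :: p.1) ++ edg (y :: p.2)).toFinset,
      fun p hp => ⟨fun e he => ?_, fun e he => ?_⟩⟩
    · exact Finset.mem_biUnion.2 ⟨p, hfin.mem_toFinset.2 hp,
        List.mem_toFinset.2 (List.mem_append.2 (Or.inl he))⟩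
    · exact Finset.mem_biUnion.2 ⟨p, hfin.mem_toFinset.2 hp,
        List.mem_toFinset.2 (List.mem_append.2 (Or.inr he))⟩
  set κ := {p : List V × List V // Pr v y a p ∧ Encodable.encode p ≤ N} with hκ
  set A : κ → Finset F := fun p => ixs F (a :: p.1.1) with hA
  set B : κ → Finset F := fun p => ixs F (y :: p.1.2) with hB
  have hd : ∀ p, Disjoint (A p) (B p) := by
    intro p
    rw [Finset.disjoint_left]
    intro e h1 h2
    have h3 := (List.nodup_append.1 p.2.1.2.2).2.2
    exact h3 _ (Finset.mem_filter.1 h1).2 _ (Finset.mem_filter.1 h2).2 rfl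
  have hu : Measurable (ex lam) := meas_ex lam measurable_id
  have hcA : ∀ (p : κ) (x : Sym2 V → ℝ), ex lam (cost x (a :: p.1.1)) =
      ∏ e ∈ A p, ex lam (x e.1) := fun p x =>
    ex_cost F (hF p.1 p.2).1 (List.nodup_append.1 p.2.1.2.2).1 x
  have hcB : ∀ (p : κ) (x : Sym2 V → ℝ), ex lam (cost x (y :: p.1.2)) =
      ∏ e ∈ B p, ex lam (x e.1) := fun p x =>
    ex_cost F (hF p.1 p.2).2 (List.nodup_append.1 p.2.1.2.2).2.1 x
  haveI := haspos
  have key := bk (expMeasure 1) hu hd
  have mY : Measurable (fun ω (e : F) => X e.1 ω) := measurable_pi_lambda _ fun e => hX.meas _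
  have mA : Measurable fun x : F → ℝ => ⨆ j : κ, ∏ e ∈ A j, ex lam (x e) :=
    Measurable.iSup fun j => Finset.measurable_fun_prod _ fun e _ => hu.comp (measurable_pi_apply e)
  have mB : Measurable fun x : F → ℝ => ⨆ j : κ, ∏ e ∈ B j, ex lam (x e) :=
    Measurable.iSup fun j => Finset.measurable_fun_prod _ fun e _ => hu.comp (measurable_pi_apply e)
  have mAB : Measurable fun x : F → ℝ => ⨆ j : κ, (∏ e ∈ A j, ex lam (x e)) *
      ∏ e ∈ B j, ex lam (x e) :=
    Measurable.iSup fun j => (Finset.measurable_fun_prod _ fun e _ =>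
      hu.comp (measurable_pi_apply e)).mul (Finset.measurable_fun_prod _ fun e _ =>
      hu.comp (measurable_pi_apply e))
  rw [← law_fin hX F, lintegral_map mAB mY, lintegral_map mA mY, lintegral_map mB mY] at key
  have e1 : ∀ ω, (⨆ p : κ, ex lam (cost (env X ω) (a :: p.1.1)) *
      ex lam (cost (env X ω) (y :: p.1.2))) = ⨆ j : κ, (∏ e ∈ A j, ex lam (X e.1 ω)) *
      ∏ e ∈ B j, ex lam (X e.1 ω) := fun ω => iSup_congr fun p => by rw [hcA, hcB]; rfl
  have e2 : ∀ ω, (⨆ j : κ, ∏ e ∈ A j, ex lam (X e.1 ω)) ≤ W lam y a (env X ω) := by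
    intro ω
    refine iSup_le fun p => ?_
    have h1 := hcA p (env X ω)
    have h2 : ∏ e ∈ A p, ex lam (X e.1 ω) = ex lam (cost (env X ω) (a :: p.1.1)) := h1.symm
    rw [h2]
    exact le_W p.2.1.1
  have e3 : ∀ ω, (⨆ j : κ, ∏ e ∈ B j, ex lam (X e.1 ω)) ≤ W lam v y (env X ω) := by
    intro ω
    refine iSup_le fun p => ?_
    have h1 := hcB p (env X ω)
    have h2 : ∏ e ∈ B p, ex lam (X e.1 ω) = ex lam (cost (env X ω) (y :: p.1.2)) := h1.symm
    rw [h2]
    exact le_W p.2.1.2.1
  refine le_trans (le_of_eq (lintegral_congr e1)) ?_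
  exact key.trans (mul_le_mul' (lintegral_mono e2) (lintegral_mono e3))

/-- the inequality of van den Berg-Kesten type -/
theorem bk_phi (hX : Iid X) (lam : ℝ) (v y a : V) :
    ∫⁻ ω, Vi lam v y a (env X ω) ∂(volume : Measure Ω) ≤ phi X lam y a * phi X lam v y := by
  have e1 : ∀ x : Sym2 V → ℝ, Vi lam v y a x = ⨆ N : ℕ,
      ⨆ p : {p : List V × List V // Pr v y a p ∧ Encodable.encode p ≤ N},
        ex lam (cost x (a :: p.1.1)) * ex lam (cost x (y :: p.1.2)) := by
    intro x
    refine le_antisymm (iSup₂_le fun p hp => ?_) (iSup_le fun N => iSup_le fun p => ?_)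
    · exact le_iSup_of_le (Encodable.encode p) (le_iSup_of_le (f := fun p : {p : List V × List V //
        Pr v y a p ∧ Encodable.encode p ≤ Encodable.encode _} =>
        ex lam (cost x (a :: p.1.1)) * ex lam (cost x (y :: p.1.2))) ⟨p, hp, le_rfl⟩ le_rfl)
    · exact le_iSup₂_of_le p.1 p.2.1 le_rfl
  simp_rw [e1]
  rw [lintegral_iSup]
  · exact iSup_le fun N => bk_fin hX v y a N
  · intro N
    refine Measurable.iSup fun p => ?_
    exact (meas_ex lam (meas_cost fun e _ => hX.meas e)).mul
      (meas_ex lam (meas_cost fun e _ => hX.meas e))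
  · intro N M h ω
    refine iSup_le fun p => ?_
    exact le_iSup_of_le (f := fun p : {p : List V × List V //
        Pr v y a p ∧ Encodable.encode p ≤ M} =>
        ex lam (cost (env X ω) (a :: p.1.1)) * ex lam (cost (env X ω) (y :: p.1.2)))
      ⟨p.1, p.2.1, p.2.2.trans h⟩ le_rfl

end U874.FL
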